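import Pool.Agent.R924.SM.Stm

/-!
# BA1: coordinatewise `L²` limits of measure preserving maps
-/

open MeasureTheory Set Filter Topology

set_option autoImplicit false

namespace Pool.Agent.R924.SM.BA1

/-- the space -/
abbrev Z : Type := XX × XX

/-- convergence of `F ∘ T k` to `F ∘ S` in `L²` -/
def P (μ : Measure Z) (T : ℕ → Z → Z) (S : Z → Z) (F : Z → ℝ) : Prop :=
  Tendsto (fun k => ∫ z, (F (T k z) - F (S z)) ^ 2 ∂μ) atTop (𝓝 0)

section

variable {μ : Measure Z} [IsProbabilityMeasure μ] {T : ℕ → Z → Z} {S : Z → Z}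

theorem int_sq (F : C(Z, ℝ)) {T S : Z → Z} (hT : Measurable T) (hS : Measurable S) :
    Integrable (fun z => (F (T z) - F (S z)) ^ 2) μ := by
  have hF : Measurable F := F.continuous.measurable
  refine Integrable.of_bound (((hF.comp hT).sub (hF.comp hS)).pow_const 2).aestronglyMeasurable
    ((2 * ‖F‖) ^ 2) (ae_of_all _ fun z => ?_)
  rw [norm_pow]
  gcongr
  have h1 := norm_sub_le (F (T z)) (F (S z))
  have h2 := F.norm_coe_le_norm (T z)
  have h3 := F.norm_coe_le_norm (S z)
  linarith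

omit [IsProbabilityMeasure μ] in
theorem int_nonneg (F : Z → ℝ) (T S : Z → Z) : 0 ≤ ∫ z, (F (T z) - F (S z)) ^ 2 ∂μ :=
  integral_nonneg fun _ => sq_nonneg _

theorem P_add (hT : ∀ k, Measurable (T k)) (hS : Measurable S) (F G : C(Z, ℝ))
    (hF : P μ T S F) (hG : P μ T S G) : P μ T S (F + G) := by
  have h : Tendsto (fun k => 2 * (∫ z, (F (T k z) - F (S z)) ^ 2 ∂μ) +
      2 * (∫ z, (G (T k z) - G (S z)) ^ 2 ∂μ)) atTop (𝓝 0) := by
    have := (hF.const_mul 2).add (hG.const_mul 2)
    simpa using this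
  refine squeeze_zero (fun k => int_nonneg _ _ _) (fun k => ?_) h
  rw [← integral_const_mul, ← integral_const_mul,
    ← integral_add ((int_sq F (hT k) hS).const_mul 2) ((int_sq G (hT k) hS).const_mul 2)]
  refine integral_mono_of_nonneg (ae_of_all _ fun z => sq_nonneg _)
    (((int_sq F (hT k) hS).const_mul 2).add ((int_sq G (hT k) hS).const_mul 2))
    (ae_of_all _ fun z => ?_)
  simp only [Pi.add_apply]
  nlinarith [sq_nonneg ((F (T k z) - F (S z)) - (G (T k z) - G (S z)))]

theorem P_mul (hT : ∀ k, Measurable (T k)) (hS : Measurable S) (F G : C(Z, ℝ))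
    (hF : P μ T S F) (hG : P μ T S G) : P μ T S (F * G) := by
  have h : Tendsto (fun k => 2 * ‖G‖ ^ 2 * (∫ z, (F (T k z) - F (S z)) ^ 2 ∂μ) +
      2 * ‖F‖ ^ 2 * (∫ z, (G (T k z) - G (S z)) ^ 2 ∂μ)) atTop (𝓝 0) := by
    have := (hF.const_mul (2 * ‖G‖ ^ 2)).add (hG.const_mul (2 * ‖F‖ ^ 2))
    simpa using this
  refine squeeze_zero (fun k => int_nonneg _ _ _) (fun k => ?_) h
  rw [← integral_const_mul, ← integral_const_mul,
    ← integral_add ((int_sq F (hT k) hS).const_mul _) ((int_sq G (hT k) hS).const_mul _)]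
  refine integral_mono_of_nonneg (ae_of_all _ fun z => sq_nonneg _)
    (((int_sq F (hT k) hS).const_mul _).add ((int_sq G (hT k) hS).const_mul _))
    (ae_of_all _ fun z => ?_)
  simp only [Pi.mul_apply]
  have h1 : F (T k z) ^ 2 ≤ ‖F‖ ^ 2 := by
    have := F.norm_coe_le_norm (T k z)
    rw [Real.norm_eq_abs] at this
    rw [← sq_abs (F (T k z))]
    gcongr
  have h2 : G (S z) ^ 2 ≤ ‖G‖ ^ 2 := by
    have := G.norm_coe_le_norm (S z)
    rw [Real.norm_eq_abs] at this
    rw [← sq_abs (G (S z))]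
    gcongr
  have e : (F (T k z) * G (T k z) - F (S z) * G (S z)) =
      F (T k z) * (G (T k z) - G (S z)) + (F (T k z) - F (S z)) * G (S z) := by ring
  rw [e]
  have h3 : (F (T k z) * (G (T k z) - G (S z)) + (F (T k z) - F (S z)) * G (S z)) ^ 2 ≤
      2 * (G (S z) ^ 2 * (F (T k z) - F (S z)) ^ 2) +
      2 * (F (T k z) ^ 2 * (G (T k z) - G (S z)) ^ 2) := by
    nlinarith [sq_nonneg (F (T k z) * (G (T k z) - G (S z)) - (F (T k z) - F (S z)) * G (S z))]
  have h4 := mul_le_mul_of_nonneg_right h1 (sq_nonneg (G (T k z) - G (S z)))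
  have h5 := mul_le_mul_of_nonneg_right h2 (sq_nonneg (F (T k z) - F (S z)))
  linarith

theorem P_approx (hT : ∀ k, Measurable (T k)) (hS : Measurable S) (F : C(Z, ℝ))
    (h : ∀ ε : ℝ, 0 < ε → ∃ G : C(Z, ℝ), P μ T S G ∧ ‖F - G‖ ≤ ε) : P μ T S F := by
  unfold P
  rw [Metric.tendsto_atTop]
  intro ε hε
  obtain ⟨G, hG, hFG⟩ := h (min 1 (ε / 24)) (by positivity)
  unfold P at hG
  rw [Metric.tendsto_atTop] at hG
  obtain ⟨N, hN⟩ := hG (ε / 6) (by positivity)
  refine ⟨N, fun k hk => ?_⟩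
  have h1 := hN k hk
  rw [Real.dist_eq, sub_zero, abs_of_nonneg (int_nonneg _ _ _)] at h1 ⊢
  set δ := min 1 (ε / 24) with hδ
  have hδ0 : 0 < δ := by positivity
  have hδ1 : δ ≤ 1 := min_le_left _ _
  have hδ2 : δ ≤ ε / 24 := min_le_right _ _
  have h2 : ∫ z, (F (T k z) - F (S z)) ^ 2 ∂μ ≤
      ∫ z, (3 * (G (T k z) - G (S z)) ^ 2 + 6 * δ ^ 2) ∂μ := by
    refine integral_mono_of_nonneg (ae_of_all _ fun z => sq_nonneg _)
      (((int_sq G (hT k) hS).const_mul 3).add (integrable_const _)) (ae_of_all _ fun z => ?_)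
    simp only []
    have h3 := (F - G).norm_coe_le_norm (T k z)
    have h4 := (F - G).norm_coe_le_norm (S z)
    rw [Real.norm_eq_abs, ContinuousMap.sub_apply] at h3 h4
    have h5 : (F (T k z) - G (T k z)) ^ 2 ≤ δ ^ 2 := by
      rw [← sq_abs (F (T k z) - G (T k z))]
      have := h3.trans hFG
      gcongr
    have h6 : (F (S z) - G (S z)) ^ 2 ≤ δ ^ 2 := by
      rw [← sq_abs (F (S z) - G (S z))]
      have := h4.trans hFG
      gcongr
    nlinarith [sq_nonneg ((F (T k z) - G (T k z)) - (G (T k z) - G (S z))),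
      sq_nonneg ((F (T k z) - G (T k z)) + (F (S z) - G (S z))),
      sq_nonneg ((G (T k z) - G (S z)) + (F (S z) - G (S z)))]
  rw [integral_add ((int_sq G (hT k) hS).const_mul 3) (integrable_const _), integral_const_mul,
    integral_const] at h2
  rw [probReal_univ, one_smul] at h2
  nlinarith

omit [IsProbabilityMeasure μ] in
theorem P_const (c : ℝ) : P μ T S (fun _ => c) := by
  unfold P
  simp

theorem cont_co (a : ℤ ⊕ ℤ) : Continuous (co a) := by
  unfold co
  rcases a with i | i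
  · simp only [Sum.elim_inl]
    fun_prop
  · simp only [Sum.elim_inr]
    fun_prop

/-- Stone–Weierstrass -/
theorem P_cont (hT : ∀ k, Measurable (T k)) (hS : Measurable S)
    (hco : ∀ a, P μ T S (co a)) (F : C(Z, ℝ)) : P μ T S F := by
  let 𝒜 : Subalgebra ℝ C(Z, ℝ) :=
    { carrier := {F | P μ T S F}
      mul_mem' := fun {F G} hF hG => P_mul hT hS F G hF hG
      add_mem' := fun {F G} hF hG => P_add hT hS F G hF hG
      algebraMap_mem' := fun r => by
        show P μ T S _
        exact P_const r }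
  have hsep : 𝒜.SeparatesPoints := by
    intro x y hxy
    have : ∃ a, co a x ≠ co a y := by
      by_contra hcon
      push Not at hcon
      apply hxy
      refine Prod.ext ?_ ?_
      · funext i
        exact Subtype.ext (hcon (Sum.inl i))
      · funext i
        exact Subtype.ext (hcon (Sum.inr i))
    obtain ⟨a, ha⟩ := this
    refine ⟨co a, ⟨⟨co a, cont_co a⟩, hco a, rfl⟩, ha⟩
  have htop := ContinuousMap.subalgebra_topologicalClosure_eq_top_of_separatesPoints 𝒜 hsep
  have hF : F ∈ 𝒜.topologicalClosure := by rw [htop]; exact Algebra.mem_top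
  have hF' : F ∈ closure (𝒜 : Set C(Z, ℝ)) := hF
  refine P_approx hT hS F fun ε hε => ?_
  obtain ⟨G, hG, hd⟩ := Metric.mem_closure_iff.1 hF' ε hε
  refine ⟨G, hG, ?_⟩
  rw [← dist_eq_norm]
  exact hd.le

/-- the limit is measure preserving -/
theorem mp_S (hT : ∀ k, MeasurePreserving (T k) μ μ) (hS : Measurable S)
    (hco : ∀ a, P μ T S (co a)) : MeasurePreserving S μ μ := by
  refine ⟨hS, ?_⟩
  have : IsProbabilityMeasure (Measure.map S μ) :=
    Measure.isProbabilityMeasure_map hS.aemeasurable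
  refine ext_of_forall_integral_eq_of_IsFiniteMeasure fun f => ?_
  rw [integral_map hS.aemeasurable f.continuous.measurable.aestronglyMeasurable]
  have hP := P_cont (fun k => (hT k).measurable) hS hco ⟨f, f.continuous⟩
  have h1 : ∀ k, |∫ z, f (S z) ∂μ - ∫ z, f z ∂μ| ≤
      Real.sqrt (∫ z, (f (T k z) - f (S z)) ^ 2 ∂μ) := by
    intro k
    have e1 : ∫ z, f z ∂μ = ∫ z, f (T k z) ∂μ := by
      conv_lhs => rw [← (hT k).map_eq]
      rw [integral_map (hT k).measurable.aemeasurable
        f.continuous.measurable.aestronglyMeasurable]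
    have i1 : Integrable (fun z => f (S z)) μ :=
      Integrable.of_bound (f.continuous.measurable.comp hS).aestronglyMeasurable ‖f‖
        (ae_of_all _ fun z => f.norm_coe_le_norm _)
    have i2 : Integrable (fun z => f (T k z)) μ :=
      Integrable.of_bound (f.continuous.measurable.comp (hT k).measurable).aestronglyMeasurable ‖f‖
        (ae_of_all _ fun z => f.norm_coe_le_norm _)
    rw [e1, ← integral_sub i1 i2]
    apply Real.le_sqrt_of_sq_le
    rw [sq_abs]
    have hj := ConvexOn.map_integral_le (μ := μ) (f := fun z => f (S z) - f (T k z))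
      (g := fun x : ℝ => x ^ 2) (s := Set.univ) (Even.convexOn_pow (by decide))
      (by fun_prop) isClosed_univ (ae_of_all _ fun z => Set.mem_univ _) (i1.sub i2) ?_
    · refine hj.trans (le_of_eq ?_)
      refine integral_congr_ae (ae_of_all _ fun z => ?_)
      simp only [Function.comp_apply]
      ring
    · have := int_sq (μ := μ) (⟨f, f.continuous⟩ : C(Z, ℝ)) hS (hT k).measurable
      exact this
  have h2 : Tendsto (fun k => Real.sqrt (∫ z, (f (T k z) - f (S z)) ^ 2 ∂μ)) atTop (𝓝 0) := by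
    have := (Real.continuous_sqrt.tendsto 0).comp hP
    rw [Real.sqrt_zero] at this
    exact this
  have h3 : |∫ z, f (S z) ∂μ - ∫ z, f z ∂μ| ≤ 0 := ge_of_tendsto' h2 h1
  have h4 := abs_nonpos_iff.1 h3
  exact sub_eq_zero.1 h4

end

theorem int_comp {μ : Measure Z} {T : Z → Z} (hT : MeasurePreserving T μ μ) (f : Z → ℝ)
    (hf : Measurable f) : ∫ z, f (T z) ∂μ = ∫ z, f z ∂μ := by
  conv_rhs => rw [← hT.map_eq]
  rw [integral_map hT.measurable.aemeasurable hf.aestronglyMeasurable]

theorem main : S_BA1 := by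
  intro μ _ T S hT hS hco
  have hco' : ∀ a, P μ T S (co a) := hco
  have hSm := mp_S hT hS hco'
  refine ⟨hSm, fun F hF hF2 => ?_⟩
  rw [Metric.tendsto_atTop]
  intro ε hε
  have hF2' : MemLp F (ENNReal.ofReal 2) μ := by
    rw [show ENNReal.ofReal 2 = 2 by simp]; exact hF2
  obtain ⟨G, hG1, hG2⟩ := hF2'.exists_boundedContinuous_integral_rpow_sub_le (by norm_num)
    (ε := ε / 12) (by positivity)
  rw [show ENNReal.ofReal 2 = 2 by simp] at hG2
  have hG1' : ∫ z, (F z - G z) ^ 2 ∂μ ≤ ε / 12 := by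
    refine le_trans (le_of_eq ?_) hG1
    refine integral_congr_ae (ae_of_all _ fun z => ?_)
    simp only [Real.rpow_two, Real.norm_eq_abs, sq_abs]
  have hGm : Measurable G := G.continuous.measurable
  have hP := P_cont (fun k => (hT k).measurable) hS hco' ⟨G, G.continuous⟩
  unfold P at hP
  rw [Metric.tendsto_atTop] at hP
  obtain ⟨N, hN⟩ := hP (ε / 12) (by positivity)
  refine ⟨N, fun k hk => ?_⟩
  have h1 := hN k hk
  rw [Real.dist_eq, sub_zero, abs_of_nonneg (int_nonneg _ _ _)] at h1 ⊢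
  have hFG : MemLp (fun z => F z - G z) 2 μ := hF2.sub hG2
  have ia : Integrable (fun z => (F (T k z) - G (T k z)) ^ 2) μ :=
    (hFG.comp_measurePreserving (hT k)).integrable_sq
  have ib : Integrable (fun z => (F (S z) - G (S z)) ^ 2) μ :=
    (hFG.comp_measurePreserving hSm).integrable_sq
  have ic : Integrable (fun z => (G (T k z) - G (S z)) ^ 2) μ :=
    int_sq (μ := μ) (⟨G, G.continuous⟩ : C(Z, ℝ)) (hT k).measurable hS
  have h2 : ∫ z, (F (T k z) - F (S z)) ^ 2 ∂μ ≤
      ∫ z, (3 * (F (T k z) - G (T k z)) ^ 2 + 3 * (G (T k z) - G (S z)) ^ 2 +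
        3 * (F (S z) - G (S z)) ^ 2) ∂μ := by
    refine integral_mono_of_nonneg (ae_of_all _ fun z => sq_nonneg _)
      (((ia.const_mul 3).add (ic.const_mul 3)).add (ib.const_mul 3)) (ae_of_all _ fun z => ?_)
    simp only []
    nlinarith [sq_nonneg ((F (T k z) - G (T k z)) - (G (T k z) - G (S z))),
      sq_nonneg ((F (T k z) - G (T k z)) + (F (S z) - G (S z))),
      sq_nonneg ((G (T k z) - G (S z)) + (F (S z) - G (S z)))]
  have hab : Integrable (fun z => 3 * (F (T k z) - G (T k z)) ^ 2 +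
      3 * (G (T k z) - G (S z)) ^ 2) μ := (ia.const_mul 3).add (ic.const_mul 3)
  rw [integral_add hab (ib.const_mul 3),
    integral_add (ia.const_mul 3) (ic.const_mul 3), integral_const_mul, integral_const_mul,
    integral_const_mul, int_comp (hT k) (fun z => (F z - G z) ^ 2) ((hF.sub hGm).pow_const 2),
    int_comp hSm (fun z => (F z - G z) ^ 2) ((hF.sub hGm).pow_const 2)] at h2
  have h3 : ∫ z, (G (T k z) - G (S z)) ^ 2 ∂μ < ε / 12 := h1
  linarith

end Pool.Agent.R924.SM.BA1
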