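import Pool.Agent.R924.SM.Stm

/-!
BAIRE (MP_2967d5_an): the space of extensions is a Baire space. helper710.
-/

open MeasureTheory Set Filter Topology

set_option autoImplicit false

namespace Pool.Agent.R924.SM.BAIRE

open scoped Uniformity

/-- a space with an inducing map with closed range to a complete space is a Baire space -/
theorem baire_of_inducing {X W : Type*} [tX : TopologicalSpace X] [UniformSpace W]
    [CompleteSpace W] [(𝓤 W).IsCountablyGenerated] (f : X → W) (hf : IsInducing f)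
    (hc : IsClosed (range f)) : BaireSpace X := by
  obtain rfl := hf.eq_induced
  let uX : UniformSpace X := UniformSpace.comap f inferInstance
  have : (𝓤 X).IsCountablyGenerated := by
    change ((𝓤 W).comap _).IsCountablyGenerated
    infer_instance
  have : CompleteSpace X := by
    rw [completeSpace_iff_isComplete_range (f := f) ⟨rfl⟩]
    exact hc.isComplete
  let _ := UniformSpace.pseudoMetricSpace X
  exact (inferInstance : BaireSpace X)

theorem measurable_co (a : ℤ ⊕ ℤ) : Measurable (co a) := by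
  rcases a with i | i
  · exact measurable_subtype_coe.comp ((measurable_pi_apply i).comp measurable_fst)
  · exact measurable_subtype_coe.comp ((measurable_pi_apply i).comp measurable_snd)

theorem co_mem (a : ℤ ⊕ ℤ) (z : XX × XX) : co a z ∈ Icc (0 : ℝ) 1 := by
  rcases a with i | i
  · exact (z.1 i).2
  · exact (z.2 i).2

variable {μ : Measure (XX × XX)} [IsProbabilityMeasure μ]

theorem memLp_co (T : XX × XX → XX × XX) (hT : Measurable T) (a : ℤ ⊕ ℤ) :
    MemLp (fun z => co a (T z)) 2 μ := by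
  apply MemLp.of_bound ((measurable_co a).comp hT).aestronglyMeasurable 1
  refine ae_of_all _ fun z => ?_
  change ‖co a (T z)‖ ≤ 1
  rw [Real.norm_eq_abs, abs_of_nonneg (co_mem a _).1]
  exact (co_mem a _).2

theorem normsq (h : Lp ℝ 2 μ) : ‖h‖ ^ 2 = ∫ z, (h z) ^ 2 ∂μ := by
  rw [← real_inner_self_eq_norm_sq, L2.inner_def]
  refine integral_congr_ae (ae_of_all _ fun z => ?_)
  simp only [real_inner_self_eq_norm_sq, Real.norm_eq_abs, sq_abs]

theorem normsq_sub (f g : Lp ℝ 2 μ) (F G : XX × XX → ℝ) (hf : f =ᵐ[μ] F) (hg : g =ᵐ[μ] G) :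
    ‖f - g‖ ^ 2 = ∫ z, (F z - G z) ^ 2 ∂μ := by
  rw [normsq]
  refine integral_congr_ae ?_
  filter_upwards [Lp.coeFn_sub f g, hf, hg] with z h1 h2 h3
  rw [h1, Pi.sub_apply, h2, h3]

theorem tendsto_iff (f : ℕ → Lp ℝ 2 μ) (g : Lp ℝ 2 μ) (F : ℕ → XX × XX → ℝ) (G : XX × XX → ℝ)
    (hf : ∀ k, f k =ᵐ[μ] F k) (hg : g =ᵐ[μ] G) :
    Tendsto f atTop (𝓝 g) ↔ Tendsto (fun k => ∫ z, (F k z - G z) ^ 2 ∂μ) atTop (𝓝 0) := by
  rw [tendsto_iff_norm_sub_tendsto_zero]
  have h : ∀ k, ∫ z, (F k z - G z) ^ 2 ∂μ = ‖f k - g‖ ^ 2 := fun k =>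
    (normsq_sub _ _ _ _ (hf k) hg).symm
  simp only [h]
  constructor
  · intro ht
    have := ht.pow 2
    simpa using this
  · intro ht
    have := ht.sqrt
    simp only [Real.sqrt_zero] at this
    refine this.congr fun k => ?_
    exact Real.sqrt_sq (norm_nonneg _)

/-- squeeze: if `∫ (F - H k)² → 0` and `∫ (H k - G)² → 0` then `F = G` a.e. -/
theorem ae_eq_of_tendsto (F G : XX × XX → ℝ) (H : ℕ → XX × XX → ℝ) (hF : MemLp F 2 μ)
    (hG : MemLp G 2 μ) (hH : ∀ k, MemLp (H k) 2 μ)
    (h1 : Tendsto (fun k => ∫ z, (H k z - F z) ^ 2 ∂μ) atTop (𝓝 0))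
    (h2 : Tendsto (fun k => ∫ z, (H k z - G z) ^ 2 ∂μ) atTop (𝓝 0)) : F =ᵐ[μ] G := by
  have t1 := (tendsto_iff (fun k => (hH k).toLp (H k)) (hF.toLp F) H F
    (fun k => (hH k).coeFn_toLp) hF.coeFn_toLp).2 h1
  have t2 := (tendsto_iff (fun k => (hH k).toLp (H k)) (hG.toLp G) H G
    (fun k => (hH k).coeFn_toLp) hG.coeFn_toLp).2 h2
  have := tendsto_nhds_unique t1 t2
  exact (hF.toLp_eq_toLp_iff hG).1 this

section code

variable {m η : Measure XX} [IsProbabilityMeasure m] [IsProbabilityMeasure η]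

/-- the target of the code -/
abbrev W (m η : Measure XX) : Type :=
  (ℤ ⊕ ℤ → Lp ℝ 2 (m.prod η)) × (ℤ ⊕ ℤ → Lp ℝ 2 (m.prod η))

/-- the underlying transformation -/
def val {R : MPT m} (T : GR η R) : MPT (m.prod η) := T.1

theorem ind_val {R : MPT m} : IsInducing (val : GR η R → MPT (m.prod η)) :=
  IsInducing.subtypeVal

/-- the code of an extension -/
noncomputable def code {R : MPT m} (T : GR η R) : W m η :=
  (fun a => (memLp_co (val T).fwd (val T).mp.measurable a).toLp _,
    fun a => (memLp_co (val T).bwd (val T).mp'.measurable a).toLp _)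

theorem code_fst {R : MPT m} (T : GR η R) (a : ℤ ⊕ ℤ) :
    ((code T).1 a : XX × XX → ℝ) =ᵐ[m.prod η] fun z => co a ((val T).fwd z) :=
  MemLp.coeFn_toLp (memLp_co (val T).fwd (val T).mp.measurable a)

theorem code_snd {R : MPT m} (T : GR η R) (a : ℤ ⊕ ℤ) :
    ((code T).2 a : XX × XX → ℝ) =ᵐ[m.prod η] fun z => co a ((val T).bwd z) :=
  MemLp.coeFn_toLp (memLp_co (val T).bwd (val T).mp'.measurable a)

theorem code_tendsto {R : MPT m} (x : ℕ → GR η R) (p : W m η) (G H : ℤ ⊕ ℤ → XX × XX → ℝ)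
    (hG : ∀ a, (p.1 a : XX × XX → ℝ) =ᵐ[m.prod η] G a)
    (hH : ∀ a, (p.2 a : XX × XX → ℝ) =ᵐ[m.prod η] H a) :
    Tendsto (fun k => code (x k)) atTop (𝓝 p) ↔
      (∀ a, Tendsto (fun k => ∫ z, (co a ((val (x k)).fwd z) - G a z) ^ 2 ∂(m.prod η)) atTop (𝓝 0)) ∧
      ∀ a, Tendsto (fun k => ∫ z, (co a ((val (x k)).bwd z) - H a z) ^ 2 ∂(m.prod η)) atTop (𝓝 0) := by
  rw [Prod.tendsto_iff, tendsto_pi_nhds, tendsto_pi_nhds]
  refine and_congr (forall_congr' fun a => ?_) (forall_congr' fun a => ?_)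
  · exact tendsto_iff _ _ (fun k z => co a ((val (x k)).fwd z)) (G a)
      (fun k => code_fst (x k) a) (hG a)
  · exact tendsto_iff _ _ (fun k z => co a ((val (x k)).bwd z)) (H a)
      (fun k => code_snd (x k) a) (hH a)

theorem code_cont (h1 : S_CONT) {R : MPT m} : Continuous (code : GR η R → W m η) := by
  rw [continuous_iff_continuousAt]
  intro T₀
  have hval : Tendsto (val : GR η R → MPT (m.prod η)) (𝓝 T₀) (𝓝 (val T₀)) :=
    ind_val.continuous.tendsto T₀
  unfold ContinuousAt
  rw [Prod.tendsto_iff, tendsto_pi_nhds, tendsto_pi_nhds]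
  constructor
  · intro a
    rw [Metric.tendsto_nhds]
    intro ε hε
    have h := (h1 (XX × XX) (m.prod η) (val T₀) (co a) (measurable_co a)
      (memLp_co id measurable_id a) 1 (ε ^ 2) (by positivity)).1
    filter_upwards [hval h] with T hT
    rw [dist_eq_norm]
    apply lt_of_pow_lt_pow_left₀ 2 hε.le
    rw [normsq_sub _ _ (fun z => co a ((val T).fwd z)) (fun z => co a ((val T₀).fwd z))
      (code_fst T a) (code_fst T₀ a)]
    exact hT
  · intro a
    rw [Metric.tendsto_nhds]
    intro ε hε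
    have h := (h1 (XX × XX) (m.prod η) (val T₀) (co a) (measurable_co a)
      (memLp_co id measurable_id a) 1 (ε ^ 2) (by positivity)).2
    filter_upwards [hval h] with T hT
    rw [dist_eq_norm]
    apply lt_of_pow_lt_pow_left₀ 2 hε.le
    rw [normsq_sub _ _ (fun z => co a ((val T).bwd z)) (fun z => co a ((val T₀).bwd z))
      (code_snd T a) (code_snd T₀ a)]
    exact hT

theorem ind_sq (A B : Set (XX × XX)) (hA : MeasurableSet A) (hB : MeasurableSet B) :
    ∫ z, (A.indicator (1 : XX × XX → ℝ) z - B.indicator (1 : XX × XX → ℝ) z) ^ 2 ∂μ =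
      μ.real (symmDiff A B) := by
  have h : ∀ z, (A.indicator (1 : XX × XX → ℝ) z - B.indicator (1 : XX × XX → ℝ) z) ^ 2 =
      (symmDiff A B).indicator (1 : XX × XX → ℝ) z := by
    intro z
    by_cases h1 : z ∈ A <;> by_cases h2 : z ∈ B <;>
      simp [Set.indicator, h1, h2, Set.mem_symmDiff]
  simp only [h]
  rw [integral_indicator_one (hA.symmDiff hB)]

theorem code_inducing (h1 : S_CONT) (h2 : S_BA1) {R : MPT m} :
    IsInducing (code : GR η R → W m η) := by
  rw [isInducing_iff_nhds]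
  intro T₀
  apply le_antisymm
  · exact ((code_cont h1).tendsto T₀).le_comap
  · have : Tendsto (id : GR η R → GR η R) (comap code (𝓝 (code T₀))) (𝓝 T₀) := by
      rw [tendsto_iff_seq_tendsto]
      intro x hx
      rw [tendsto_comap_iff] at hx
      rw [Function.id_comp, ind_val.tendsto_nhds_iff]
      rw [TopologicalSpace.tendsto_nhds_generateFrom_iff]
      rintro s ⟨T₁, E, ε, hE, hε, rfl⟩ hs
      have hc := (code_tendsto x (code T₀) (fun a z => co a ((val T₀).fwd z))
        (fun a z => co a ((val T₀).bwd z)) (fun a => code_fst T₀ a)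
        (fun a => code_snd T₀ a)).1 hx
      have hb := (h2 (m.prod η) (fun k => (val (x k)).bwd) (val T₀).bwd
        (fun k => (val (x k)).mp') (val T₀).mp'.measurable hc.2).2 (E.indicator 1)
        (measurable_one.indicator hE) (by
          apply MemLp.of_bound (measurable_one.indicator hE).aestronglyMeasurable 1
          refine ae_of_all _ fun z => ?_
          by_cases hz : z ∈ E <;> simp [Set.indicator, hz])
      have hb' : Tendsto (fun k => (m.prod η).real
          (symmDiff ((val (x k)).bwd ⁻¹' E) ((val T₀).bwd ⁻¹' E))) atTop (𝓝 0) := by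
        refine hb.congr fun k => ?_
        exact ind_sq _ _ ((val (x k)).mp'.measurable hE) ((val T₀).mp'.measurable hE)
      have hb2 : Tendsto (fun k => (m.prod η)
          (symmDiff ((val T₀).bwd ⁻¹' E) ((val (x k)).bwd ⁻¹' E))) atTop (𝓝 0) := by
        have h3 := ENNReal.tendsto_ofReal hb'
        rw [ENNReal.ofReal_zero] at h3
        refine h3.congr fun k => ?_
        rw [ofReal_measureReal, symmDiff_comm]
      have hs' : (m.prod η) (symmDiff (T₁.bwd ⁻¹' E) ((val T₀).bwd ⁻¹' E)) < ε := hs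
      have hgap : 0 < ε - (m.prod η) (symmDiff (T₁.bwd ⁻¹' E) ((val T₀).bwd ⁻¹' E)) :=
        tsub_pos_of_lt hs'
      filter_upwards [hb2.eventually_lt_const hgap] with k hk
      change (m.prod η) (symmDiff (T₁.bwd ⁻¹' E) ((val (x k)).bwd ⁻¹' E)) < ε
      calc (m.prod η) (symmDiff (T₁.bwd ⁻¹' E) ((val (x k)).bwd ⁻¹' E))
          ≤ (m.prod η) (symmDiff (T₁.bwd ⁻¹' E) ((val T₀).bwd ⁻¹' E)) +
            (m.prod η) (symmDiff ((val T₀).bwd ⁻¹' E) ((val (x k)).bwd ⁻¹' E)) :=
            measure_symmDiff_le _ _ _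
        _ < ε := by
            have h5 := ENNReal.add_lt_add_left (measure_ne_top (m.prod η)
              (symmDiff (T₁.bwd ⁻¹' E) ((val T₀).bwd ⁻¹' E))) hk
            rwa [add_tsub_cancel_of_le hs'.le] at h5
    have h3 := this
    rw [Tendsto, map_id] at h3
    exact h3

/-- the point with given coordinates -/
noncomputable def pt (u : ℤ ⊕ ℤ → Lp ℝ 2 (m.prod η)) (z : XX × XX) : XX × XX :=
  (fun i => projIcc (0 : ℝ) 1 zero_le_one (u (Sum.inl i) z),
    fun i => projIcc (0 : ℝ) 1 zero_le_one (u (Sum.inr i) z))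

theorem measurable_pt (u : ℤ ⊕ ℤ → Lp ℝ 2 (m.prod η)) : Measurable (pt u) := by
  have hp : Measurable (projIcc (0 : ℝ) 1 zero_le_one) := continuous_projIcc.measurable
  apply Measurable.prodMk
  · exact measurable_pi_lambda _ fun i => hp.comp (Lp.stronglyMeasurable _).measurable
  · exact measurable_pi_lambda _ fun i => hp.comp (Lp.stronglyMeasurable _).measurable

theorem co_pt (u : ℤ ⊕ ℤ → Lp ℝ 2 (m.prod η)) (a : ℤ ⊕ ℤ) (z : XX × XX) :
    co a (pt u z) = max 0 (min 1 (u a z)) := by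
  rcases a with i | i
  · exact coe_projIcc (0 : ℝ) 1 zero_le_one _
  · exact coe_projIcc (0 : ℝ) 1 zero_le_one _

theorem proj_lip (c x : ℝ) (hc : c ∈ Icc (0 : ℝ) 1) : (c - max 0 (min 1 x)) ^ 2 ≤ (c - x) ^ 2 := by
  obtain ⟨h0, h1⟩ := hc
  rcases le_total x 0 with h | h
  · rw [min_eq_right (h.trans zero_le_one), max_eq_left h]
    nlinarith
  · rcases le_total x 1 with h' | h'
    · rw [min_eq_right h', max_eq_right h]
    · rw [min_eq_left h', max_eq_right zero_le_one]
      nlinarith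

theorem tendsto_pt (T : ℕ → XX × XX → XX × XX) (hT : ∀ k, Measurable (T k))
    (u : ℤ ⊕ ℤ → Lp ℝ 2 (m.prod η)) (a : ℤ ⊕ ℤ)
    (h : Tendsto (fun k => ∫ z, (co a (T k z) - u a z) ^ 2 ∂(m.prod η)) atTop (𝓝 0)) :
    Tendsto (fun k => ∫ z, (co a (T k z) - co a (pt u z)) ^ 2 ∂(m.prod η)) atTop (𝓝 0) := by
  refine squeeze_zero (fun k => integral_nonneg fun z => sq_nonneg _) (fun k => ?_) h
  apply integral_mono
  · exact ((memLp_co (T k) (hT k) a).sub (memLp_co (pt u) (measurable_pt u) a)).integrable_sq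
  · exact ((memLp_co (T k) (hT k) a).sub (Lp.memLp (u a))).integrable_sq
  · intro z
    change (co a (T k z) - co a (pt u z)) ^ 2 ≤ (co a (T k z) - u a z) ^ 2
    rw [co_pt]
    exact proj_lip _ _ (co_mem a _)

theorem ae_all_co (S S' : XX × XX → XX × XX)
    (h : ∀ a, (fun z => co a (S z)) =ᵐ[m.prod η] fun z => co a (S' z)) :
    ∀ᵐ z ∂(m.prod η), S z = S' z := by
  have h' : ∀ᵐ z ∂(m.prod η), ∀ a, co a (S z) = co a (S' z) := ae_all_iff.2 h
  filter_upwards [h'] with z hz
  refine Prod.ext (funext fun i => ?_) (funext fun i => ?_)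
  · exact Subtype.ext (hz (Sum.inl i))
  · exact Subtype.ext (hz (Sum.inr i))

/-- the inverse relation in the limit -/
theorem inv_limit (h2 : S_BA1) (f b : ℕ → XX × XX → XX × XX) (S S' : XX × XX → XX × XX)
    (hf : ∀ k, MeasurePreserving (f k) (m.prod η) (m.prod η))
    (hb : ∀ k, MeasurePreserving (b k) (m.prod η) (m.prod η))
    (hbf : ∀ k, ∀ᵐ z ∂(m.prod η), b k (f k z) = z)
    (hS : Measurable S) (hS' : Measurable S')
    (hfS : ∀ a, Tendsto (fun k => ∫ z, (co a (f k z) - co a (S z)) ^ 2 ∂(m.prod η)) atTop (𝓝 0))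
    (hbS : ∀ a, Tendsto (fun k => ∫ z, (co a (b k z) - co a (S' z)) ^ 2 ∂(m.prod η)) atTop (𝓝 0)) :
    ∀ᵐ z ∂(m.prod η), S' (S z) = z := by
  apply ae_all_co (fun z => S' (S z)) id
  intro a
  have hG : Measurable fun z => co a (S' z) := (measurable_co a).comp hS'
  have hGm : MemLp (fun z => co a (S' z)) 2 (m.prod η) := memLp_co S' hS' a
  have h3 := (h2 (m.prod η) f S hf hS hfS).2 _ hG hGm
  have h4 : Tendsto (fun k => ∫ z, (co a (S' (f k z)) - co a z) ^ 2 ∂(m.prod η)) atTop (𝓝 0) := by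
    have h5 : ∀ k, ∫ z, (co a (S' (f k z)) - co a z) ^ 2 ∂(m.prod η) =
        ∫ z, (co a (b k z) - co a (S' z)) ^ 2 ∂(m.prod η) := by
      intro k
      have hmeas : Measurable fun z => (co a (b k z) - co a (S' z)) ^ 2 :=
        (((measurable_co a).comp (hb k).measurable).sub hG).pow_const 2
      have h6 := (hf k).map_eq
      conv_rhs => rw [← h6]
      rw [integral_map (hf k).measurable.aemeasurable hmeas.aestronglyMeasurable]
      refine integral_congr_ae ?_
      filter_upwards [hbf k] with z hz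
      rw [hz]
      ring
    simp only [h5]
    exact hbS a
  exact ae_eq_of_tendsto (fun z => co a (S' (S z))) (fun z => co a z)
    (fun k z => co a (S' (f k z))) (memLp_co (fun z => S' (S z)) (hS'.comp hS) a)
    (memLp_co id measurable_id a)
    (fun k => memLp_co (fun z => S' (f k z)) (hS'.comp (hf k).measurable) a) h3 h4

theorem closed_range (h2 : S_BA1) {R : MPT m} : IsClosed (range (code : GR η R → W m η)) := by
  apply IsSeqClosed.isClosed
  intro x p hx hp
  choose T hT using hx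
  have hx' : Tendsto (fun k => code (T k)) atTop (𝓝 p) := by
    refine hp.congr fun k => ?_
    exact (hT k).symm
  obtain ⟨c1, c2⟩ := (code_tendsto T p (fun a => p.1 a) (fun a => p.2 a)
    (fun a => Filter.EventuallyEq.rfl) (fun a => Filter.EventuallyEq.rfl)).1 hx'
  set S := pt p.1 with hS
  set S' := pt p.2 with hS'
  have mS : Measurable S := measurable_pt _
  have mS' : Measurable S' := measurable_pt _
  have e1 : ∀ a, Tendsto (fun k => ∫ z, (co a ((val (T k)).fwd z) - co a (S z)) ^ 2 ∂(m.prod η))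
      atTop (𝓝 0) := fun a => tendsto_pt _ (fun k => (val (T k)).mp.measurable) _ a (c1 a)
  have e2 : ∀ a, Tendsto (fun k => ∫ z, (co a ((val (T k)).bwd z) - co a (S' z)) ^ 2 ∂(m.prod η))
      atTop (𝓝 0) := fun a => tendsto_pt _ (fun k => (val (T k)).mp'.measurable) _ a (c2 a)
  have pS := (h2 (m.prod η) (fun k => (val (T k)).fwd) S (fun k => (val (T k)).mp) mS e1).1
  have pS' := (h2 (m.prod η) (fun k => (val (T k)).bwd) S' (fun k => (val (T k)).mp') mS' e2).1
  have i1 : ∀ᵐ z ∂(m.prod η), S' (S z) = z :=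
    inv_limit h2 (fun k => (val (T k)).fwd) (fun k => (val (T k)).bwd) S S'
      (fun k => (val (T k)).mp) (fun k => (val (T k)).mp') (fun k => (val (T k)).bf) mS mS' e1 e2
  have i2 : ∀ᵐ z ∂(m.prod η), S (S' z) = z :=
    inv_limit h2 (fun k => (val (T k)).bwd) (fun k => (val (T k)).fwd) S' S
      (fun k => (val (T k)).mp') (fun k => (val (T k)).mp) (fun k => (val (T k)).fb) mS' mS e2 e1
  have hext : ∀ᵐ z ∂(m.prod η), (S z).1 = R.fwd z.1 := by
    have h3 : ∀ i : ℤ, ∀ᵐ z ∂(m.prod η), ((S z).1 i : ℝ) = (R.fwd z.1 i : ℝ) := by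
      intro i
      have hmR : Measurable fun z : XX × XX => (R.fwd z.1, z.2) :=
        (R.mp.measurable.comp measurable_fst).prodMk measurable_snd
      refine ae_eq_of_tendsto (fun z => co (Sum.inl i) (S z))
        (fun z => co (Sum.inl i) (R.fwd z.1, z.2)) (fun k z => co (Sum.inl i) ((val (T k)).fwd z))
        (memLp_co S mS _) (memLp_co _ hmR _)
        (fun k => memLp_co _ (val (T k)).mp.measurable _) (e1 (Sum.inl i)) ?_
      have h4 : ∀ k, ∫ z, (co (Sum.inl i) ((val (T k)).fwd z) -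
          co (Sum.inl i) (R.fwd z.1, z.2)) ^ 2 ∂(m.prod η) = 0 := by
        intro k
        have h5 : Ext R (val (T k)) := (T k).2
        rw [← integral_zero (XX × XX) ℝ]
        refine integral_congr_ae ?_
        filter_upwards [h5] with z hz
        have : co (Sum.inl i) ((val (T k)).fwd z) = co (Sum.inl i) (R.fwd z.1, z.2) := by
          change (((val (T k)).fwd z).1 i : ℝ) = (R.fwd z.1 i : ℝ)
          rw [hz]
        rw [this, sub_self]
        simp
      simp only [h4]
      exact tendsto_const_nhds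
    filter_upwards [ae_all_iff.2 h3] with z hz
    funext i
    exact Subtype.ext (hz i)
  let T' : MPT (m.prod η) := ⟨S, S', pS, pS', i1, i2⟩
  refine ⟨(⟨T', hext⟩ : {T : MPT (m.prod η) // Ext R T}), ?_⟩
  have hfin : Tendsto (fun k => code (T k)) atTop
      (𝓝 (code (R := R) (⟨T', hext⟩ : {T : MPT (m.prod η) // Ext R T}))) := by
    refine (code_tendsto T _ (fun a z => co a (S z)) (fun a z => co a (S' z))
      (fun a => ?_) (fun a => ?_)).2 ⟨e1, e2⟩
    · exact code_fst (R := R) (⟨T', hext⟩ : {T : MPT (m.prod η) // Ext R T}) a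
    · exact code_snd (R := R) (⟨T', hext⟩ : {T : MPT (m.prod η) // Ext R T}) a
  exact tendsto_nhds_unique hfin hx'

end code

theorem main (h1 : S_CONT) (h2 : S_BA1) : S_BAIRE := by
  intro m η _ _ R
  exact baire_of_inducing (code : GR η R → W m η) (code_inducing h1 h2) (closed_range h2)

end Pool.Agent.R924.SM.BAIRE
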