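import Pool.Agent.R924.SM.Stm

/-!
CE: equivariance of the fibre integrals.
-/

open MeasureTheory Set Filter Topology

set_option autoImplicit false

namespace Pool.Agent.R924.SM.CE

theorem main : S_CE := by
  intro X Y _ _ m η _ _ R T hExt F hF
  have hFT : Integrable (fun z => F (T.fwd z)) (m.prod η) :=
    T.mp.integrable_comp_of_integrable hF
  have hG : Integrable (fun x => ∫ y, F (x, y) ∂η) m := hF.integral_prod_left
  have hGR : Integrable (fun x => ∫ y, F (R.fwd x, y) ∂η) m :=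
    R.mp.integrable_comp_of_integrable hG
  have hL : Integrable (fun x => ∫ y, F (T.fwd (x, y)) ∂η) m := hFT.integral_prod_left
  refine Integrable.ae_eq_of_forall_setIntegral_eq _ _ hL hGR ?_
  intro D hD _
  have hD' : MeasurableSet (R.bwd ⁻¹' D) := R.mp'.measurable hD
  -- membership facts
  have hmem : ∀ᵐ x ∂m, (x ∈ D ↔ R.fwd x ∈ R.bwd ⁻¹' D) := by
    filter_upwards [R.bf] with x hx
    simp only [mem_preimage, hx]
  have hmem2 : ∀ᵐ z ∂(m.prod η), (z.1 ∈ D ↔ (T.fwd z).1 ∈ R.bwd ⁻¹' D) := by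
    have h1 : ∀ᵐ z ∂(m.prod η), (z.1 ∈ D ↔ R.fwd z.1 ∈ R.bwd ⁻¹' D) :=
      (Measure.quasiMeasurePreserving_fst (μ := m) (ν := η)).ae hmem
    filter_upwards [h1, hExt] with z h1 h2
    rw [h2]; exact h1
  -- left-hand side
  have e1 : ∫ x in D, (∫ y, F (T.fwd (x, y)) ∂η) ∂m
      = ∫ z in D ×ˢ univ, F (T.fwd z) ∂(m.prod η) := by
    rw [setIntegral_prod _ hFT.integrableOn]
    simp
  have e2 : ∫ z in D ×ˢ univ, F (T.fwd z) ∂(m.prod η)
      = ∫ z in T.fwd ⁻¹' ((R.bwd ⁻¹' D) ×ˢ univ), F (T.fwd z) ∂(m.prod η) := by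
    apply setIntegral_congr_set
    filter_upwards [hmem2] with z hz
    apply propext
    show z ∈ D ×ˢ univ ↔ z ∈ T.fwd ⁻¹' ((R.bwd ⁻¹' D) ×ˢ univ)
    simp only [mem_prod, mem_univ, and_true, mem_preimage]
    exact hz
  have hmeas : MeasurableSet ((R.bwd ⁻¹' D) ×ˢ (univ : Set Y)) := hD'.prod MeasurableSet.univ
  have e3 : ∫ z in T.fwd ⁻¹' ((R.bwd ⁻¹' D) ×ˢ univ), F (T.fwd z) ∂(m.prod η)
      = ∫ z in (R.bwd ⁻¹' D) ×ˢ univ, F z ∂(m.prod η) := by
    have hae : AEStronglyMeasurable F ((m.prod η).restrict ((R.bwd ⁻¹' D) ×ˢ univ)) :=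
      hF.aestronglyMeasurable.restrict
    have hmap : Measure.map T.fwd ((m.prod η).restrict (T.fwd ⁻¹' ((R.bwd ⁻¹' D) ×ˢ univ)))
        = (m.prod η).restrict ((R.bwd ⁻¹' D) ×ˢ univ) := by
      rw [← Measure.restrict_map T.mp.measurable hmeas, T.mp.map_eq]
    rw [← hmap, integral_map T.mp.measurable.aemeasurable (by rw [hmap]; exact hae)]
  have e4 : ∫ z in (R.bwd ⁻¹' D) ×ˢ univ, F z ∂(m.prod η)
      = ∫ x in R.bwd ⁻¹' D, (∫ y, F (x, y) ∂η) ∂m := by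
    rw [setIntegral_prod _ hF.integrableOn]
    simp
  have e5 : ∫ x in R.bwd ⁻¹' D, (∫ y, F (x, y) ∂η) ∂m
      = ∫ x in R.fwd ⁻¹' (R.bwd ⁻¹' D), (∫ y, F (R.fwd x, y) ∂η) ∂m := by
    have hae : AEStronglyMeasurable (fun x => ∫ y, F (x, y) ∂η) (m.restrict (R.bwd ⁻¹' D)) :=
      hG.aestronglyMeasurable.restrict
    have hmap : Measure.map R.fwd (m.restrict (R.fwd ⁻¹' (R.bwd ⁻¹' D)))
        = m.restrict (R.bwd ⁻¹' D) := by
      rw [← Measure.restrict_map R.mp.measurable hD', R.mp.map_eq]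
    rw [← hmap, integral_map R.mp.measurable.aemeasurable (by rw [hmap]; exact hae)]
  have e6 : ∫ x in R.fwd ⁻¹' (R.bwd ⁻¹' D), (∫ y, F (R.fwd x, y) ∂η) ∂m
      = ∫ x in D, (∫ y, F (R.fwd x, y) ∂η) ∂m := by
    apply setIntegral_congr_set
    filter_upwards [hmem] with x hx
    apply propext
    exact hx.symm
  rw [e1, e2, e3, e4, e5, e6]

end Pool.Agent.R924.SM.CE
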