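import Pool.Agent.R924.SM.Stm

/-! MP_2967d5_an, piece SM-COB. -/

open MeasureTheory Set Filter Topology

set_option autoImplicit false

namespace Pool.Agent.R924.SM.COB

/-- markers -/
def Pm (q : unitInterval) (t : ℕ) (x : XX) : Prop := x (-(t : ℤ)) < q

theorem meas_Pm (q : unitInterval) (t : ℕ) : MeasurableSet {x : XX | Pm q t x} :=
  measurableSet_lt (measurable_pi_apply _) measurable_const

theorem exP (q : unitInterval) (x : XX) : ∃ t : ℕ, Pm q t x ∨ ∀ s, ¬ Pm q s x := by
  by_cases h : ∃ s, Pm q s x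
  · obtain ⟨s, hs⟩ := h
    exact ⟨s, Or.inl hs⟩
  · push Not at h
    exact ⟨0, Or.inr h⟩

open Classical in
/-- time since the last marker -/
noncomputable def tau (q : unitInterval) (x : XX) : ℕ := Nat.find (exP q x)

theorem meas_tau (q : unitInterval) : Measurable (tau q) := by
  classical
  unfold tau
  apply measurable_find
  intro k
  have h : {x : XX | Pm q k x ∨ ∀ s, ¬ Pm q s x} =
      {x : XX | Pm q k x} ∪ ⋂ s, {x : XX | Pm q s x}ᶜ := by
    ext x
    simp
  rw [h]
  exact (meas_Pm q k).union (MeasurableSet.iInter fun s => (meas_Pm q s).compl)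

theorem tau_sh (q : unitInterval) (x : XX) (h1 : ¬ x 1 < q) (h2 : ∃ s, Pm q s x) :
    tau q (sh x) = tau q x + 1 := by
  classical
  have hs := Nat.find_spec (exP q x)
  have hm : ∀ n < tau q x, ¬ (Pm q n x ∨ ∀ s, ¬ Pm q s x) := fun n hn => Nat.find_min (exP q x) hn
  have hPt : Pm q (tau q x) x := by
    rcases hs with h | h
    · exact h
    · obtain ⟨s, hs⟩ := h2
      exact (h s hs).elim
  have hshift : ∀ s, Pm q (s + 1) (sh x) ↔ Pm q s x := by
    intro s
    unfold Pm sh
    push_cast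
    rw [show -((s : ℤ) + 1) + 1 = -s by ring]
  have hgoal : Nat.find (exP q (sh x)) = tau q x + 1 := by
    rw [Nat.find_eq_iff]
    refine ⟨Or.inl ((hshift _).2 hPt), ?_⟩
    intro n hn
    rintro (h | h)
    · cases n with
      | zero =>
        apply h1
        unfold Pm sh at h
        simpa using h
      | succ n => exact hm n (by omega) (Or.inl ((hshift n).1 h))
    · exact h (tau q x + 1) ((hshift _).2 hPt)
  exact hgoal

theorem no_marker (q : unitInterval) (hq : 0 < q) : mm (⋂ s, {x : XX | Pm q s x}ᶜ) = 0 := by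
  have hle : ∀ n : ℕ, mm (⋂ s, {x : XX | Pm q s x}ᶜ) ≤ (ENNReal.ofReal (1 - q)) ^ n := by
    intro n
    have hsub : (⋂ s, {x : XX | Pm q s x}ᶜ) ⊆
        Set.pi ((Finset.Ioc (-(n : ℤ)) 0 : Finset ℤ) : Set ℤ) (fun _ => Ici q) := by
      intro x hx i hi
      rw [Finset.coe_Ioc, mem_Ioc] at hi
      rw [mem_iInter] at hx
      have h := hx (-i).toNat
      rw [mem_compl_iff, mem_setOf_eq] at h
      unfold Pm at h
      rw [Int.toNat_of_nonneg (by omega), neg_neg, not_lt] at h
      exact h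
    refine (measure_mono hsub).trans ?_
    unfold mm
    rw [Measure.infinitePi_pi _ (fun i _ => measurableSet_Ici)]
    rw [Finset.prod_const, unitInterval.volume_Ici]
    have hc : (Finset.Ioc (-(n : ℤ)) 0).card = n := by simp
    rw [hc]
  have hlt : ENNReal.ofReal (1 - q) < 1 := by
    rw [ENNReal.ofReal_lt_one]
    have : (0 : ℝ) < q := hq
    linarith
  have hlim := ENNReal.tendsto_pow_atTop_nhds_zero_of_lt_one hlt
  exact le_antisymm (ge_of_tendsto' hlim hle) zero_le

theorem prob (δ : ℝ) (hδ : 0 < δ) :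
    ∃ q : unitInterval, mm {x | tau q (sh x) ≠ tau q x + 1} < ENNReal.ofReal δ := by
  have hq0 : 0 < min (δ / 2) (1 / 2) := by positivity
  have hq1 : min (δ / 2) (1 / 2) ≤ 1 := (min_le_right _ _).trans (by norm_num)
  refine ⟨⟨min (δ / 2) (1 / 2), hq0.le, hq1⟩, ?_⟩
  set q : unitInterval := ⟨min (δ / 2) (1 / 2), hq0.le, hq1⟩ with hq
  have hqpos : 0 < q := hq0
  have hsub : {x | tau q (sh x) ≠ tau q x + 1} ⊆ (fun x : XX => x 1) ⁻¹' (Iio q) ∪
      ⋂ s, {x : XX | Pm q s x}ᶜ := by
    intro x hx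
    by_contra hcon
    rw [mem_union, not_or] at hcon
    apply hx
    apply tau_sh
    · exact hcon.1
    · have h2 := hcon.2
      rw [mem_iInter] at h2
      push Not at h2
      obtain ⟨s, hs⟩ := h2
      refine ⟨s, ?_⟩
      by_contra hn
      exact hs hn
  have h1 : mm ((fun x : XX => x 1) ⁻¹' (Iio q)) = ENNReal.ofReal q := by
    have hmp := measurePreserving_eval_infinitePi (fun _ : ℤ => (volume : Measure unitInterval)) 1
    have h2 := hmp.measure_preimage (measurableSet_Iio (a := q)).nullMeasurableSet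
    rw [unitInterval.volume_Iio] at h2
    exact h2
  calc mm {x | tau q (sh x) ≠ tau q x + 1}
      ≤ mm ((fun x : XX => x 1) ⁻¹' (Iio q) ∪ ⋂ s, {x : XX | Pm q s x}ᶜ) := measure_mono hsub
    _ ≤ mm ((fun x : XX => x 1) ⁻¹' (Iio q)) + mm (⋂ s, {x : XX | Pm q s x}ᶜ) :=
        measure_union_le _ _
    _ = ENNReal.ofReal q := by rw [h1, no_marker q hqpos, add_zero]
    _ < ENNReal.ofReal δ := by
        rw [ENNReal.ofReal_lt_ofReal_iff hδ]
        have : (q : ℝ) ≤ δ / 2 := min_le_left _ _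
        linarith

variable {Y : Type} [MeasurableSpace Y] {η : Measure Y}

/-- `sh⁻¹ × id` -/
noncomputable def PP (η : Measure Y) [IsProbabilityMeasure η] : MPT (mm.prod η) where
  fwd := Prod.map shi id
  bwd := Prod.map sh id
  mp := mp_shi.prod (MeasurePreserving.id η)
  mp' := mp_sh.prod (MeasurePreserving.id η)
  bf := Eventually.of_forall fun z => Prod.ext (sh_shi _) rfl
  fb := Eventually.of_forall fun z => Prod.ext (shi_sh _) rfl

theorem PP_fwd [IsProbabilityMeasure η] (t : ℕ) (w : XX × Y) :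
    (PP η).fwd^[t] w = (shi^[t] w.1, w.2) := by
  induction t with
  | zero => rfl
  | succ t ih => rw [Function.iterate_succ_apply', Function.iterate_succ_apply', ih]; rfl

theorem PP_bwd [IsProbabilityMeasure η] (t : ℕ) (w : XX × Y) :
    (PP η).bwd^[t] w = (sh^[t] w.1, w.2) := by
  induction t with
  | zero => rfl
  | succ t ih => rw [Function.iterate_succ_apply', Function.iterate_succ_apply', ih]; rfl

theorem sh_shi_it (t : ℕ) (x : XX) : sh^[t] (shi^[t] x) = x :=
  (Function.LeftInverse.iterate (fun x => sh_shi x) t : _) x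

theorem shi_sh_it (t : ℕ) (x : XX) : shi^[t] (sh^[t] x) = x :=
  (Function.LeftInverse.iterate (fun x => shi_sh x) t : _) x

theorem ext_it [IsProbabilityMeasure η] (T : MPT (mm.prod η)) (hT : Ext RR T) (t : ℕ) :
    ∀ᵐ z ∂(mm.prod η), (T.fwd^[t] z).1 = sh^[t] z.1 := by
  induction t with
  | zero => simp
  | succ t ih =>
    filter_upwards [ih, (T.mp.iterate t).quasiMeasurePreserving.ae hT] with z h1 h2
    rw [Function.iterate_succ_apply', Function.iterate_succ_apply', h2, h1]
    rfl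

theorem main (h : S_GLUE) : S_COB := by
  intro Y _ η _ T₀ hT₀ δ hδ
  obtain ⟨q, hq⟩ := prob δ hδ
  set Ψ : ℕ → MPT (mm.prod η) := fun t => (T₀.it t).comp ((PP η).it t) with hΨ
  have hΨf : ∀ t z, (Ψ t).fwd z = T₀.fwd^[t] (shi^[t] z.1, z.2) := by
    intro t z
    rw [← PP_fwd (η := η) t z]
    rfl
  have hΨb : ∀ t z, (Ψ t).bwd z = (sh^[t] (T₀.bwd^[t] z).1, (T₀.bwd^[t] z).2) := by
    intro t z
    rw [← PP_bwd (η := η) t]
    rfl
  have hΨe : ∀ t, Ext (MPT.one mm) (Ψ t) := by
    intro t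
    have h1 := ((PP η).mp.iterate t).quasiMeasurePreserving.ae (ext_it T₀ hT₀ t)
    filter_upwards [h1] with z hz
    rw [hΨf]
    rw [PP_fwd] at hz
    rw [hz]
    exact sh_shi_it t z.1
  obtain ⟨Φ, hΦe, hΦf, hΦb⟩ := h XX Y mm η Ψ hΨe (tau q) (meas_tau q)
  have hbe : ∀ᵐ z ∂(mm.prod η), (Φ.bwd z).1 = z.1 := by
    filter_upwards [Φ.mp'.quasiMeasurePreserving.ae hΦe, Φ.fb] with z h1 h2
    rw [h2] at h1
    exact h1.symm
  refine ⟨Φ.inv, hbe, ?_⟩
  have hall : ∀ᵐ z ∂(mm.prod η), ∀ t, T₀.fwd^[t] (T₀.bwd^[t] z) = z :=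
    ae_all_iff.2 fun t => (T₀.it t).fb
  have hgood : ∀ᵐ z ∂(mm.prod η), tau q (sh z.1) = tau q z.1 + 1 →
      T₀.fwd z = Φ.fwd (sh (Φ.bwd z).1, (Φ.bwd z).2) := by
    filter_upwards [hΦb, hbe, hall,
      ((PP η).mp'.comp Φ.mp').quasiMeasurePreserving.ae hΦf] with z h1 h2 h3 h4 ht
    have e1 : ((PP η).bwd ∘ Φ.bwd) z = (sh (Φ.bwd z).1, (Φ.bwd z).2) := rfl
    rw [e1] at h4
    rw [h4]
    simp only
    rw [h2, ht, hΨf]
    simp only
    rw [h1, hΨb] at h2
    simp only at h2
    rw [h1, hΨb]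
    simp only
    set w := T₀.bwd^[tau q z.1] z with hw
    have e2 : shi^[tau q z.1 + 1] (sh z.1) = w.1 := by
      have h5 := shi_sh_it (tau q z.1 + 1) w.1
      rw [Function.iterate_succ_apply' sh, h2] at h5
      exact h5
    have e3 : T₀.fwd^[tau q z.1] w = z := h3 _
    rw [e2, Function.iterate_succ_apply' T₀.fwd]
    have e4 : (w.1, w.2) = w := rfl
    rw [e4, e3]
  refine lt_of_le_of_lt ?_ hq
  have hset : (mm.prod η) {z | tau q (sh z.1) ≠ tau q z.1 + 1} =
      mm {x | tau q (sh x) ≠ tau q x + 1} := by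
    have hm : MeasurableSet {x | tau q (sh x) ≠ tau q x + 1} :=
      (measurableSet_eq_fun ((meas_tau q).comp measurable_sh)
        ((meas_tau q).add measurable_const)).compl
    have := (measurePreserving_fst (μ := mm) (ν := η)).measure_preimage hm.nullMeasurableSet
    exact this
  rw [← hset]
  apply measure_mono_ae
  filter_upwards [hgood] with z hz hne
  intro hcon
  exact hne (hz hcon)

end Pool.Agent.R924.SM.COB
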