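import Pool.Agent.R924.SM.Stm

open MeasureTheory Set Filter Topology

set_option autoImplicit false

namespace Pool.Agent.R924.SM.CONT

section
variable {Z : Type} [MeasurableSpace Z] {μ : Measure Z} [IsProbabilityMeasure μ]

theorem ind {ι : Type} {l : Filter ι} {a : ι → Z → Z} {b : Z → Z}
    (h : ∀ E, MeasurableSet E → Tendsto (fun i => μ (symmDiff (b ⁻¹' E) (a i ⁻¹' E))) l (𝓝 0))
    (c : ℝ) {s : Set Z} (hs : MeasurableSet s) :
    Tendsto (fun i => eLpNorm ((s.indicator fun _ => c) ∘ a i - (s.indicator fun _ => c) ∘ b) 2 μ)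
      l (𝓝 0) := by
  have h1 : Tendsto (fun i => ‖c‖ₑ * μ (symmDiff (b ⁻¹' s) (a i ⁻¹' s)) ^ (1 / (2 : ENNReal).toReal))
      l (𝓝 (‖c‖ₑ * 0 ^ (1 / (2 : ENNReal).toReal))) := by
    apply ENNReal.Tendsto.const_mul
    · exact ((ENNReal.continuous_rpow_const).tendsto 0).comp (h s hs)
    · right; exact enorm_ne_top
  have h0 : ‖c‖ₑ * (0 : ENNReal) ^ (1 / (2 : ENNReal).toReal) = 0 := by
    rw [ENNReal.zero_rpow_of_pos (by norm_num), mul_zero]
  rw [h0] at h1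
  refine tendsto_of_tendsto_of_tendsto_of_le_of_le tendsto_const_nhds h1 (fun _ => zero_le) ?_
  intro i
  refine le_trans (eLpNorm_mono (g := (symmDiff (b ⁻¹' s) (a i ⁻¹' s)).indicator fun _ => c) ?_)
    (eLpNorm_indicator_const_le c 2)
  intro z
  by_cases h1 : a i z ∈ s <;> by_cases h2 : b z ∈ s
  · simp [h1, h2]
  · have h3 : z ∈ symmDiff (b ⁻¹' s) (a i ⁻¹' s) := Or.inr ⟨h1, h2⟩
    simp [h1, h2, indicator_of_mem h3]
  · have h3 : z ∈ symmDiff (b ⁻¹' s) (a i ⁻¹' s) := Or.inl ⟨h2, h1⟩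
    simp [h1, h2, indicator_of_mem h3]
  · simp [h1, h2]

theorem gen {ι : Type} {l : Filter ι} {a : ι → Z → Z} {b : Z → Z}
    (ha : ∀ i, MeasurePreserving (a i) μ μ) (hb : MeasurePreserving b μ μ)
    (h : ∀ E, MeasurableSet E → Tendsto (fun i => μ (symmDiff (b ⁻¹' E) (a i ⁻¹' E))) l (𝓝 0))
    {F : Z → ℝ} (hF : MemLp F 2 μ) :
    Tendsto (fun i => eLpNorm (F ∘ a i - F ∘ b) 2 μ) l (𝓝 0) := by
  rw [ENNReal.tendsto_nhds_zero]
  intro ε hε
  have hε3 : ε / 3 ≠ 0 := by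
    rw [Ne, ENNReal.div_eq_zero_iff]
    push_neg
    exact ⟨hε.ne', by norm_num⟩
  obtain ⟨g, hg, hgm, hgt⟩ : ∃ g : Z → ℝ, eLpNorm (F - g) 2 μ ≤ ε / 3 ∧
      (MemLp g 2 μ ∧ Tendsto (fun i => eLpNorm (g ∘ a i - g ∘ b) 2 μ) l (𝓝 0)) := by
    refine MemLp.induction_dense (by norm_num) (fun g => MemLp g 2 μ ∧
      Tendsto (fun i => eLpNorm (g ∘ a i - g ∘ b) 2 μ) l (𝓝 0)) ?_ ?_ ?_ hF hε3
    · intro c s hs _ δ hδ
      refine ⟨s.indicator fun _ => c, ?_, memLp_indicator_const 2 hs c (Or.inr (measure_ne_top _ _)),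
        ind h c hs⟩
      simp
    · rintro f g ⟨hf1, hf2⟩ ⟨hg1, hg2⟩
      refine ⟨hf1.add hg1, ?_⟩
      have h3 := hf2.add hg2
      rw [add_zero] at h3
      refine tendsto_of_tendsto_of_tendsto_of_le_of_le tendsto_const_nhds h3 (fun _ => zero_le) ?_
      intro i
      have e : (f + g) ∘ a i - (f + g) ∘ b = (f ∘ a i - f ∘ b) + (g ∘ a i - g ∘ b) := by
        funext z; simp; ring
      show eLpNorm ((f + g) ∘ a i - (f + g) ∘ b) 2 μ ≤ _
      rw [e]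
      apply eLpNorm_add_le
      · exact ((hf1.comp_measurePreserving (ha i)).sub (hf1.comp_measurePreserving hb)).1
      · exact ((hg1.comp_measurePreserving (ha i)).sub (hg1.comp_measurePreserving hb)).1
      · norm_num
    · intro f hf
      exact hf.1.1
  have h3 : ∀ᶠ i in l, eLpNorm (g ∘ a i - g ∘ b) 2 μ ≤ ε / 3 :=
    (ENNReal.tendsto_nhds_zero.1 hgt) (ε / 3) (pos_iff_ne_zero.2 hε3)
  filter_upwards [h3] with i hi
  have e : F ∘ a i - F ∘ b = ((F - g) ∘ a i + (g ∘ a i - g ∘ b)) + -((F - g) ∘ b) := by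
    funext z; simp
  have hFg : MemLp (F - g) 2 μ := hF.sub hgm
  have m1 := (hFg.comp_measurePreserving (ha i))
  have m2 := (hFg.comp_measurePreserving hb)
  have m3 := ((hgm.comp_measurePreserving (ha i)).sub (hgm.comp_measurePreserving hb))
  rw [e]
  calc eLpNorm (((F - g) ∘ a i + (g ∘ a i - g ∘ b)) + -((F - g) ∘ b)) 2 μ
      ≤ eLpNorm ((F - g) ∘ a i + (g ∘ a i - g ∘ b)) 2 μ + eLpNorm (-((F - g) ∘ b)) 2 μ :=
        eLpNorm_add_le (m1.add m3).1 m2.neg.1 (by norm_num)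
    _ ≤ (eLpNorm ((F - g) ∘ a i) 2 μ + eLpNorm (g ∘ a i - g ∘ b) 2 μ)
        + eLpNorm (-((F - g) ∘ b)) 2 μ :=
        add_le_add (eLpNorm_add_le m1.1 m3.1 (by norm_num)) le_rfl
    _ ≤ (ε / 3 + ε / 3) + ε / 3 := by
        refine add_le_add (add_le_add ?_ hi) ?_
        · rw [eLpNorm_comp_measurePreserving hFg.1 (ha i)]; exact hg
        · rw [eLpNorm_neg, eLpNorm_comp_measurePreserving hFg.1 hb]; exact hg
    _ = ε := ENNReal.add_thirds ε

theorem tbwd (T₀ : MPT μ) (E : Set Z) (hE : MeasurableSet E) :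
    Tendsto (fun T : MPT μ => μ (symmDiff (T₀.bwd ⁻¹' E) (T.bwd ⁻¹' E))) (𝓝 T₀) (𝓝 0) := by
  rw [ENNReal.tendsto_nhds_zero]
  intro ε hε
  have h1 : nbd T₀ E ε ∈ 𝓝 T₀ := by
    refine IsOpen.mem_nhds (TopologicalSpace.isOpen_generateFrom_of_mem ⟨T₀, E, ε, hE, hε, rfl⟩) ?_
    show μ (symmDiff (T₀.bwd ⁻¹' E) (T₀.bwd ⁻¹' E)) < ε
    simpa using hε
  filter_upwards [h1] with T hT
  exact le_of_lt hT

theorem tfwd (T₀ : MPT μ) (E : Set Z) (hE : MeasurableSet E) :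
    Tendsto (fun T : MPT μ => μ (symmDiff (T₀.fwd ⁻¹' E) (T.fwd ⁻¹' E))) (𝓝 T₀) (𝓝 0) := by
  refine (tbwd T₀ (T₀.fwd ⁻¹' E) (T₀.mp.measurable hE)).congr ?_
  intro T
  have hS : MeasurableSet (symmDiff (T₀.fwd ⁻¹' E) (T.fwd ⁻¹' E)) :=
    (T₀.mp.measurable hE).symmDiff (T.mp.measurable hE)
  rw [← T.mp'.measure_preimage hS.nullMeasurableSet]
  apply measure_congr
  filter_upwards [T.fb, T₀.fb] with z h1 h2
  apply propext
  show z ∈ symmDiff (T₀.bwd ⁻¹' (T₀.fwd ⁻¹' E)) (T.bwd ⁻¹' (T₀.fwd ⁻¹' E)) ↔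
    T.bwd z ∈ symmDiff (T₀.fwd ⁻¹' E) (T.fwd ⁻¹' E)
  simp only [mem_symmDiff, mem_preimage]
  rw [h1, h2]
  tauto

theorem iter (T₀ : MPT μ) (n : ℕ) : ∀ {F : Z → ℝ}, MemLp F 2 μ →
    Tendsto (fun T : MPT μ => eLpNorm (F ∘ T.fwd^[n] - F ∘ T₀.fwd^[n]) 2 μ) (𝓝 T₀) (𝓝 0) := by
  induction n with
  | zero =>
    intro F _
    simp only [Function.iterate_zero, Function.comp_id, sub_self, eLpNorm_zero]
    exact tendsto_const_nhds
  | succ n ih =>
    intro F hF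
    have hG : MemLp (F ∘ T₀.fwd^[n]) 2 μ := hF.comp_measurePreserving (T₀.mp.iterate n)
    have h1 := (ih hF).add (gen (fun T : MPT μ => T.mp) T₀.mp (tfwd T₀) hG)
    rw [add_zero] at h1
    refine tendsto_of_tendsto_of_tendsto_of_le_of_le tendsto_const_nhds h1 (fun _ => zero_le) ?_
    intro T
    have hH : MemLp (F ∘ T.fwd^[n]) 2 μ := hF.comp_measurePreserving (T.mp.iterate n)
    have e : F ∘ T.fwd^[n + 1] - F ∘ T₀.fwd^[n + 1]
        = (F ∘ T.fwd^[n] - F ∘ T₀.fwd^[n]) ∘ T.fwd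
          + ((F ∘ T₀.fwd^[n]) ∘ T.fwd - (F ∘ T₀.fwd^[n]) ∘ T₀.fwd) := by
      funext z
      simp only [Pi.sub_apply, Pi.add_apply, Function.comp_apply, Function.iterate_succ_apply]
      ring
    show eLpNorm (F ∘ T.fwd^[n + 1] - F ∘ T₀.fwd^[n + 1]) 2 μ ≤ _
    rw [e]
    refine le_trans (eLpNorm_add_le ?_ ?_ (by norm_num)) (add_le_add ?_ le_rfl)
    · exact ((hH.sub hG).comp_measurePreserving T.mp).1
    · exact ((hG.comp_measurePreserving T.mp).sub (hG.comp_measurePreserving T₀.mp)).1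
    · rw [eLpNorm_comp_measurePreserving (hH.sub hG).1 T.mp]

theorem conv {G : Z → ℝ} (hG : MemLp G 2 μ) {ε : ℝ} (hε : 0 < ε)
    (h : eLpNorm G 2 μ < ENNReal.ofReal (Real.sqrt ε)) : ∫ z, G z ^ 2 ∂μ < ε := by
  rw [hG.eLpNorm_eq_integral_rpow_norm two_ne_zero ENNReal.ofNat_ne_top,
    ENNReal.ofReal_lt_ofReal_iff (Real.sqrt_pos.2 hε)] at h
  have e : (∫ a, ‖G a‖ ^ (2 : ENNReal).toReal ∂μ) = ∫ z, G z ^ 2 ∂μ := by
    apply integral_congr_ae
    refine Eventually.of_forall fun z => ?_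
    simp
  rw [e] at h
  have e2 : ((2 : ENNReal).toReal)⁻¹ = 1 / 2 := by norm_num
  rw [e2, ← Real.sqrt_eq_rpow] at h
  exact lt_of_not_ge fun h' => absurd h (not_lt.2 (Real.sqrt_le_sqrt h'))

end

theorem main : S_CONT := by
  intro Z _ μ _ T₀ F _ hF n ε hε
  have hs : 0 < ENNReal.ofReal (Real.sqrt ε) := ENNReal.ofReal_pos.2 (Real.sqrt_pos.2 hε)
  constructor
  · filter_upwards [(iter T₀ n hF).eventually (Iio_mem_nhds hs)] with T hT
    exact conv ((hF.comp_measurePreserving (T.mp.iterate n)).sub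
      (hF.comp_measurePreserving (T₀.mp.iterate n))) hε hT
  · filter_upwards [(gen (fun T : MPT μ => T.mp') T₀.mp' (tbwd T₀) hF).eventually
      (Iio_mem_nhds hs)] with T hT
    exact conv ((hF.comp_measurePreserving T.mp').sub
      (hF.comp_measurePreserving T₀.mp')) hε hT

end Pool.Agent.R924.SM.CONT
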