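import Pool.Agent.R924.SM.Stm

/-!
Piece CYL for MP_2967d5_an: cylinder sets and mixing of the shift.
-/

open MeasureTheory Set Filter Topology ProbabilityTheory

set_option autoImplicit false

namespace Pool.Agent.R924.SM.CYL

/-- Extension of a partial sequence by `0`. -/
noncomputable def ext (S : Finset ℤ) (u : S → unitInterval) : XX :=
  fun i => if h : i ∈ S then u ⟨i, h⟩ else 0

theorem measurable_ext (S : Finset ℤ) : Measurable (ext S) := by
  refine measurable_pi_lambda _ fun i => ?_
  unfold ext
  by_cases h : i ∈ S
  · simp only [h, dif_pos]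
    exact measurable_pi_apply _
  · simp only [h, dif_neg, not_false_eq_true]
    exact measurable_const

theorem sh_iter (k : ℕ) (x : XX) (i : ℤ) : (sh^[k] x) i = x (i + k) := by
  induction k generalizing x i with
  | zero => simp
  | succ k ih =>
    rw [Function.iterate_succ_apply, ih]
    simp only [sh]
    congr 1
    push_cast
    ring

theorem indep : iIndepFun (fun (i : ℤ) (x : XX) => x i) mm := by
  have := iIndepFun_infinitePi (Ω := fun _ : ℤ => unitInterval)
    (P := fun _ : ℤ => (volume : Measure unitInterval))
    (X := fun (_ : ℤ) (u : unitInterval) => u) (by fun_prop)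
  exact this

/-- A measurable set which depends only on the coordinates in `S` is a preimage. -/
theorem repr (S : Finset ℤ) (E : Set XX) (h : ∀ x y : XX, (∀ i ∈ S, x i = y i) → (x ∈ E ↔ y ∈ E)) :
    E = (fun (x : XX) (i : S) => x i) ⁻¹' (ext S ⁻¹' E) := by
  ext x
  refine h _ _ ?_
  intro i hi
  simp [Pool.Agent.R924.SM.CYL.ext, hi]

theorem indep_sets (S T : Finset ℤ) (hST : Disjoint S T) (E F : Set XX) (hE : MeasurableSet E)
    (hF : MeasurableSet F)
    (h1 : ∀ x y : XX, (∀ i ∈ S, x i = y i) → (x ∈ E ↔ y ∈ E))
    (h2 : ∀ x y : XX, (∀ i ∈ T, x i = y i) → (x ∈ F ↔ y ∈ F)) :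
    mm (E ∩ F) = mm E * mm F := by
  have h := indep.indepFun_finset S T hST (fun i => measurable_pi_apply i)
  have e1 := repr S E h1
  have e2 := repr T F h2
  have := h.measure_inter_preimage_eq_mul (ext S ⁻¹' E) (ext T ⁻¹' F)
    (measurable_ext S hE) (measurable_ext T hF)
  rw [← e1, ← e2] at this
  exact this

theorem main : S_CYL := by
  refine ⟨?_, ?_, ?_, ?_, ?_⟩
  · rintro E ⟨hE, r, hr⟩ F ⟨hF, s, hs⟩ -
    refine ⟨hE.inter hF, max r s, fun x y hxy => ?_⟩
    have a := hr x y (fun i hi => hxy i (hi.trans (by exact_mod_cast le_max_left r s)))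
    have b := hs x y (fun i hi => hxy i (hi.trans (by exact_mod_cast le_max_right r s)))
    simp only [mem_inter_iff, a, b]
  · exact ⟨MeasurableSet.univ, 0, fun x y _ => by simp⟩
  · apply le_antisymm
    · refine iSup_le fun i => ?_
      rintro _ ⟨t, ht, rfl⟩
      apply MeasurableSpace.measurableSet_generateFrom
      refine ⟨measurable_pi_apply i ht, i.natAbs, fun x y hxy => ?_⟩
      have := hxy i (by simp)
      simp only [mem_preimage, this]
    · exact MeasurableSpace.generateFrom_le fun E hE => hE.1
  · rintro E ⟨hE, r, hr⟩ F ⟨hF, s, hs⟩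
    refine ⟨r + s + 1, fun k hk => ?_⟩
    have hk' : (r : ℤ) + s + 1 ≤ k := by exact_mod_cast hk
    have key : mm (E ∩ sh^[k] ⁻¹' F) = mm E * mm (sh^[k] ⁻¹' F) := by
      refine indep_sets (Finset.Icc (-(r : ℤ)) r) (Finset.Icc ((k : ℤ) - s) (k + s)) ?_ E
        (sh^[k] ⁻¹' F) hE ((mp_sh.iterate k).measurable hF) ?_ ?_
      · rw [Finset.disjoint_left]
        intro i hi hj
        rw [Finset.mem_Icc] at hi hj
        omega
      · intro x y hxy
        refine hr x y fun i hi => hxy i ?_
        rw [Finset.mem_Icc]
        exact abs_le.mp hi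
      · intro x y hxy
        refine hs _ _ fun i hi => ?_
        rw [sh_iter, sh_iter]
        apply hxy
        rw [Finset.mem_Icc]
        have := abs_le.mp hi
        constructor <;> linarith [this.1, this.2]
    have h3 : mm (sh^[k] ⁻¹' F) = mm F := (mp_sh.iterate k).measure_preimage hF.nullMeasurableSet
    simp only [Measure.real, key, h3, ENNReal.toReal_mul]
  · intro x
    have h1 : mm {x} ≤ mm ((fun y : XX => y 0) ⁻¹' {x 0}) := by
      apply measure_mono
      intro y hy
      simp only [mem_singleton_iff] at hy
      simp [hy]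
    have h2 : MeasurePreserving (fun y : XX => y 0) mm (volume : Measure unitInterval) :=
      measurePreserving_eval_infinitePi (fun _ : ℤ => (volume : Measure unitInterval)) 0
    rw [h2.measure_preimage (measurableSet_singleton _).nullMeasurableSet] at h1
    have h3 : (volume : Measure unitInterval) {x 0} = 0 := by
      rw [unitInterval.volume_def, Measure.comap_apply _ Subtype.val_injective _ _
        (measurableSet_singleton _)]
      · simp
      · intro s hs
        exact (MeasurableEmbedding.subtype_coe measurableSet_Icc).measurableSet_image.mpr hs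
    rw [h3] at h1
    exact le_antisymm h1 zero_le

end Pool.Agent.R924.SM.CYL
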