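import Pool.Agent.R924.SM.Defs

/-!
Exact statements of the independent pieces for MP_2967d5_an. Proofs: see NOTES.md.
-/

open MeasureTheory Set Filter Topology

set_option autoImplicit false

namespace Pool.Agent.R924.SM

/-- CE: equivariance of the fibre integrals. -/
def S_CE : Prop :=
  ∀ (X Y : Type) [MeasurableSpace X] [MeasurableSpace Y] (m : Measure X) (η : Measure Y)
    [IsProbabilityMeasure m] [IsProbabilityMeasure η] (R : MPT m) (T : MPT (m.prod η)),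
    Ext R T → ∀ F : X × Y → ℝ, Integrable F (m.prod η) →
      ∀ᵐ x ∂m, ∫ y, F (T.fwd (x, y)) ∂η = ∫ y, F (R.fwd x, y) ∂η

/-- CONT: continuity of `T ↦ F ∘ T ^ n` and `T ↦ F ∘ T⁻¹` for the weak topology. -/
def S_CONT : Prop :=
  ∀ (Z : Type) [MeasurableSpace Z] (μ : Measure Z) [IsProbabilityMeasure μ] (T₀ : MPT μ)
    (F : Z → ℝ), Measurable F → MemLp F 2 μ → ∀ (n : ℕ) (ε : ℝ), 0 < ε →
      {T : MPT μ | ∫ z, (F (T.fwd^[n] z) - F (T₀.fwd^[n] z)) ^ 2 ∂μ < ε} ∈ 𝓝 T₀ ∧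
      {T : MPT μ | ∫ z, (F (T.bwd z) - F (T₀.bwd z)) ^ 2 ∂μ < ε} ∈ 𝓝 T₀

/-- NEAR: transformations which differ from `T₀` on a small set are weakly close to it. -/
def S_NEAR : Prop :=
  ∀ (Z : Type) [MeasurableSpace Z] (μ : Measure Z) [IsProbabilityMeasure μ] (T₀ : MPT μ)
    (U : Set (MPT μ)), U ∈ 𝓝 T₀ →
      ∃ δ : ENNReal, 0 < δ ∧ ∀ T : MPT μ, μ {z | T.fwd z ≠ T₀.fwd z} < δ → T ∈ U

/-- DENS: combinations of indicators of rectangles `A × E`, `E` in a generating pi-system, are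
dense in `L^2`. -/
def S_DENS : Prop :=
  ∀ (X Y : Type) [MeasurableSpace X] [mY : MeasurableSpace Y] (m : Measure X) (η : Measure Y)
    [IsProbabilityMeasure m] [IsProbabilityMeasure η] (C : Set (Set Y)),
    IsPiSystem C → univ ∈ C → mY = MeasurableSpace.generateFrom C →
    ∀ F : X × Y → ℝ, MemLp F 2 (m.prod η) → ∀ ε : ℝ, 0 < ε →
      ∃ (n : ℕ) (A : Fin n → Set X) (E : Fin n → Set Y) (c : Fin n → ℝ),
        (∀ i, MeasurableSet (A i)) ∧ (∀ i, E i ∈ C) ∧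
        ∫ z, (F z - ∑ i, c i * (A i).indicator 1 z.1 * (E i).indicator 1 z.2) ^ 2 ∂(m.prod η) < ε

/-- EXT: strong mixing has only to be checked on the functions `1_E(y) - η(E)`. -/
def S_EXT : Prop :=
  ∀ (X Y : Type) [MeasurableSpace X] [mY : MeasurableSpace Y] (m : Measure X) (η : Measure Y)
    [IsProbabilityMeasure m] [IsProbabilityMeasure η] (R : MPT m) (T : MPT (m.prod η)),
    Ext R T → ∀ C : Set (Set Y),
    IsPiSystem C → univ ∈ C → mY = MeasurableSpace.generateFrom C →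
    (∀ E ∈ C, ∀ F ∈ C, Tendsto (fun n : ℕ =>
      ∫ x, (∫ y, (E.indicator 1 (T.fwd^[n] (x, y)).2 - η.real E) *
        (F.indicator 1 y - η.real F) ∂η) ^ 2 ∂m) atTop (𝓝 (0 : ℝ))) →
    StronglyMixing R T

/-- The coordinate functions of `XX × XX`. -/
noncomputable def co (a : ℤ ⊕ ℤ) (z : XX × XX) : ℝ :=
  Sum.elim (fun i => (z.1 i : ℝ)) (fun i => (z.2 i : ℝ)) a

/-- BA1: coordinatewise `L^2` limits of measure preserving maps. -/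
def S_BA1 : Prop :=
  ∀ (μ : Measure (XX × XX)) [IsProbabilityMeasure μ] (T : ℕ → XX × XX → XX × XX)
    (S : XX × XX → XX × XX), (∀ k, MeasurePreserving (T k) μ μ) → Measurable S →
    (∀ a, Tendsto (fun k => ∫ z, (co a (T k z) - co a (S z)) ^ 2 ∂μ) atTop (𝓝 0)) →
    MeasurePreserving S μ μ ∧ ∀ F : XX × XX → ℝ, Measurable F → MemLp F 2 μ →
      Tendsto (fun k => ∫ z, (F (T k z) - F (S z)) ^ 2 ∂μ) atTop (𝓝 0)

/-- BAIRE: the space of extensions is a Baire space. -/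
def S_BAIRE : Prop :=
  ∀ (m η : Measure XX) [IsProbabilityMeasure m] [IsProbabilityMeasure η] (R : MPT m),
    BaireSpace (GR η R)

/-- Cylinder sets: measurable sets depending on finitely many coordinates. -/
def Cyl : Set (Set XX) :=
  {E | MeasurableSet E ∧ ∃ r : ℕ, ∀ x y : XX, (∀ i : ℤ, |i| ≤ (r : ℤ) → x i = y i) →
    (x ∈ E ↔ y ∈ E)}

/-- CYL: cylinder sets and mixing of the shift. -/
def S_CYL : Prop :=
  IsPiSystem Cyl ∧ univ ∈ Cyl ∧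
  (inferInstance : MeasurableSpace XX) = MeasurableSpace.generateFrom Cyl ∧
  (∀ E ∈ Cyl, ∀ F ∈ Cyl, ∃ k₀ : ℕ, ∀ k ≥ k₀,
    mm.real (E ∩ sh^[k] ⁻¹' F) = mm.real E * mm.real F) ∧
  (∀ x : XX, mm {x} = 0)

/-- MARK: block structure with a random scale. -/
def S_MARK : Prop :=
  ∀ (K L : ℕ) (δ : ℝ), 1 ≤ K → 1 ≤ L → 0 < δ →
    ∃ (w κ : XX → ℕ) (E : Set XX), Measurable w ∧ Measurable κ ∧ MeasurableSet E ∧
      (∀ x, w x ≤ 1) ∧ (∀ x, κ x < K) ∧ mm.real Eᶜ ≤ δ ∧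
      (∀ x ∈ E, ∃ a : ℕ, ∀ j ≤ L ^ (K + 1),
        ∑ i ∈ Finset.range j, w (sh^[i] x) = (a + j) / L ^ (κ x + 1) - a / L ^ (κ x + 1)) ∧
      mm.real {x | w x ≠ 0} ≤ 2 / L + δ ∧
      ∃ N₀ : ℕ, ∀ n ≥ N₀, mm.real {x | κ x = κ (sh^[n] x)} ≤ 1 / K + δ

/-- GLUE: gluing extensions of the identity over a partition of the base. -/
def S_GLUE : Prop :=
  ∀ (X Y : Type) [MeasurableSpace X] [MeasurableSpace Y] (m : Measure X) (η : Measure Y)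
    [IsProbabilityMeasure m] [IsProbabilityMeasure η] (Ψ : ℕ → MPT (m.prod η)),
    (∀ t, Ext (MPT.one m) (Ψ t)) → ∀ τ : X → ℕ, Measurable τ →
    ∃ Φ : MPT (m.prod η), Ext (MPT.one m) Φ ∧
      (∀ᵐ z ∂(m.prod η), Φ.fwd z = (Ψ (τ z.1)).fwd z) ∧
      (∀ᵐ z ∂(m.prod η), Φ.bwd z = (Ψ (τ z.1)).bwd z)

/-- COB: every extension of the shift is close to a conjugate of `shift × id` by an extension of
the identity. -/
def S_COB : Prop :=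
  ∀ (Y : Type) [MeasurableSpace Y] (η : Measure Y) [IsProbabilityMeasure η]
    (T₀ : MPT (mm.prod η)), Ext RR T₀ → ∀ δ : ℝ, 0 < δ →
    ∃ Φ : MPT (mm.prod η), Ext (MPT.one mm) Φ ∧
      (mm.prod η) {z | T₀.fwd z ≠ Φ.bwd (sh (Φ.fwd z).1, (Φ.fwd z).2)} < ENNReal.ofReal δ

/-- WIN: two orthogonal families read at two different scales. -/
def S_WIN : Prop :=
  ∀ (H : Type) [NormedAddCommGroup H] [InnerProductSpace ℝ H] (K L s s' a a' : ℕ)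
    (α β : ℕ → H), 1 ≤ L → s < K → s' < K → s ≠ s' →
    (∀ c, ‖α c‖ ≤ 1) → (∀ c, ‖β c‖ ≤ 1) →
    (∀ c d, c ≠ d → inner ℝ (α c) (α d) = 0) → (∀ c d, c ≠ d → inner ℝ (β c) (β d) = 0) →
    ∑ j ∈ Finset.range (L ^ (K + 1)),
      (inner ℝ (α ((a + j) / L ^ (s + 1) - a / L ^ (s + 1)))
        (β ((a' + j) / L ^ (s' + 1) - a' / L ^ (s' + 1)))) ^ 2 ≤ 2 * (L : ℝ) ^ K

/-- The number of modifications met during the first `j` steps. -/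
def cnt {X : Type} (R : X → X) (w : X → ℕ) (j : ℕ) (x : X) : ℕ :=
  ∑ i ∈ Finset.range j, w (R^[i] x)

/-- The structured functions `F_j(z) = ∑ i, p i (R^j x) * β i (cnt j x) z`, `x = z.1`. -/
noncomputable def stf {X Y : Type} (R : X → X) (w : X → ℕ) {D : ℕ} (p : Fin D → X → ℝ)
    (β : Fin D → ℕ → X × Y → ℝ) (j : ℕ) (z : X × Y) : ℝ :=
  ∑ i, p i (R^[j] z.1) * β i (cnt R w j z.1) z

/-- QQ: the main estimate for the structured functions. -/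
def S_QQ : Prop :=
  ∀ (X Y : Type) [MeasurableSpace X] [MeasurableSpace Y] (m : Measure X) (η : Measure Y)
    [IsProbabilityMeasure m] [IsProbabilityMeasure η] (R : MPT m) (T : MPT (m.prod η)),
    Ext R T → ∀ (K L : ℕ) (w κ : X → ℕ) (E : Set X), 1 ≤ L →
    Measurable w → Measurable κ → MeasurableSet E → (∀ x, κ x < K) →
    (∀ x ∈ E, ∃ a : ℕ, ∀ j ≤ L ^ (K + 1),
      cnt R.fwd w j x = (a + j) / L ^ (κ x + 1) - a / L ^ (κ x + 1)) →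
    ∀ (D D' : ℕ) (p : Fin D → X → ℝ) (p' : Fin D' → X → ℝ)
      (β : Fin D → ℕ → X × Y → ℝ) (β' : Fin D' → ℕ → X × Y → ℝ) (B B' : ℝ),
    0 ≤ B → 0 ≤ B' → (∀ i, Measurable (p i)) → (∀ i, Measurable (p' i)) →
    (∀ i c, Measurable (β i c)) → (∀ i c, Measurable (β' i c)) →
    (∀ i x, |p i x| ≤ B) → (∀ i x, |p' i x| ≤ B') →
    (∀ i c z, |β i c z| ≤ 1) → (∀ i c z, |β' i c z| ≤ 1) →
    (∀ i c d, c ≠ d → ∀ᵐ x ∂m, ∫ y, β i c (x, y) * β i d (x, y) ∂η = 0) →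
    (∀ i c d, c ≠ d → ∀ᵐ x ∂m, ∫ y, β' i c (x, y) * β' i d (x, y) ∂η = 0) →
    ∀ n : ℕ,
      ∑ j ∈ Finset.range (L ^ (K + 1)),
        ∫ x, (∫ y, stf R.fwd w p β j (T.fwd^[n] (x, y)) * stf R.fwd w p' β' j (x, y) ∂η) ^ 2 ∂m
      ≤ (L : ℝ) ^ (K + 1) * (D * B * (D' * B')) ^ 2 *
        (2 / L + 2 * m.real Eᶜ + m.real {x | κ x = κ (R.fwd^[n] x)})

/-- DEC: decomposition of the correlation over a window. -/
def S_DEC : Prop :=
  ∀ (X Y : Type) [MeasurableSpace X] [MeasurableSpace Y] (m : Measure X) (η : Measure Y)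
    [IsProbabilityMeasure m] [IsProbabilityMeasure η] (R : MPT m) (T : MPT (m.prod η)),
    Ext R T → ∀ (f g : Y → ℝ), Measurable f → Measurable g → (∀ y, |f y| ≤ 1) →
    (∀ y, |g y| ≤ 1) → ∀ (N : ℕ) (F G : ℕ → X × Y → ℝ) (B : ℝ), 1 ≤ N → 0 ≤ B →
    (∀ j, Measurable (F j)) → (∀ j, Measurable (G j)) → (∀ j z, |F j z| ≤ B) →
    (∃ C : ℝ, ∀ j z, |G j z| ≤ C) →
    ∀ n : ℕ, (N : ℝ) * ∫ x, (∫ y, f (T.fwd^[n] (x, y)).2 * g y ∂η) ^ 2 ∂m ≤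
      3 * ∑ j ∈ Finset.range N,
        ((∫ x, (∫ y, F j (T.fwd^[n] (x, y)) * G j (x, y) ∂η) ^ 2 ∂m) +
          (∫ z, (f (T.fwd^[j] z).2 - F j z) ^ 2 ∂(m.prod η)) +
          B ^ 2 * ∫ z, (g (T.fwd^[j] z).2 - G j z) ^ 2 ∂(m.prod η))

/-- MAIN: density. -/
def S_MAIN : Prop :=
  ∀ (T₀ : MPT (mm.prod mm)), Ext RR T₀ → ∀ U ∈ 𝓝 T₀, ∀ (f g : XX → ℝ), Measurable f →
    Measurable g → (∀ y, |f y| ≤ 1) → (∀ y, |g y| ≤ 1) → ∫ y, f y ∂mm = 0 → ∫ y, g y ∂mm = 0 →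
    ∀ ε : ℝ, 0 < ε → ∃ T' : MPT (mm.prod mm), Ext RR T' ∧ T' ∈ U ∧ ∃ V ∈ 𝓝 T', ∀ T ∈ V,
      Ext RR T → ∃ N₀ : ℕ, ∀ n ≥ N₀,
        ∫ x, (∫ y, f (T.fwd^[n] (x, y)).2 * g y ∂mm) ^ 2 ∂mm < ε

end Pool.Agent.R924.SM
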