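import Mathlib
import Pool.Agent.R924.SM.Stm

/-!
Piece DEC for MP_2967d5_an: decomposition of the correlation over a window.
-/

open MeasureTheory Set Filter Topology

set_option autoImplicit false

namespace Pool.Agent.R924.SM.DEC

section
variable {X Y : Type} [MeasurableSpace X] [MeasurableSpace Y] {m : Measure X} {η : Measure Y}
  [IsProbabilityMeasure m] [IsProbabilityMeasure η]

lemma jensen {Z : Type} [MeasurableSpace Z] (ν : Measure Z) [IsProbabilityMeasure ν] (u : Z → ℝ)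
    (hu : Measurable u) (D : ℝ) (hD : ∀ z, |u z| ≤ D) : (∫ z, u z ∂ν) ^ 2 ≤ ∫ z, u z ^ 2 ∂ν := by
  have h1 : Integrable u ν := Integrable.of_bound hu.aestronglyMeasurable D
    (Eventually.of_forall fun z => by rw [Real.norm_eq_abs]; exact hD z)
  have h2 : Integrable (fun z => u z ^ 2) ν := Integrable.of_bound
    (hu.pow_const 2).aestronglyMeasurable (D ^ 2)
    (Eventually.of_forall fun z => by
      rw [Real.norm_eq_abs, abs_pow]
      exact pow_le_pow_left₀ (abs_nonneg _) (hD z) 2)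
  obtain ⟨c, hc⟩ : ∃ c, c = ∫ z, u z ∂ν := ⟨_, rfl⟩
  have h3 : 0 ≤ ∫ z, (u z - c) ^ 2 ∂ν := integral_nonneg fun z => sq_nonneg _
  have h4 : ∫ z, (u z - c) ^ 2 ∂ν = ∫ z, u z ^ 2 ∂ν - c ^ 2 := by
    have h5 : (fun z => (u z - c) ^ 2) = fun z => (u z ^ 2 - 2 * c * u z) + c ^ 2 := by
      funext z; ring
    have h6 : Integrable (fun z => u z ^ 2 - 2 * c * u z) ν := h2.sub (h1.const_mul _)
    rw [h5, integral_add h6 (integrable_const _),
      integral_sub h2 (h1.const_mul _), integral_const_mul, ← hc]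
    simp
    ring
  rw [h4] at h3
  rw [← hc]
  linarith

lemma fibre_meas (u : X × Y → ℝ) (hu : Measurable u) :
    Measurable (fun x => ∫ y, u (x, y) ∂η) :=
  (StronglyMeasurable.integral_prod_right' (ν := η) hu.stronglyMeasurable).measurable

lemma fibre_bdd (u : X × Y → ℝ) (D : ℝ) (hD : ∀ z, |u z| ≤ D) (x : X) :
    |∫ y, u (x, y) ∂η| ≤ D := by
  have := norm_integral_le_of_norm_le_const (μ := η) (f := fun y => u (x, y)) (C := D)
    (Eventually.of_forall fun y => by rw [Real.norm_eq_abs]; exact hD _)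
  simpa using this

lemma fibre_sq_int (u : X × Y → ℝ) (hu : Measurable u) (D : ℝ) (hD : ∀ z, |u z| ≤ D) :
    Integrable (fun x => (∫ y, u (x, y) ∂η) ^ 2) m :=
  Integrable.of_bound ((fibre_meas u hu).pow_const 2).aestronglyMeasurable (D ^ 2)
    (Eventually.of_forall fun x => by
      rw [Real.norm_eq_abs, abs_pow]
      exact pow_le_pow_left₀ (abs_nonneg _) (fibre_bdd u D hD x) 2)

lemma sq_int {Z : Type} [MeasurableSpace Z] (ν : Measure Z) [IsProbabilityMeasure ν] (u : Z → ℝ)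
    (hu : Measurable u) (D : ℝ) (hD : ∀ z, |u z| ≤ D) : Integrable (fun z => u z ^ 2) ν :=
  Integrable.of_bound (hu.pow_const 2).aestronglyMeasurable (D ^ 2)
    (Eventually.of_forall fun z => by
      rw [Real.norm_eq_abs, abs_pow]
      exact pow_le_pow_left₀ (abs_nonneg _) (hD z) 2)

lemma fibre_sq_le (u : X × Y → ℝ) (hu : Measurable u) (D : ℝ) (hD : ∀ z, |u z| ≤ D) :
    ∫ x, (∫ y, u (x, y) ∂η) ^ 2 ∂m ≤ ∫ z, u z ^ 2 ∂(m.prod η) := by
  have h1 : Integrable (fun z => u z ^ 2) (m.prod η) := sq_int _ u hu D hD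
  rw [integral_prod _ h1]
  apply integral_mono (fibre_sq_int u hu D hD) h1.integral_prod_left
  intro x
  exact jensen η (fun y => u (x, y)) (hu.comp measurable_prodMk_left) D (fun y => hD _)

lemma ext_it {R : MPT m} {T : MPT (m.prod η)} (h : Ext R T) (j : ℕ) : Ext (R.it j) (T.it j) := by
  unfold Ext
  show ∀ᵐ z ∂(m.prod η), (T.fwd^[j] z).1 = R.fwd^[j] z.1
  induction j with
  | zero => simp
  | succ k ih =>
    filter_upwards [ih, (T.mp.iterate k).quasiMeasurePreserving.ae h] with z h1 h2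
    rw [Function.iterate_succ_apply', Function.iterate_succ_apply', h2, h1]

end

theorem main (h : S_CE) : S_DEC := by
  intro X Y _ _ m η _ _ R T hE f g hf hg hf1 hg1 N F G B hN hB hF hG hFB hGC n
  obtain ⟨C, hC⟩ := hGC
  have hC0 : ∀ j z, |G j z| ≤ |C| := fun j z => le_trans (hC j z) (le_abs_self C)
  -- the fibre function
  obtain ⟨H, hH⟩ : ∃ H : X × Y → ℝ, H = fun z => f (T.fwd^[n] z).2 * g z.2 := ⟨_, rfl⟩
  have hTm : ∀ j, Measurable (T.fwd^[j]) := fun j => (T.mp.iterate j).measurable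
  have hHm : Measurable H := by
    rw [hH]
    exact (hf.comp (measurable_snd.comp (hTm n))).mul (hg.comp measurable_snd)
  have hH1 : ∀ z, |H z| ≤ 1 := by
    intro z
    rw [hH, abs_mul]
    exact mul_le_one₀ (hf1 _) (abs_nonneg _) (hg1 _)
  have hHi : Integrable H (m.prod η) := Integrable.of_bound hHm.aestronglyMeasurable 1
    (Eventually.of_forall fun z => by rw [Real.norm_eq_abs]; exact hH1 z)
  have hlhs : ∫ x, (∫ y, f (T.fwd^[n] (x, y)).2 * g y ∂η) ^ 2 ∂m =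
      ∫ x, (∫ y, H (x, y) ∂η) ^ 2 ∂m := by rw [hH]
  rw [hlhs]
  -- one term
  have key : ∀ j, ∫ x, (∫ y, H (x, y) ∂η) ^ 2 ∂m ≤ 3 *
      ((∫ x, (∫ y, F j (T.fwd^[n] (x, y)) * G j (x, y) ∂η) ^ 2 ∂m) +
          (∫ z, (f (T.fwd^[j] z).2 - F j z) ^ 2 ∂(m.prod η)) +
          B ^ 2 * ∫ z, (g (T.fwd^[j] z).2 - G j z) ^ 2 ∂(m.prod η)) := by
    intro j
    obtain ⟨u1, hu1⟩ : ∃ u1 : X × Y → ℝ, u1 = fun z => (f (T.fwd^[j] (T.fwd^[n] z)).2 -
      F j (T.fwd^[n] z)) * g (T.fwd^[j] z).2 := ⟨_, rfl⟩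
    obtain ⟨u2, hu2⟩ : ∃ u2 : X × Y → ℝ, u2 = fun z => F j (T.fwd^[n] z) *
      (g (T.fwd^[j] z).2 - G j z) := ⟨_, rfl⟩
    obtain ⟨u3, hu3⟩ : ∃ u3 : X × Y → ℝ, u3 = fun z => F j (T.fwd^[n] z) * G j z := ⟨_, rfl⟩
    obtain ⟨v1, hv1⟩ : ∃ v1 : X × Y → ℝ, v1 = fun z => f (T.fwd^[j] z).2 - F j z := ⟨_, rfl⟩
    obtain ⟨v2, hv2⟩ : ∃ v2 : X × Y → ℝ, v2 = fun z => g (T.fwd^[j] z).2 - G j z := ⟨_, rfl⟩
    have mv1 : Measurable v1 := by
      rw [hv1]; exact (hf.comp (measurable_snd.comp (hTm j))).sub (hF j)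
    have mv2 : Measurable v2 := by
      rw [hv2]; exact (hg.comp (measurable_snd.comp (hTm j))).sub (hG j)
    have bv1 : ∀ z, |v1 z| ≤ 1 + B := by
      intro z
      rw [hv1]
      exact le_trans (abs_sub _ _) (add_le_add (hf1 _) (hFB j z))
    have bv2 : ∀ z, |v2 z| ≤ 1 + |C| := by
      intro z
      rw [hv2]
      exact le_trans (abs_sub _ _) (add_le_add (hg1 _) (hC0 j z))
    have mu1 : Measurable u1 := by
      have : u1 = fun z => v1 (T.fwd^[n] z) * g (T.fwd^[j] z).2 := by rw [hu1, hv1]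
      rw [this]
      exact (mv1.comp (hTm n)).mul (hg.comp (measurable_snd.comp (hTm j)))
    have mu2 : Measurable u2 := by
      have : u2 = fun z => F j (T.fwd^[n] z) * v2 z := by rw [hu2, hv2]
      rw [this]
      exact ((hF j).comp (hTm n)).mul mv2
    have mu3 : Measurable u3 := by
      rw [hu3]
      exact ((hF j).comp (hTm n)).mul (hG j)
    have bu1' : ∀ z, |u1 z| ≤ |v1 (T.fwd^[n] z)| := by
      intro z
      rw [hu1, hv1]
      show |(f (T.fwd^[j] (T.fwd^[n] z)).2 - F j (T.fwd^[n] z)) * g (T.fwd^[j] z).2| ≤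
        |f (T.fwd^[j] (T.fwd^[n] z)).2 - F j (T.fwd^[n] z)|
      rw [abs_mul]
      exact mul_le_of_le_one_right (abs_nonneg _) (hg1 _)
    have bu1 : ∀ z, |u1 z| ≤ 1 + B := fun z => le_trans (bu1' z) (bv1 _)
    have bu2' : ∀ z, |u2 z| ≤ B * |v2 z| := by
      intro z
      rw [hu2, hv2]
      show |F j (T.fwd^[n] z) * (g (T.fwd^[j] z).2 - G j z)| ≤ B * |g (T.fwd^[j] z).2 - G j z|
      rw [abs_mul]
      exact mul_le_mul_of_nonneg_right (hFB j _) (abs_nonneg _)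
    have bu2 : ∀ z, |u2 z| ≤ B * (1 + |C|) := fun z =>
      le_trans (bu2' z) (mul_le_mul_of_nonneg_left (bv2 z) hB)
    have bu3 : ∀ z, |u3 z| ≤ B * |C| := by
      intro z
      rw [hu3, abs_mul]
      exact mul_le_mul (hFB j _) (hC0 j z) (abs_nonneg _) hB
    -- equivariance
    have hce := h X Y m η (R.it j) (T.it j) (ext_it hE j) H hHi
    have hce' : ∀ᵐ x ∂m, ∫ y, H (R.fwd^[j] x, y) ∂η =
        (∫ y, u1 (x, y) ∂η) + (∫ y, u2 (x, y) ∂η) + (∫ y, u3 (x, y) ∂η) := by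
      filter_upwards [hce] with x hx
      have e1 : ∫ y, H ((T.it j).fwd (x, y)) ∂η = ∫ y, H ((R.it j).fwd x, y) ∂η := hx
      have e2 : ∫ y, H (R.fwd^[j] x, y) ∂η = ∫ y, H (T.fwd^[j] (x, y)) ∂η := e1.symm
      rw [e2]
      have i1 : Integrable (fun y => u1 (x, y)) η := Integrable.of_bound
        (mu1.comp measurable_prodMk_left).aestronglyMeasurable (1 + B)
        (Eventually.of_forall fun y => by rw [Real.norm_eq_abs]; exact bu1 _)
      have i2 : Integrable (fun y => u2 (x, y)) η := Integrable.of_bound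
        (mu2.comp measurable_prodMk_left).aestronglyMeasurable (B * (1 + |C|))
        (Eventually.of_forall fun y => by rw [Real.norm_eq_abs]; exact bu2 _)
      have i3 : Integrable (fun y => u3 (x, y)) η := Integrable.of_bound
        (mu3.comp measurable_prodMk_left).aestronglyMeasurable (B * |C|)
        (Eventually.of_forall fun y => by rw [Real.norm_eq_abs]; exact bu3 _)
      have i12 : Integrable (fun y => u1 (x, y) + u2 (x, y)) η := i1.add i2
      rw [← integral_add i1 i2, ← integral_add i12 i3]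
      apply integral_congr_ae
      apply Eventually.of_forall
      intro y
      show H (T.fwd^[j] (x, y)) = u1 (x, y) + u2 (x, y) + u3 (x, y)
      rw [hH, hu1, hu2, hu3]
      show f (T.fwd^[n] (T.fwd^[j] (x, y))).2 * g (T.fwd^[j] (x, y)).2 = _
      have e3 : T.fwd^[n] (T.fwd^[j] (x, y)) = T.fwd^[j] (T.fwd^[n] (x, y)) := by
        rw [← Function.iterate_add_apply, ← Function.iterate_add_apply, add_comm]
      rw [e3]
      ring
    -- invariance
    have hinv : ∫ x, (∫ y, H (x, y) ∂η) ^ 2 ∂m = ∫ x, (∫ y, H (R.fwd^[j] x, y) ∂η) ^ 2 ∂m := by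
      have e1 := (R.mp.iterate j).map_eq
      have e2 := integral_map (μ := m) (φ := R.fwd^[j]) (R.mp.iterate j).measurable.aemeasurable
        (f := fun x => (∫ y, H (x, y) ∂η) ^ 2)
        ((fibre_meas H hHm).pow_const 2).aestronglyMeasurable
      rw [e1] at e2
      exact e2
    rw [hinv]
    have I1 : Integrable (fun x => (∫ y, u1 (x, y) ∂η) ^ 2) m := fibre_sq_int u1 mu1 _ bu1
    have I2 : Integrable (fun x => (∫ y, u2 (x, y) ∂η) ^ 2) m := fibre_sq_int u2 mu2 _ bu2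
    have I3 : Integrable (fun x => (∫ y, u3 (x, y) ∂η) ^ 2) m := fibre_sq_int u3 mu3 _ bu3
    have hstep : ∫ x, (∫ y, H (R.fwd^[j] x, y) ∂η) ^ 2 ∂m ≤
        ∫ x, 3 * ((∫ y, u1 (x, y) ∂η) ^ 2 + (∫ y, u2 (x, y) ∂η) ^ 2 +
          (∫ y, u3 (x, y) ∂η) ^ 2) ∂m := by
      apply integral_mono_ae
      · have := fibre_sq_int (m := m) (η := η) H hHm 1 hH1
        exact ((R.mp.iterate j).integrable_comp
          ((fibre_meas H hHm).pow_const 2).aestronglyMeasurable).2 this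
      · exact ((I1.add I2).add I3).const_mul 3
      · filter_upwards [hce'] with x hx
        rw [hx]
        nlinarith [sq_nonneg ((∫ y, u1 (x, y) ∂η) - (∫ y, u2 (x, y) ∂η)),
          sq_nonneg ((∫ y, u1 (x, y) ∂η) - (∫ y, u3 (x, y) ∂η)),
          sq_nonneg ((∫ y, u2 (x, y) ∂η) - (∫ y, u3 (x, y) ∂η))]
    refine le_trans hstep ?_
    have I12 : Integrable (fun x => (∫ y, u1 (x, y) ∂η) ^ 2 + (∫ y, u2 (x, y) ∂η) ^ 2) m :=
      I1.add I2
    rw [integral_const_mul, integral_add I12 I3, integral_add I1 I2]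
    have J1 : ∫ x, (∫ y, u1 (x, y) ∂η) ^ 2 ∂m ≤ ∫ z, v1 z ^ 2 ∂(m.prod η) := by
      refine le_trans (fibre_sq_le u1 mu1 _ bu1) ?_
      have e2 := integral_map (μ := m.prod η) (φ := T.fwd^[n])
        (T.mp.iterate n).measurable.aemeasurable (f := fun z => v1 z ^ 2)
        (mv1.pow_const 2).aestronglyMeasurable
      rw [(T.mp.iterate n).map_eq] at e2
      rw [e2]
      apply integral_mono (sq_int _ u1 mu1 _ bu1)
        (sq_int _ (fun z => v1 (T.fwd^[n] z)) (mv1.comp (hTm n)) _ (fun z => bv1 _))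
      intro z
      show u1 z ^ 2 ≤ v1 (T.fwd^[n] z) ^ 2
      rw [← sq_abs (u1 z), ← sq_abs (v1 (T.fwd^[n] z))]
      exact pow_le_pow_left₀ (abs_nonneg _) (bu1' z) 2
    have J2 : ∫ x, (∫ y, u2 (x, y) ∂η) ^ 2 ∂m ≤ B ^ 2 * ∫ z, v2 z ^ 2 ∂(m.prod η) := by
      refine le_trans (fibre_sq_le u2 mu2 _ bu2) ?_
      rw [← integral_const_mul]
      apply integral_mono (sq_int _ u2 mu2 _ bu2) ((sq_int _ v2 mv2 _ bv2).const_mul _)
      intro z
      show u2 z ^ 2 ≤ B ^ 2 * v2 z ^ 2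
      rw [← sq_abs (u2 z), ← sq_abs (v2 z), ← mul_pow]
      exact pow_le_pow_left₀ (abs_nonneg _) (bu2' z) 2
    rw [hv1] at J1
    rw [hv2] at J2
    rw [hu3]
    linarith
  have hsum : ∑ j ∈ Finset.range N, ∫ x, (∫ y, H (x, y) ∂η) ^ 2 ∂m ≤
      ∑ j ∈ Finset.range N, 3 *
      ((∫ x, (∫ y, F j (T.fwd^[n] (x, y)) * G j (x, y) ∂η) ^ 2 ∂m) +
          (∫ z, (f (T.fwd^[j] z).2 - F j z) ^ 2 ∂(m.prod η)) +
          B ^ 2 * ∫ z, (g (T.fwd^[j] z).2 - G j z) ^ 2 ∂(m.prod η)) :=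
    Finset.sum_le_sum fun j _ => key j
  rw [Finset.sum_const, Finset.card_range, nsmul_eq_mul, ← Finset.mul_sum] at hsum
  exact hsum

end Pool.Agent.R924.SM.DEC
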