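import Pool.Agent.R924.SM.Stm

open MeasureTheory Set Filter Topology

set_option autoImplicit false

namespace Pool.Agent.R924.SM.DENS

section
variable {X Y : Type} [mX : MeasurableSpace X] [mY : MeasurableSpace Y]

/-- Finite combinations of indicators of rectangles. -/
def RC (C : Set (Set Y)) (g : X × Y → ℝ) : Prop :=
  ∃ (n : ℕ) (A : Fin n → Set X) (E : Fin n → Set Y) (c : Fin n → ℝ),
    (∀ i, MeasurableSet (A i)) ∧ (∀ i, E i ∈ C) ∧
    g = fun z => ∑ i, c i * (A i).indicator 1 z.1 * (E i).indicator 1 z.2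

omit mY in
theorem RC.add {C : Set (Set Y)} {f g : X × Y → ℝ} (hf : RC C f) (hg : RC C g) :
    RC C (f + g) := by
  obtain ⟨n, A, E, c, hA, hE, rfl⟩ := hf
  obtain ⟨n', A', E', c', hA', hE', rfl⟩ := hg
  refine ⟨n + n', Fin.append A A', Fin.append E E', Fin.append c c', ?_, ?_, ?_⟩
  · intro i
    refine Fin.addCases (fun i => ?_) (fun i => ?_) i
    · rw [Fin.append_left]; exact hA i
    · rw [Fin.append_right]; exact hA' i
  · intro i
    refine Fin.addCases (fun i => ?_) (fun i => ?_) i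
    · rw [Fin.append_left]; exact hE i
    · rw [Fin.append_right]; exact hE' i
  · funext z
    simp only [Pi.add_apply, Fin.sum_univ_add, Fin.append_left, Fin.append_right]

omit mY in
theorem RC.neg {C : Set (Set Y)} {f : X × Y → ℝ} (hf : RC C f) : RC C (-f) := by
  obtain ⟨n, A, E, c, hA, hE, rfl⟩ := hf
  refine ⟨n, A, E, fun i => -c i, hA, hE, ?_⟩
  funext z
  simp only [Pi.neg_apply, ← Finset.sum_neg_distrib]
  apply Finset.sum_congr rfl
  intro i _
  ring

theorem RC.rect {C : Set (Set Y)} {A : Set X} {E : Set Y} (hA : MeasurableSet A) (hE : E ∈ C)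
    (c : ℝ) : RC C ((A ×ˢ E).indicator fun _ => c) := by
  refine ⟨1, fun _ => A, fun _ => E, fun _ => c, fun _ => hA, fun _ => hE, ?_⟩
  funext z
  simp only [Finset.univ_unique, Finset.sum_const, Finset.card_singleton, one_smul]
  by_cases h1 : z.1 ∈ A <;> by_cases h2 : z.2 ∈ E <;> simp [h1, h2, indicator]

theorem RC.memLp {C : Set (Set Y)} (hC : ∀ E ∈ C, MeasurableSet E) {f : X × Y → ℝ}
    (hf : RC C f) (μ : Measure (X × Y)) [IsFiniteMeasure μ] : MemLp f 2 μ := by
  obtain ⟨n, A, E, c, hA, hE, rfl⟩ := hf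
  apply memLp_finset_sum
  intro i _
  have e : (fun z : X × Y => c i * (A i).indicator 1 z.1 * (E i).indicator 1 z.2)
      = (A i ×ˢ E i).indicator fun _ => c i := by
    funext z
    by_cases h1 : z.1 ∈ A i <;> by_cases h2 : z.2 ∈ E i <;> simp [h1, h2, indicator]
  rw [e]
  exact memLp_indicator_const 2 ((hA i).prod (hC _ (hE i))) (c i) (Or.inr (measure_ne_top _ _))

/-- The closure. -/
def Cl (C : Set (Set Y)) (μ : Measure (X × Y)) (h : X × Y → ℝ) : Prop :=
  MemLp h 2 μ ∧ ∀ ε : ENNReal, ε ≠ 0 → ∃ g, RC C g ∧ eLpNorm (h - g) 2 μ ≤ ε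

theorem half_ne {ε : ENNReal} (h : ε ≠ 0) : ε / 2 ≠ 0 := (ENNReal.half_pos h).ne'

theorem Cl.of {C : Set (Set Y)} (hC : ∀ E ∈ C, MeasurableSet E) {f : X × Y → ℝ}
    (hf : RC C f) (μ : Measure (X × Y)) [IsFiniteMeasure μ] : Cl C μ f :=
  ⟨hf.memLp hC μ, fun ε _ => ⟨f, hf, by simp⟩⟩

theorem Cl.add {C : Set (Set Y)} (hC : ∀ E ∈ C, MeasurableSet E) {μ : Measure (X × Y)}
    [IsFiniteMeasure μ] {f g : X × Y → ℝ} (hf : Cl C μ f) (hg : Cl C μ g) : Cl C μ (f + g) := by
  refine ⟨hf.1.add hg.1, fun ε hε => ?_⟩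
  obtain ⟨f', hf', e1⟩ := hf.2 (ε / 2) (half_ne hε)
  obtain ⟨g', hg', e2⟩ := hg.2 (ε / 2) (half_ne hε)
  refine ⟨f' + g', hf'.add hg', ?_⟩
  have e : f + g - (f' + g') = (f - f') + (g - g') := by ring
  rw [e]
  calc eLpNorm ((f - f') + (g - g')) 2 μ ≤ eLpNorm (f - f') 2 μ + eLpNorm (g - g') 2 μ :=
        eLpNorm_add_le (hf.1.sub (hf'.memLp hC μ)).1 (hg.1.sub (hg'.memLp hC μ)).1 (by norm_num)
    _ ≤ ε / 2 + ε / 2 := add_le_add e1 e2
    _ = ε := ENNReal.add_halves ε

theorem Cl.neg {C : Set (Set Y)} {μ : Measure (X × Y)}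
    {f : X × Y → ℝ} (hf : Cl C μ f) : Cl C μ (-f) := by
  refine ⟨hf.1.neg, fun ε hε => ?_⟩
  obtain ⟨f', hf', e1⟩ := hf.2 ε hε
  refine ⟨-f', hf'.neg, ?_⟩
  have e : -f - -f' = -(f - f') := by ring
  rw [e, eLpNorm_neg]
  exact e1

theorem Cl.sum {C : Set (Set Y)} (hC : ∀ E ∈ C, MeasurableSet E) {μ : Measure (X × Y)}
    [IsFiniteMeasure μ] {f : ℕ → X × Y → ℝ} (hf : ∀ n, Cl C μ (f n)) (N : ℕ) :
    Cl C μ (∑ n ∈ Finset.range N, f n) := by
  induction N with
  | zero =>
    rw [Finset.sum_range_zero]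
    refine Cl.of hC ?_ μ
    exact ⟨0, fun _ => ∅, fun _ => ∅, fun _ => 0, fun i => i.elim0, fun i => i.elim0, by
      funext z; simp⟩
  | succ n ih =>
    rw [Finset.sum_range_succ]
    exact ih.add hC (hf n)

theorem Cl.lim {C : Set (Set Y)} (hC : ∀ E ∈ C, MeasurableSet E) {μ : Measure (X × Y)}
    [IsFiniteMeasure μ] {h : X × Y → ℝ} (hm : MemLp h 2 μ)
    (H : ∀ ε : ENNReal, ε ≠ 0 → ∃ h', Cl C μ h' ∧ eLpNorm (h - h') 2 μ ≤ ε) : Cl C μ h := by
  refine ⟨hm, fun ε hε => ?_⟩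
  obtain ⟨h', hh', e1⟩ := H (ε / 2) (half_ne hε)
  obtain ⟨g, hg, e2⟩ := hh'.2 (ε / 2) (half_ne hε)
  refine ⟨g, hg, ?_⟩
  have e : h - g = (h - h') + (h' - g) := by ring
  rw [e]
  calc eLpNorm ((h - h') + (h' - g)) 2 μ ≤ eLpNorm (h - h') 2 μ + eLpNorm (h' - g) 2 μ :=
        eLpNorm_add_le (hm.sub hh'.1).1 (hh'.1.sub (hg.memLp hC μ)).1 (by norm_num)
    _ ≤ ε / 2 + ε / 2 := add_le_add e1 e2
    _ = ε := ENNReal.add_halves ε

theorem clInd {C : Set (Set Y)} (hpi : IsPiSystem C) (hu : univ ∈ C)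
    (hm : mY = MeasurableSpace.generateFrom C) (μ : Measure (X × Y)) [IsFiniteMeasure μ] (c : ℝ)
    (S : Set (X × Y)) (hS : MeasurableSet S) : Cl C μ (S.indicator fun _ => c) := by
  have hC : ∀ E ∈ C, MeasurableSet E := by
    intro E hE
    rw [hm]
    exact MeasurableSpace.measurableSet_generateFrom hE
  have hCs : IsCountablySpanning C := ⟨fun _ => univ, fun _ => hu, iUnion_const univ⟩
  have h_eq : (Prod.instMeasurableSpace : MeasurableSpace (X × Y)) =
      MeasurableSpace.generateFrom (image2 (· ×ˢ ·) {s : Set X | MeasurableSet s} C) := by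
    rw [← generateFrom_prod_eq isCountablySpanning_measurableSet hCs,
      MeasurableSpace.generateFrom_measurableSet, ← hm]
  have hmem : ∀ S : Set (X × Y), MeasurableSet S → MemLp (S.indicator fun _ => c) 2 μ :=
    fun S hS => memLp_indicator_const 2 hS c (Or.inr (measure_ne_top _ _))
  induction S, hS using MeasurableSpace.induction_on_inter h_eq
    (MeasurableSpace.isPiSystem_measurableSet.prod hpi) with
  | empty =>
    rw [indicator_empty]
    have := Cl.sum hC (μ := μ) (f := fun _ => 0) (fun n => Cl.of hC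
      ⟨0, fun _ => ∅, fun _ => ∅, fun _ => 0, fun i => i.elim0, fun i => i.elim0, by
        funext z; simp⟩ μ) 0
    rwa [Finset.sum_range_zero] at this
  | basic t ht =>
    obtain ⟨A, hA, E, hE, rfl⟩ := ht
    exact Cl.of hC (RC.rect hA hE c) μ
  | compl t ht ih =>
    have h1 : Cl C μ ((univ ×ˢ univ : Set (X × Y)).indicator fun _ => c) :=
      Cl.of hC (RC.rect MeasurableSet.univ hu c) μ
    have h2 := h1.add hC ih.neg
    have e : ((univ ×ˢ univ : Set (X × Y)).indicator fun _ => c) + -(t.indicator fun _ => c)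
        = tᶜ.indicator fun _ => c := by
      funext z
      by_cases hz : z ∈ t <;> simp [hz]
    rwa [e] at h2
  | iUnion f hd hfm ih =>
    refine Cl.lim hC (hmem _ (MeasurableSet.iUnion hfm)) ?_
    intro ε hε
    have ht : Tendsto (μ ∘ fun n => ⋃ i ≥ n, f i) atTop (𝓝 0) :=
      tendsto_measure_biUnion_Ici_zero_of_pairwise_disjoint
        (fun i => (hfm i).nullMeasurableSet) hd
    have ht2 : Tendsto (fun n => ‖c‖ₑ * ((μ ∘ fun n => ⋃ i ≥ n, f i) n) ^
        (1 / (2 : ENNReal).toReal)) atTop (𝓝 (‖c‖ₑ * 0 ^ (1 / (2 : ENNReal).toReal))) := by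
      apply ENNReal.Tendsto.const_mul
      · exact ((ENNReal.continuous_rpow_const).tendsto 0).comp ht
      · right; exact enorm_ne_top
    have h0 : ‖c‖ₑ * (0 : ENNReal) ^ (1 / (2 : ENNReal).toReal) = 0 := by
      rw [ENNReal.zero_rpow_of_pos (by norm_num), mul_zero]
    rw [h0] at ht2
    obtain ⟨N, hN⟩ := ((ENNReal.tendsto_nhds_zero.1 ht2) ε (pos_iff_ne_zero.2 hε)).exists
    refine ⟨_, Cl.sum hC ih N, ?_⟩
    have e : ((⋃ i, f i).indicator fun _ => c) - ∑ n ∈ Finset.range N, ((f n).indicator fun _ => c)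
        = (⋃ i ≥ N, f i).indicator fun _ => c := by
      funext z
      simp only [Pi.sub_apply, Finset.sum_apply]
      by_cases hz : ∃ k, z ∈ f k
      · obtain ⟨k, hk⟩ := hz
        have huniq : ∀ i, z ∈ f i → i = k := by
          intro i hi
          by_contra hne
          exact Set.disjoint_left.1 (hd hne) hi hk
        have e1 : (⋃ i, f i).indicator (fun _ => c) z = c :=
          indicator_of_mem (mem_iUnion.2 ⟨k, hk⟩) _
        have e2 : ∀ n, (f n).indicator (fun _ => c) z = if n = k then c else 0 := by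
          intro n
          by_cases h : n = k
          · subst h; rw [indicator_of_mem hk, if_pos rfl]
          · rw [indicator_of_notMem (fun hn => h (huniq n hn)), if_neg h]
        rw [e1, Finset.sum_congr rfl (fun n _ => e2 n), Finset.sum_ite_eq']
        by_cases hkN : k < N
        · rw [if_pos (Finset.mem_range.2 hkN), indicator_of_notMem, sub_self]
          intro hz
          simp only [mem_iUnion] at hz
          obtain ⟨i, hi, hzi⟩ := hz
          have := huniq i hzi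
          omega
        · rw [if_neg (fun h => hkN (Finset.mem_range.1 h)), indicator_of_mem, sub_zero]
          simp only [mem_iUnion]
          exact ⟨k, not_lt.1 hkN, hk⟩
      · have hz' : ∀ k, z ∉ f k := fun k hk => hz ⟨k, hk⟩
        rw [indicator_of_notMem (by simpa using hz'), indicator_of_notMem]
        · rw [Finset.sum_eq_zero, sub_zero]
          intro n _
          exact indicator_of_notMem (hz' n) _
        · intro h
          simp only [mem_iUnion] at h
          obtain ⟨i, _, hi⟩ := h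
          exact hz' i hi
    rw [e]
    exact le_trans (eLpNorm_indicator_const_le c 2) hN

theorem conv {Z : Type} [MeasurableSpace Z] {μ : Measure Z} {G : Z → ℝ} (hG : MemLp G 2 μ)
    {ε : ℝ} (hε : 0 < ε)
    (h : eLpNorm G 2 μ < ENNReal.ofReal (Real.sqrt ε)) : ∫ z, G z ^ 2 ∂μ < ε := by
  rw [hG.eLpNorm_eq_integral_rpow_norm two_ne_zero ENNReal.ofNat_ne_top,
    ENNReal.ofReal_lt_ofReal_iff (Real.sqrt_pos.2 hε)] at h
  have e : (∫ a, ‖G a‖ ^ (2 : ENNReal).toReal ∂μ) = ∫ z, G z ^ 2 ∂μ := by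
    apply integral_congr_ae
    refine Eventually.of_forall fun z => ?_
    simp
  rw [e] at h
  have e2 : ((2 : ENNReal).toReal)⁻¹ = 1 / 2 := by norm_num
  rw [e2, ← Real.sqrt_eq_rpow] at h
  exact lt_of_not_ge fun h' => absurd h (not_lt.2 (Real.sqrt_le_sqrt h'))

end

theorem main : S_DENS := by
  intro X Y _ mY m η _ _ C hpi hu hm F hF ε hε
  have hC : ∀ E ∈ C, MeasurableSet E := by
    intro E hE
    rw [hm]
    exact MeasurableSpace.measurableSet_generateFrom hE
  have hs : 0 < ENNReal.ofReal (Real.sqrt ε) := ENNReal.ofReal_pos.2 (Real.sqrt_pos.2 hε)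
  obtain ⟨g, hg, hgR⟩ : ∃ g : X × Y → ℝ, eLpNorm (F - g) 2 (m.prod η) ≤
      ENNReal.ofReal (Real.sqrt ε) / 2 ∧ RC C g := by
    refine MemLp.induction_dense (by norm_num) (RC C) ?_ (fun f g => RC.add)
      (fun f hf => (hf.memLp hC _).1) hF (half_ne hs.ne')
    intro c s hs _ δ hδ
    obtain ⟨g, hg, hgd⟩ := (clInd hpi hu hm (m.prod η) c s hs).2 δ hδ
    exact ⟨g, by rw [eLpNorm_sub_comm]; exact hgd, hg⟩
  have hlt : eLpNorm (F - g) 2 (m.prod η) < ENNReal.ofReal (Real.sqrt ε) :=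
    lt_of_le_of_lt hg (ENNReal.half_lt_self hs.ne' ENNReal.ofReal_ne_top)
  have h1 := conv (hF.sub (hgR.memLp hC _)) hε hlt
  obtain ⟨n, A, E, c, hA, hE, rfl⟩ := hgR
  exact ⟨n, A, E, c, hA, hE, h1⟩

end Pool.Agent.R924.SM.DENS
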