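import Mathlib

/-!
Definitions for MP_2967d5_an (strongly mixing extensions of a fixed factor).
-/

open MeasureTheory Set Filter Topology

set_option autoImplicit false

namespace Pool.Agent.R924.SM

/-- An invertible measure preserving transformation of `(Z, μ)`: a measurable measure preserving
map together with a measurable measure preserving map inverse to it off null sets. -/
structure MPT {Z : Type} [MeasurableSpace Z] (μ : Measure Z) where
  fwd : Z → Z
  bwd : Z → Z
  mp : MeasurePreserving fwd μ μ
  mp' : MeasurePreserving bwd μ μ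
  bf : ∀ᵐ z ∂μ, bwd (fwd z) = z
  fb : ∀ᵐ z ∂μ, fwd (bwd z) = z

section
variable {Z : Type} [MeasurableSpace Z] {μ : Measure Z}

/-- `N_ε(T; E) = {S : μ (T E ∆ S E) < ε}`; the image `T E` is the preimage of `E` under the
inverse of `T`. -/
def nbd (T : MPT μ) (E : Set Z) (ε : ENNReal) : Set (MPT μ) :=
  {S | μ (symmDiff (T.bwd ⁻¹' E) (S.bwd ⁻¹' E)) < ε}

/-- The weak topology: generated by the sets `N_ε(T; E)`, `ε > 0`, `E` measurable. -/
instance weakTop : TopologicalSpace (MPT μ) :=
  TopologicalSpace.generateFrom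
    {N | ∃ (T : MPT μ) (E : Set Z) (ε : ENNReal), MeasurableSet E ∧ 0 < ε ∧ N = nbd T E ε}

/-- The identity. -/
def MPT.one (μ : Measure Z) : MPT μ :=
  ⟨id, id, MeasurePreserving.id μ, MeasurePreserving.id μ, by simp, by simp⟩

/-- The inverse. -/
def MPT.inv (T : MPT μ) : MPT μ := ⟨T.bwd, T.fwd, T.mp', T.mp, T.fb, T.bf⟩

/-- The composition `S ∘ T`. -/
def MPT.comp (S T : MPT μ) : MPT μ where
  fwd := S.fwd ∘ T.fwd
  bwd := T.bwd ∘ S.bwd
  mp := S.mp.comp T.mp
  mp' := T.mp'.comp S.mp'
  bf := by
    filter_upwards [T.mp.quasiMeasurePreserving.ae S.bf, T.bf] with z h1 h2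
    simp only [Function.comp_apply] at *
    rw [h1, h2]
  fb := by
    filter_upwards [S.mp'.quasiMeasurePreserving.ae T.fb, S.fb] with z h1 h2
    simp only [Function.comp_apply] at *
    rw [h1, h2]

/-- The iterates `T ^ n`, `n ≥ 0`. -/
def MPT.it (T : MPT μ) (n : ℕ) : MPT μ where
  fwd := T.fwd^[n]
  bwd := T.bwd^[n]
  mp := T.mp.iterate n
  mp' := T.mp'.iterate n
  bf := by
    induction n with
    | zero => simp
    | succ k ih =>
      filter_upwards [ih, (T.mp.iterate k).quasiMeasurePreserving.ae T.bf] with z h1 h2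
      rw [Function.iterate_succ_apply' T.fwd, Function.iterate_succ_apply T.bwd, h2, h1]
  fb := by
    induction n with
    | zero => simp
    | succ k ih =>
      filter_upwards [ih, (T.mp'.iterate k).quasiMeasurePreserving.ae T.fb] with z h1 h2
      rw [Function.iterate_succ_apply' T.bwd, Function.iterate_succ_apply T.fwd, h2, h1]

/-- An invertible measure preserving map as an `MPT`. -/
def MPT.ofEquiv (e : Z ≃ᵐ Z) (h : MeasurePreserving e μ μ) : MPT μ :=
  ⟨e, e.symm, h, h.symm e, by simp, by simp⟩

end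

section
variable {X Y : Type} [MeasurableSpace X] [MeasurableSpace Y] {m : Measure X} {η : Measure Y}

/-- `T` extends `R`: `π ∘ T = R ∘ π` almost everywhere. -/
def Ext (R : MPT m) (T : MPT (m.prod η)) : Prop :=
  ∀ᵐ z ∂(m.prod η), (T.fwd z).1 = R.fwd z.1

/-- The space `G_R` of all extensions of `R`, with the subspace topology. -/
def GR (η : Measure Y) (R : MPT m) : Type := {T : MPT (m.prod η) // Ext R T}

instance (R : MPT m) : TopologicalSpace (GR η R) :=
  inferInstanceAs (TopologicalSpace {T : MPT (m.prod η) // Ext R T})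

/-- `L^2(Z | X)`: measurable `f` with `E(|f|^2 | X)` essentially bounded. -/
def InL (m : Measure X) (η : Measure Y) (f : X × Y → ℂ) : Prop :=
  Measurable f ∧ ∃ C : NNReal, ∀ᵐ x ∂m, ∫⁻ y, ‖f (x, y)‖ₑ ^ 2 ∂η ≤ C

/-- `T` is a strongly mixing extension of `R`. -/
def StronglyMixing (R : MPT m) (T : MPT (m.prod η)) : Prop :=
  Ext R T ∧ ∀ f g : X × Y → ℂ, InL m η f → InL m η g →
    Tendsto (fun n : ℕ => ∫ x, ‖(∫ y, f (T.fwd^[n] (x, y)) * (starRingEnd ℂ) (g (x, y)) ∂η)
      - (∫ y, f (R.fwd^[n] x, y) ∂η) * ∫ y, (starRingEnd ℂ) (g (x, y)) ∂η‖ ^ 2 ∂m)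
      atTop (𝓝 0)

end

/-- The space of two-sided sequences in the unit interval. -/
abbrev XX : Type := ℤ → unitInterval

/-- The product of the Lebesgue measures. -/
noncomputable def mm : Measure XX := Measure.infinitePi (fun _ : ℤ => (volume : Measure unitInterval))

instance : IsProbabilityMeasure mm := by unfold mm; infer_instance

/-- The shift `(σ x) i = x (i + 1)`. -/
def sh : XX → XX := fun x i => x (i + 1)

/-- The inverse shift. -/
def shi : XX → XX := fun x i => x (i - 1)

theorem measurable_sh : Measurable sh := by unfold sh; fun_prop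
theorem measurable_shi : Measurable shi := by unfold shi; fun_prop

theorem sh_shi (x : XX) : sh (shi x) = x := by funext i; simp [sh, shi]
theorem shi_sh (x : XX) : shi (sh x) = x := by funext i; simp [sh, shi]

theorem mp_sh : MeasurePreserving sh mm mm := by
  refine ⟨measurable_sh, ?_⟩
  have h := Measure.infinitePi_map_piCongrLeft (μ := fun _ : ℤ => (volume : Measure unitInterval))
    (Equiv.subRight (1 : ℤ))
  have e : (MeasurableEquiv.piCongrLeft (fun _ : ℤ => unitInterval) (Equiv.subRight (1 : ℤ)) : XX → XX)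
      = sh := by
    funext x i
    have := Equiv.piCongrLeft_apply_apply (P := fun _ : ℤ => unitInterval) (Equiv.subRight (1 : ℤ)) x (i + 1)
    simp only [Equiv.subRight_apply, add_sub_cancel_right] at this
    exact this
  rw [e] at h
  exact h

theorem mp_shi : MeasurePreserving shi mm mm := by
  have h : MeasurePreserving (⟨⟨sh, shi, shi_sh, sh_shi⟩, measurable_sh, measurable_shi⟩ : XX ≃ᵐ XX) mm mm := mp_sh
  exact h.symm

/-- The shift as a transformation. -/
noncomputable def RR : MPT mm := ⟨sh, shi, mp_sh, mp_shi, by simp [shi_sh], by simp [sh_shi]⟩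

end Pool.Agent.R924.SM
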