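import Pool.Agent.R924.SM.Stm

/-!
# Piece EXT: strong mixing has only to be checked on a generating pi-system
-/

open MeasureTheory Set Filter Topology
open scoped ENNReal ComplexConjugate

set_option autoImplicit false
set_option linter.unusedSectionVars false

namespace Pool.Agent.R924.SM.EXT

theorem add_sq (u v : ℂ) : ‖u + v‖ₑ ^ 2 ≤ 2 * (‖u‖ₑ ^ 2 + ‖v‖ₑ ^ 2) := by
  have h1 : ‖u + v‖ ^ 2 ≤ 2 * (‖u‖ ^ 2 + ‖v‖ ^ 2) := by
    have h2 := norm_add_le u v
    nlinarith [norm_nonneg u, norm_nonneg v, norm_nonneg (u + v), sq_nonneg (‖u‖ - ‖v‖)]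
  rw [← ofReal_norm, ← ofReal_norm, ← ofReal_norm,
    ← ENNReal.ofReal_pow (norm_nonneg _), ← ENNReal.ofReal_pow (norm_nonneg _),
    ← ENNReal.ofReal_pow (norm_nonneg _), ← ENNReal.ofReal_add (by positivity) (by positivity)]
  have h3 : (2 : ℝ≥0∞) = ENNReal.ofReal 2 := by simp
  rw [h3, ← ENNReal.ofReal_mul (by norm_num)]
  exact ENNReal.ofReal_le_ofReal h1

section
variable {X Y : Type} [MeasurableSpace X] [MeasurableSpace Y]

theorem cs (η : Measure Y) (a b : Y → ℂ) (ha : Measurable a) (hb : Measurable b) :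
    ‖∫ y, a y * b y ∂η‖ₑ ^ 2 ≤ (∫⁻ y, ‖a y‖ₑ ^ 2 ∂η) * ∫⁻ y, ‖b y‖ₑ ^ 2 ∂η := by
  have h1 : ‖∫ y, a y * b y ∂η‖ₑ ≤ ∫⁻ y, ‖a y‖ₑ * ‖b y‖ₑ ∂η := by
    refine (enorm_integral_le_lintegral_enorm _).trans (le_of_eq ?_)
    simp only [enorm_mul]
  have h2 := ENNReal.lintegral_mul_le_Lp_mul_Lq η Real.HolderConjugate.two_two
    (f := fun y => ‖a y‖ₑ) (g := fun y => ‖b y‖ₑ) ha.enorm.aemeasurable hb.enorm.aemeasurable
  simp only [Pi.mul_apply] at h2
  have h3 := pow_le_pow_left' (h1.trans h2) 2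
  refine h3.trans (le_of_eq ?_)
  rw [mul_pow]
  have h4 : ∀ t : ℝ≥0∞, (t ^ (1 / (2 : ℝ))) ^ 2 = t := by
    intro t
    rw [← ENNReal.rpow_natCast, ← ENNReal.rpow_mul]
    norm_num
  rw [h4, h4]
  simp

/-- the difference of the correlations -/
noncomputable def D (η : Measure Y) (T : X × Y → X × Y) (R : X → X) (f g : X × Y → ℂ) (x : X) :
    ℂ :=
  (∫ y, f (T (x, y)) * conj (g (x, y)) ∂η) - (∫ y, f (R x, y) ∂η) * ∫ y, conj (g (x, y)) ∂η

/-- the square of its norm -/
noncomputable def q (m : Measure X) (η : Measure Y) (T : X × Y → X × Y) (R : X → X)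
    (f g : X × Y → ℂ) : ℝ≥0∞ := ∫⁻ x, ‖D η T R f g x‖ₑ ^ 2 ∂m

variable {m : Measure X} {η : Measure Y} [IsProbabilityMeasure m] [IsProbabilityMeasure η]

theorem D_le (T : X × Y → X × Y) (R : X → X) (hT : Measurable T) (f g : X × Y → ℂ)
    (hf : Measurable f) (hg : Measurable g) (x : X) :
    ‖D η T R f g x‖ₑ ^ 2 ≤ 2 * ((∫⁻ y, ‖f (T (x, y))‖ₑ ^ 2 ∂η) +
      (∫⁻ y, ‖f (R x, y)‖ₑ ^ 2 ∂η)) * ∫⁻ y, ‖g (x, y)‖ₑ ^ 2 ∂η := by
  have hgx : Measurable fun y => conj (g (x, y)) :=
    (Complex.continuous_conj.measurable).comp (hg.comp measurable_prodMk_left)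
  have hc : ∀ y, ‖conj (g (x, y))‖ₑ = ‖g (x, y)‖ₑ := by
    intro y
    rw [← ofReal_norm, ← ofReal_norm, RCLike.norm_conj]
  have h1 := cs η (fun y => f (T (x, y))) (fun y => conj (g (x, y)))
    (hf.comp (hT.comp measurable_prodMk_left)) hgx
  have h2 := cs η (fun y => f (R x, y)) (fun _ => 1) (hf.comp measurable_prodMk_left)
    measurable_const
  have h3 := cs η (fun y => conj (g (x, y))) (fun _ => 1) hgx measurable_const
  simp only [mul_one, hc, enorm_one, one_pow, lintegral_const, measure_univ] at h1 h2 h3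
  unfold D
  rw [sub_eq_add_neg]
  refine (add_sq _ _).trans ?_
  rw [enorm_neg, enorm_mul, mul_pow]
  calc 2 * (‖∫ y, f (T (x, y)) * conj (g (x, y)) ∂η‖ₑ ^ 2 +
        ‖∫ y, f (R x, y) ∂η‖ₑ ^ 2 * ‖∫ y, conj (g (x, y)) ∂η‖ₑ ^ 2)
      ≤ 2 * ((∫⁻ y, ‖f (T (x, y))‖ₑ ^ 2 ∂η) * (∫⁻ y, ‖g (x, y)‖ₑ ^ 2 ∂η) +
        (∫⁻ y, ‖f (R x, y)‖ₑ ^ 2 ∂η) * (∫⁻ y, ‖g (x, y)‖ₑ ^ 2 ∂η)) := by gcongr
    _ = _ := by ring

theorem q_le_left (T : X × Y → X × Y) (R : X → X) (hT : MeasurePreserving T (m.prod η) (m.prod η))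
    (hR : MeasurePreserving R m m) (f g : X × Y → ℂ)
    (hf : Measurable f) (hg : Measurable g) (C : ℝ≥0∞)
    (hC : ∀ᵐ x ∂m, ∫⁻ y, ‖g (x, y)‖ₑ ^ 2 ∂η ≤ C) :
    q m η T R f g ≤ 4 * C * ∫⁻ z, ‖f z‖ₑ ^ 2 ∂(m.prod η) := by
  have hf2 : Measurable fun z => ‖f z‖ₑ ^ 2 := hf.enorm.pow_const 2
  have h1 : ∫⁻ x, ∫⁻ y, ‖f (T (x, y))‖ₑ ^ 2 ∂η ∂m = ∫⁻ z, ‖f z‖ₑ ^ 2 ∂(m.prod η) := by
    rw [← lintegral_prod (fun z => ‖f (T z)‖ₑ ^ 2) (hf2.comp hT.measurable).aemeasurable]
    exact hT.lintegral_comp hf2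
  have h2 : ∫⁻ x, ∫⁻ y, ‖f (R x, y)‖ₑ ^ 2 ∂η ∂m = ∫⁻ z, ‖f z‖ₑ ^ 2 ∂(m.prod η) := by
    rw [lintegral_prod _ hf2.aemeasurable]
    exact hR.lintegral_comp (f := fun x => ∫⁻ y, ‖f (x, y)‖ₑ ^ 2 ∂η) hf2.lintegral_prod_right'
  have hm1 : Measurable fun x => ∫⁻ y, ‖f (T (x, y))‖ₑ ^ 2 ∂η :=
    (hf2.comp hT.measurable).lintegral_prod_right'
  have hm2 : Measurable fun x => ∫⁻ y, ‖f (R x, y)‖ₑ ^ 2 ∂η :=
    (hf2.lintegral_prod_right' (ν := η)).comp hR.measurable
  unfold q
  calc ∫⁻ x, ‖D η T R f g x‖ₑ ^ 2 ∂m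
      ≤ ∫⁻ x, 2 * C * ((∫⁻ y, ‖f (T (x, y))‖ₑ ^ 2 ∂η) +
          (∫⁻ y, ‖f (R x, y)‖ₑ ^ 2 ∂η)) ∂m := by
        refine lintegral_mono_ae ?_
        filter_upwards [hC] with x hx
        refine (D_le T R hT.measurable f g hf hg x).trans ?_
        calc 2 * ((∫⁻ y, ‖f (T (x, y))‖ₑ ^ 2 ∂η) +
              (∫⁻ y, ‖f (R x, y)‖ₑ ^ 2 ∂η)) * ∫⁻ y, ‖g (x, y)‖ₑ ^ 2 ∂η
            ≤ 2 * ((∫⁻ y, ‖f (T (x, y))‖ₑ ^ 2 ∂η) +
              (∫⁻ y, ‖f (R x, y)‖ₑ ^ 2 ∂η)) * C := by gcongr
          _ = _ := by ring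
    _ = 2 * C * (∫⁻ x, (∫⁻ y, ‖f (T (x, y))‖ₑ ^ 2 ∂η) +
          (∫⁻ y, ‖f (R x, y)‖ₑ ^ 2 ∂η) ∂m) := lintegral_const_mul _ (hm1.add hm2)
    _ = _ := by
        rw [lintegral_add_left hm1, h1, h2]
        ring

theorem q_le_right (T : X × Y → X × Y) (R : X → X) (hT : Measurable T) (f g : X × Y → ℂ)
    (hf : Measurable f) (hg : Measurable g) (B : ℝ≥0∞) (hB : ∀ z, ‖f z‖ₑ ^ 2 ≤ B) :
    q m η T R f g ≤ 4 * B * ∫⁻ z, ‖g z‖ₑ ^ 2 ∂(m.prod η) := by
  have hg2 : Measurable fun z => ‖g z‖ₑ ^ 2 := hg.enorm.pow_const 2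
  have hm : Measurable fun x => ∫⁻ y, ‖g (x, y)‖ₑ ^ 2 ∂η := hg2.lintegral_prod_right'
  unfold q
  calc ∫⁻ x, ‖D η T R f g x‖ₑ ^ 2 ∂m
      ≤ ∫⁻ x, 4 * B * (∫⁻ y, ‖g (x, y)‖ₑ ^ 2 ∂η) ∂m := by
        refine lintegral_mono fun x => ?_
        refine (D_le T R hT f g hf hg x).trans ?_
        have h1 : ∫⁻ y, ‖f (T (x, y))‖ₑ ^ 2 ∂η ≤ B := by
          refine (lintegral_mono fun y => hB _).trans ?_
          simp
        have h2 : ∫⁻ y, ‖f (R x, y)‖ₑ ^ 2 ∂η ≤ B := by
          refine (lintegral_mono fun y => hB _).trans ?_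
          simp
        calc 2 * ((∫⁻ y, ‖f (T (x, y))‖ₑ ^ 2 ∂η) +
              (∫⁻ y, ‖f (R x, y)‖ₑ ^ 2 ∂η)) * ∫⁻ y, ‖g (x, y)‖ₑ ^ 2 ∂η
            ≤ 2 * (B + B) * ∫⁻ y, ‖g (x, y)‖ₑ ^ 2 ∂η := by gcongr
          _ = _ := by ring
    _ = 4 * B * ∫⁻ x, (∫⁻ y, ‖g (x, y)‖ₑ ^ 2 ∂η) ∂m := lintegral_const_mul _ hm
    _ = _ := by rw [lintegral_prod _ hg2.aemeasurable]

/-! ### Bilinearity -/

theorem fib_int (T : X × Y → X × Y) (hT : MeasurePreserving T (m.prod η) (m.prod η))
    (f g : X × Y → ℂ) (hf : MemLp f 2 (m.prod η)) (hg : MemLp g 2 (m.prod η)) :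
    ∀ᵐ x ∂m, Integrable (fun y => f (T (x, y)) * conj (g (x, y))) η := by
  have h1 : MemLp (fun z => f (T z)) 2 (m.prod η) := hf.comp_measurePreserving hT
  have h2 : MemLp (fun z => conj (g z)) 2 (m.prod η) := by
    refine hg.of_le (Complex.continuous_conj.comp_aestronglyMeasurable hg.1) ?_
    exact Eventually.of_forall fun z => by rw [RCLike.norm_conj]
  have h3 : Integrable (fun z => f (T z) * conj (g z)) (m.prod η) := h1.integrable_mul h2
  exact h3.prod_right_ae

theorem fib_int1 (g : X × Y → ℂ) (hg : MemLp g 2 (m.prod η)) :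
    ∀ᵐ x ∂m, Integrable (fun y => g (x, y)) η :=
  (hg.integrable (by norm_num)).prod_right_ae

theorem fib_intR (R : X → X) (hR : MeasurePreserving R m m) (g : X × Y → ℂ)
    (hg : MemLp g 2 (m.prod η)) : ∀ᵐ x ∂m, Integrable (fun y => g (R x, y)) η :=
  hR.quasiMeasurePreserving.ae (fib_int1 g hg)

theorem conj_int (g : Y → ℂ) (hg : Integrable g η) : Integrable (fun y => conj (g y)) η := by
  refine hg.mono (Complex.continuous_conj.comp_aestronglyMeasurable hg.1) ?_
  exact Eventually.of_forall fun z => by rw [RCLike.norm_conj]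

theorem measurable_D (T : X × Y → X × Y) (R : X → X) (hT : Measurable T) (hR : Measurable R)
    (f g : X × Y → ℂ) (hf : Measurable f) (hg : Measurable g) : Measurable (D η T R f g) := by
  have h1 : Measurable fun z => f (T z) * conj (g z) :=
    (hf.comp hT).mul (Complex.continuous_conj.measurable.comp hg)
  have h2 : Measurable fun z : X × Y => f (R z.1, z.2) :=
    hf.comp ((hR.comp measurable_fst).prodMk measurable_snd)
  have h3 : Measurable fun z => conj (g z) := Complex.continuous_conj.measurable.comp hg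
  exact (h1.stronglyMeasurable.integral_prod_right'.measurable).sub
    ((h2.stronglyMeasurable.integral_prod_right'.measurable).mul
      (h3.stronglyMeasurable.integral_prod_right'.measurable))

theorem q_add_left (T : X × Y → X × Y) (R : X → X)
    (hT : MeasurePreserving T (m.prod η) (m.prod η)) (hR : MeasurePreserving R m m)
    (f f' g : X × Y → ℂ) (hf : MemLp f 2 (m.prod η)) (hf' : MemLp f' 2 (m.prod η))
    (hg : MemLp g 2 (m.prod η)) (hmf : Measurable f) (hmg : Measurable g) :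
    q m η T R (f + f') g ≤ 2 * (q m η T R f g + q m η T R f' g) := by
  have hm := ((measurable_D (η := η) T R hT.measurable hR.measurable f g hmf hmg).enorm).pow_const 2
  have h0 : 2 * (q m η T R f g + q m η T R f' g) =
      ∫⁻ x, 2 * (‖D η T R f g x‖ₑ ^ 2 + ‖D η T R f' g x‖ₑ ^ 2) ∂m := by
    unfold q
    rw [lintegral_const_mul' _ _ (by simp), lintegral_add_left hm]
  rw [h0]
  unfold q
  refine lintegral_mono_ae ?_
  filter_upwards [fib_int T hT f g hf hg, fib_int T hT f' g hf' hg, fib_intR R hR f hf,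
    fib_intR R hR f' hf'] with x h1 h2 h3 h4
  have h5 : D η T R (f + f') g x = D η T R f g x + D η T R f' g x := by
    unfold D
    simp only [Pi.add_apply, add_mul]
    rw [integral_add h1 h2, integral_add h3 h4]
    ring
  rw [h5]
  exact add_sq _ _

theorem q_add_right (T : X × Y → X × Y) (R : X → X)
    (hT : MeasurePreserving T (m.prod η) (m.prod η)) (hR : MeasurePreserving R m m)
    (f g g' : X × Y → ℂ) (hf : MemLp f 2 (m.prod η)) (hg : MemLp g 2 (m.prod η))
    (hg' : MemLp g' 2 (m.prod η)) (hmf : Measurable f) (hmg : Measurable g) :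
    q m η T R f (g + g') ≤ 2 * (q m η T R f g + q m η T R f g') := by
  have hm := ((measurable_D (η := η) T R hT.measurable hR.measurable f g hmf hmg).enorm).pow_const 2
  have h0 : 2 * (q m η T R f g + q m η T R f g') =
      ∫⁻ x, 2 * (‖D η T R f g x‖ₑ ^ 2 + ‖D η T R f g' x‖ₑ ^ 2) ∂m := by
    unfold q
    rw [lintegral_const_mul' _ _ (by simp), lintegral_add_left hm]
  rw [h0]
  unfold q
  refine lintegral_mono_ae ?_
  filter_upwards [fib_int T hT f g hf hg, fib_int T hT f g' hf hg', fib_int1 g hg,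
    fib_int1 g' hg'] with x h1 h2 h3 h4
  have h5 : D η T R f (g + g') x = D η T R f g x + D η T R f g' x := by
    unfold D
    simp only [Pi.add_apply, map_add, mul_add]
    rw [integral_add h1 h2, integral_add (conj_int _ h3) (conj_int _ h4)]
    ring
  rw [h5]
  exact add_sq _ _

theorem q_smul_left (T : X × Y → X × Y) (R : X → X) (f g : X × Y → ℂ) (c : ℂ) :
    q m η T R (c • f) g = ‖c‖ₑ ^ 2 * q m η T R f g := by
  unfold q
  rw [← lintegral_const_mul' _ _ (by simp)]
  refine lintegral_congr fun x => ?_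
  have h5 : D η T R (c • f) g x = c * D η T R f g x := by
    unfold D
    simp only [Pi.smul_apply, smul_eq_mul, mul_assoc]
    rw [integral_const_mul, integral_const_mul]
    ring
  rw [h5, enorm_mul, mul_pow]

theorem q_smul_right (T : X × Y → X × Y) (R : X → X) (f g : X × Y → ℂ) (c : ℂ) :
    q m η T R f (c • g) = ‖c‖ₑ ^ 2 * q m η T R f g := by
  unfold q
  rw [← lintegral_const_mul' _ _ (by simp)]
  refine lintegral_congr fun x => ?_
  have h5 : D η T R f (c • g) x = conj c * D η T R f g x := by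
    unfold D
    simp only [Pi.smul_apply, smul_eq_mul, map_mul, mul_left_comm _ (conj c)]
    rw [integral_const_mul, integral_const_mul]
    ring
  rw [h5, enorm_mul, mul_pow]
  congr 2
  rw [← ofReal_norm, ← ofReal_norm, RCLike.norm_conj]

theorem q_zero_left (T : X × Y → X × Y) (R : X → X) (g : X × Y → ℂ) :
    q m η T R 0 g = 0 := by
  have := q_smul_left (m := m) (η := η) T R 0 g 0
  simpa using this

theorem q_zero_right (T : X × Y → X × Y) (R : X → X) (f : X × Y → ℂ) :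
    q m η T R f 0 = 0 := by
  have := q_smul_right (m := m) (η := η) T R f 0 0
  simpa using this

/-! ### Rectangles -/

/-- the indicator of a rectangle -/
noncomputable def rr (A : Set X) (E : Set Y) (z : X × Y) : ℝ :=
  A.indicator 1 z.1 * E.indicator 1 z.2

theorem measurable_rr {A : Set X} {E : Set Y} (hA : MeasurableSet A) (hE : MeasurableSet E) :
    Measurable (rr A E) :=
  ((measurable_one.indicator hA).comp measurable_fst).mul
    ((measurable_one.indicator hE).comp measurable_snd)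

theorem ind_abs {Z : Type} (A : Set Z) (z : Z) : |A.indicator (1 : Z → ℝ) z| ≤ 1 := by
  by_cases h : z ∈ A
  · simp [h]
  · simp [h]

theorem rr_abs (A : Set X) (E : Set Y) (z : X × Y) : |rr A E z| ≤ 1 := by
  unfold rr
  rw [abs_mul]
  have h1 := ind_abs A z.1
  have h2 := ind_abs E z.2
  nlinarith [abs_nonneg (A.indicator (1 : X → ℝ) z.1), abs_nonneg (E.indicator (1 : Y → ℝ) z.2)]

theorem ext_it (R : MPT m) (T : MPT (m.prod η)) (h : Ext R T) (n : ℕ) :
    Ext (R.it n) (T.it n) := by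
  induction n with
  | zero =>
    refine Eventually.of_forall fun z => ?_
    rfl
  | succ n ih =>
    unfold Ext at ih ⊢
    filter_upwards [T.mp.quasiMeasurePreserving.ae ih, h] with z h1 h2
    change (T.fwd^[n] (T.fwd z)).1 = R.fwd^[n] (T.fwd z).1 at h1
    change (T.fwd^[n] (T.fwd z)).1 = R.fwd^[n] (R.fwd z.1)
    rw [h1, h2]

theorem int_four (u v : Y → ℝ) (hu : Integrable u η) (hv : Integrable v η)
    (huv : Integrable (fun y => u y * v y) η) (a b : ℝ) :
    ∫ y, (u y - a) * (v y - b) ∂η =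
      (∫ y, u y * v y ∂η) - b * (∫ y, u y ∂η) - a * (∫ y, v y ∂η) + a * b := by
  have i1 : Integrable (fun y => u y * v y - b * u y) η := huv.sub (hu.const_mul _)
  have i2 : Integrable (fun y => u y * v y - b * u y - a * v y) η := i1.sub (hv.const_mul _)
  have e0 : ∫ y, (u y - a) * (v y - b) ∂η = ∫ y, (u y * v y - b * u y - a * v y + a * b) ∂η :=
    integral_congr_ae (Eventually.of_forall fun y => by ring)
  rw [e0, integral_add i2 (integrable_const _), integral_sub i1 (hv.const_mul _),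
    integral_sub huv (hu.const_mul _), integral_const_mul, integral_const_mul]
  simp

theorem q_rect (h1 : S_CE) (R : MPT m) (T : MPT (m.prod η)) (hExt : Ext R T)
    (A B : Set X) (E F : Set Y) (hE : MeasurableSet E) (hF : MeasurableSet F) (n : ℕ) :
    q m η T.fwd^[n] R.fwd^[n] (fun z => ((rr A E z : ℝ) : ℂ)) (fun z => ((rr B F z : ℝ) : ℂ)) ≤
      ENNReal.ofReal (∫ x, (∫ y, (E.indicator 1 (T.fwd^[n] (x, y)).2 - η.real E) *
        (F.indicator 1 y - η.real F) ∂η) ^ 2 ∂m) := by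
  set T' : X × Y → X × Y := T.fwd^[n] with hT'
  set R' : X → X := R.fwd^[n] with hR'
  have hTm : MeasurePreserving T' (m.prod η) (m.prod η) := T.mp.iterate n
  have hRm : MeasurePreserving R' m m := R.mp.iterate n
  have hext := Measure.ae_ae_of_ae_prod (ext_it R T hExt n)
  have hce := h1 X Y m η (R.it n) (T.it n) (ext_it R T hExt n)
    (fun z => E.indicator 1 z.2) (by
      refine (integrable_const (1 : ℝ)).mono
        ((measurable_one.indicator hE).comp measurable_snd).aestronglyMeasurable ?_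
      refine Eventually.of_forall fun z => ?_
      simpa using ind_abs E z.2)
  let H : X → ℝ := fun x => ∫ y, (E.indicator 1 (T' (x, y)).2 - η.real E) *
        (F.indicator 1 y - η.real F) ∂η
  change _ ≤ ENNReal.ofReal (∫ x, H x ^ 2 ∂m)
  have hmE : Measurable fun z : X × Y => E.indicator (1 : Y → ℝ) (T' z).2 :=
    (measurable_one.indicator hE).comp (measurable_snd.comp hTm.measurable)
  have hmF : Measurable fun z : X × Y => F.indicator (1 : Y → ℝ) z.2 :=
    (measurable_one.indicator hF).comp measurable_snd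
  have hHm : Measurable H := by
    have : Measurable fun z : X × Y => (E.indicator 1 (T' z).2 - η.real E) *
        (F.indicator 1 z.2 - η.real F) := (hmE.sub_const _).mul (hmF.sub_const _)
    exact this.stronglyMeasurable.integral_prod_right'.measurable
  have hre : ∀ (E : Set Y) (y : Y), |E.indicator (1 : Y → ℝ) y - η.real E| ≤ 1 := by
    intro E y
    have h2 : 0 ≤ η.real E := measureReal_nonneg
    have h3 : η.real E ≤ 1 := measureReal_le_one
    by_cases h : y ∈ E
    · rw [Set.indicator_of_mem h, abs_le]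
      simp only [Pi.one_apply]
      constructor <;> linarith
    · rw [Set.indicator_of_notMem h, abs_le]
      constructor <;> linarith
  have hHb : ∀ x, |H x| ≤ 1 := by
    intro x
    have := norm_integral_le_of_norm_le_const (μ := η) (C := 1)
      (f := fun y => (E.indicator 1 (T' (x, y)).2 - η.real E) *
        (F.indicator 1 y - η.real F)) (Eventually.of_forall fun y => by
          rw [Real.norm_eq_abs, abs_mul]
          exact mul_le_one₀ (hre E _) (abs_nonneg _) (hre F _))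
    simpa using this
  have hint : Integrable (fun x => H x ^ 2) m := by
    refine (integrable_const (1 : ℝ)).mono (hHm.pow_const 2).aestronglyMeasurable ?_
    refine Eventually.of_forall fun x => ?_
    rw [Real.norm_eq_abs, abs_pow, norm_one]
    exact pow_le_one₀ (abs_nonneg _) (hHb x)
  rw [ofReal_integral_eq_lintegral_ofReal hint (Eventually.of_forall fun x => sq_nonneg _)]
  unfold q
  refine lintegral_mono_ae ?_
  filter_upwards [hext, hce] with x hx hc
  change ∀ᵐ y ∂η, (T' (x, y)).1 = R' x at hx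
  change ∫ y, E.indicator 1 (T' (x, y)).2 ∂η = ∫ y, E.indicator 1 y ∂η at hc
  have hD : D η T' R' (fun z => ((rr A E z : ℝ) : ℂ)) (fun z => ((rr B F z : ℝ) : ℂ)) x =
      ((A.indicator 1 (R' x) * B.indicator 1 x * H x : ℝ) : ℂ) := by
    have hu : Integrable (fun y => E.indicator (1 : Y → ℝ) (T' (x, y)).2) η := by
      refine (integrable_const (1 : ℝ)).mono
        (hmE.comp measurable_prodMk_left).aestronglyMeasurable ?_
      exact Eventually.of_forall fun y => by simpa using ind_abs E (T' (x, y)).2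
    have hv : Integrable (fun y => F.indicator (1 : Y → ℝ) y) η := by
      refine (integrable_const (1 : ℝ)).mono
        (measurable_one.indicator hF).aestronglyMeasurable ?_
      exact Eventually.of_forall fun y => by simpa using ind_abs F y
    have huv : Integrable (fun y => E.indicator (1 : Y → ℝ) (T' (x, y)).2 *
        F.indicator (1 : Y → ℝ) y) η := by
      refine (integrable_const (1 : ℝ)).mono
        ((hmE.comp measurable_prodMk_left).mul (measurable_one.indicator hF)).aestronglyMeasurable ?_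
      refine Eventually.of_forall fun y => ?_
      rw [norm_mul, norm_one]
      exact mul_le_one₀ (ind_abs E _) (norm_nonneg _) (ind_abs F _)
    have hEi : ∫ y, E.indicator (1 : Y → ℝ) y ∂η = η.real E := integral_indicator_one hE
    have hFi : ∫ y, F.indicator (1 : Y → ℝ) y ∂η = η.real F := integral_indicator_one hF
    have hHx : H x = (∫ y, E.indicator (1 : Y → ℝ) (T' (x, y)).2 * F.indicator (1 : Y → ℝ) y ∂η) -
        η.real E * η.real F := by
      have e0 := int_four _ _ hu hv huv (η.real E) (η.real F)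
      rw [hc, hEi, hFi] at e0
      refine e0.trans ?_
      ring
    have e1 : ∫ y, ((rr A E (T' (x, y)) : ℝ) : ℂ) * conj ((rr B F (x, y) : ℝ) : ℂ) ∂η =
        ((A.indicator 1 (R' x) * B.indicator 1 x *
          ∫ y, E.indicator (1 : Y → ℝ) (T' (x, y)).2 * F.indicator (1 : Y → ℝ) y ∂η : ℝ) : ℂ) := by
      rw [← integral_const_mul, ← integral_complex_ofReal]
      refine integral_congr_ae ?_
      filter_upwards [hx] with y hy
      rw [Complex.conj_ofReal, ← Complex.ofReal_mul]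
      unfold rr
      rw [hy]
      congr 1
      ring
    have e2 : ∫ y, ((rr A E (R' x, y) : ℝ) : ℂ) ∂η =
        ((A.indicator 1 (R' x) * η.real E : ℝ) : ℂ) := by
      rw [← hEi, ← integral_const_mul, ← integral_complex_ofReal]
      rfl
    have e3 : ∫ y, conj ((rr B F (x, y) : ℝ) : ℂ) ∂η =
        ((B.indicator 1 x * η.real F : ℝ) : ℂ) := by
      rw [← hFi, ← integral_const_mul, ← integral_complex_ofReal]
      refine integral_congr_ae (Eventually.of_forall fun y => ?_)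
      simp only [Complex.conj_ofReal]
      rfl
    unfold D
    rw [e1, e2, e3, hHx, ← Complex.ofReal_mul, ← Complex.ofReal_sub]
    congr 1
    ring
  rw [hD, ← ofReal_norm, ← ENNReal.ofReal_pow (norm_nonneg _)]
  refine ENNReal.ofReal_le_ofReal ?_
  rw [Complex.norm_real, Real.norm_eq_abs, sq_abs, mul_pow]
  have h5 : (A.indicator 1 (R' x) * B.indicator 1 x : ℝ) ^ 2 ≤ 1 := by
    have := rr_abs A B (R' x, x)
    unfold rr at this
    rw [← sq_abs]
    exact pow_le_one₀ (abs_nonneg _) this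
  nlinarith [sq_nonneg (H x)]

/-! ### The span of the rectangles -/

/-- combinations of indicators of rectangles -/
def Sp (X : Type) {Y : Type} [MeasurableSpace X] (C : Set (Set Y)) : Submodule ℂ (X × Y → ℂ) :=
  Submodule.span ℂ {f | ∃ (A : Set X) (E : Set Y), MeasurableSet A ∧ E ∈ C ∧
    f = fun z => ((rr A E z : ℝ) : ℂ)}

theorem sp_rr {C : Set (Set Y)} {A : Set X} {E : Set Y} (hA : MeasurableSet A) (hE : E ∈ C) :
    (fun z => ((rr A E z : ℝ) : ℂ)) ∈ Sp X C :=
  Submodule.subset_span ⟨A, E, hA, hE, rfl⟩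

theorem sp_meas {C : Set (Set Y)} (hC : ∀ E ∈ C, MeasurableSet E) {f : X × Y → ℂ}
    (hf : f ∈ Sp X C) : Measurable f := by
  unfold Sp at hf
  induction hf using Submodule.span_induction with
  | mem f h =>
    obtain ⟨A, E, hA, hE, rfl⟩ := h
    exact Complex.measurable_ofReal.comp (measurable_rr hA (hC E hE))
  | zero => exact measurable_const
  | add f g _ _ h1 h2 => exact h1.add h2
  | smul c f _ h1 => exact h1.const_smul c

theorem sp_bdd {C : Set (Set Y)} {f : X × Y → ℂ} (hf : f ∈ Sp X C) :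
    ∃ B : ℝ, 0 ≤ B ∧ ∀ z, ‖f z‖ ≤ B := by
  unfold Sp at hf
  induction hf using Submodule.span_induction with
  | mem f h =>
    obtain ⟨A, E, hA, hE, rfl⟩ := h
    refine ⟨1, zero_le_one, fun z => ?_⟩
    rw [Complex.norm_real]
    exact rr_abs A E z
  | zero => exact ⟨0, le_rfl, fun z => by simp⟩
  | add f g _ _ h1 h2 =>
    obtain ⟨B, hB, h1⟩ := h1
    obtain ⟨B', hB', h2⟩ := h2
    exact ⟨B + B', by positivity, fun z => (norm_add_le _ _).trans (add_le_add (h1 z) (h2 z))⟩
  | smul c f _ h1 =>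
    obtain ⟨B, hB, h1⟩ := h1
    refine ⟨‖c‖ * B, by positivity, fun z => ?_⟩
    rw [Pi.smul_apply, norm_smul]
    exact mul_le_mul_of_nonneg_left (h1 z) (norm_nonneg _)

theorem sp_memLp {C : Set (Set Y)} (hC : ∀ E ∈ C, MeasurableSet E) {f : X × Y → ℂ}
    (hf : f ∈ Sp X C) : MemLp f 2 (m.prod η) := by
  obtain ⟨B, -, hB⟩ := sp_bdd hf
  exact MemLp.of_bound (sp_meas hC hf).aestronglyMeasurable B (Eventually.of_forall hB)

theorem sp_q (h1 : S_CE) (R : MPT m) (T : MPT (m.prod η)) (hExt : Ext R T) (C : Set (Set Y))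
    (hC : ∀ E ∈ C, MeasurableSet E)
    (hmix : ∀ E ∈ C, ∀ F ∈ C, Tendsto (fun n : ℕ =>
      ∫ x, (∫ y, (E.indicator 1 (T.fwd^[n] (x, y)).2 - η.real E) *
        (F.indicator 1 y - η.real F) ∂η) ^ 2 ∂m) atTop (𝓝 (0 : ℝ)))
    (f g : X × Y → ℂ) (hf : f ∈ Sp X C) (hg : g ∈ Sp X C) :
    Tendsto (fun n => q m η T.fwd^[n] R.fwd^[n] f g) atTop (𝓝 0) := by
  have hadd : ∀ a b c : ℕ → ℝ≥0∞, Tendsto a atTop (𝓝 0) → Tendsto b atTop (𝓝 0) →
      (∀ n, c n ≤ 2 * (a n + b n)) → Tendsto c atTop (𝓝 0) := by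
    intro a b c ha hb hc
    have h2 : Tendsto (fun n => 2 * (a n + b n)) atTop (𝓝 0) := by
      have := ENNReal.Tendsto.const_mul (a := 2) (ha.add hb) (Or.inr (by simp))
      simpa using this
    exact tendsto_of_tendsto_of_tendsto_of_le_of_le tendsto_const_nhds h2 (fun _ => bot_le) hc
  have hsmul : ∀ (c : ℂ) (a : ℕ → ℝ≥0∞), Tendsto a atTop (𝓝 0) →
      Tendsto (fun n => ‖c‖ₑ ^ 2 * a n) atTop (𝓝 0) := by
    intro c a ha
    have := ENNReal.Tendsto.const_mul (a := ‖c‖ₑ ^ 2) ha (Or.inr (by simp))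
    simpa using this
  have hTm : ∀ n, MeasurePreserving T.fwd^[n] (m.prod η) (m.prod η) := fun n => T.mp.iterate n
  have hRm : ∀ n, MeasurePreserving R.fwd^[n] m m := fun n => R.mp.iterate n
  have hfm := sp_meas hC hf
  have hfL : MemLp f 2 (m.prod η) := sp_memLp hC hf
  have hg' := hg
  unfold Sp at hg
  induction hg using Submodule.span_induction with
  | mem g h =>
    obtain ⟨B, F, hB, hF, rfl⟩ := h
    have hgm := sp_meas hC hg'
    have hgL : MemLp _ 2 (m.prod η) := sp_memLp hC hg'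
    have hf' := hf
    clear hfm hfL
    unfold Sp at hf
    induction hf using Submodule.span_induction with
    | mem f h =>
      obtain ⟨A, E, hA, hE, rfl⟩ := h
      have h3 : Tendsto (fun n : ℕ => ENNReal.ofReal (∫ x, (∫ y,
          (E.indicator 1 (T.fwd^[n] (x, y)).2 - η.real E) *
          (F.indicator 1 y - η.real F) ∂η) ^ 2 ∂m)) atTop (𝓝 0) := by
        have := ENNReal.tendsto_ofReal (hmix E hE F hF)
        simpa using this
      exact tendsto_of_tendsto_of_tendsto_of_le_of_le tendsto_const_nhds h3 (fun _ => bot_le)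
        fun n => q_rect h1 R T hExt A B E F (hC E hE) (hC F hF) n
    | zero => simp only [q_zero_left]; exact tendsto_const_nhds
    | add f f' hx hy ih ih' =>
      exact hadd _ _ _ (ih hx) (ih' hy) fun n => q_add_left _ _ (hTm n) (hRm n) f f' _
        (sp_memLp hC hx) (sp_memLp hC hy) hgL (sp_meas hC hx) hgm
    | smul c f hx ih =>
      simp only [q_smul_left]
      exact hsmul c _ (ih hx)
  | zero => simp only [q_zero_right]; exact tendsto_const_nhds
  | add g g' hx hy ih ih' =>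
    exact hadd _ _ _ (ih hx) (ih' hy) fun n => q_add_right _ _ (hTm n) (hRm n) f g g'
      hfL (sp_memLp hC hx) (sp_memLp hC hy) hfm (sp_meas hC hx)
  | smul c g hx ih =>
    simp only [q_smul_right]
    exact hsmul c _ (ih hx)

theorem sq_lint (g : X × Y → ℝ) (hg : MemLp g 2 (m.prod η)) :
    ∫⁻ z, ‖((g z : ℝ) : ℂ)‖ₑ ^ 2 ∂(m.prod η) = ENNReal.ofReal (∫ z, g z ^ 2 ∂(m.prod η)) := by
  have h1 : Integrable (fun z => g z ^ 2) (m.prod η) := hg.integrable_sq
  rw [ofReal_integral_eq_lintegral_ofReal h1 (Eventually.of_forall fun x => sq_nonneg _)]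
  refine lintegral_congr fun z => ?_
  rw [← ofReal_norm, ← ENNReal.ofReal_pow (norm_nonneg _), Complex.norm_real, Real.norm_eq_abs,
    sq_abs]

end

theorem approx {X Y : Type} [MeasurableSpace X] [mY : MeasurableSpace Y] {m : Measure X}
    {η : Measure Y} [IsProbabilityMeasure m] [IsProbabilityMeasure η] (h2 : S_DENS)
    (C : Set (Set Y)) (hpi : IsPiSystem C) (huniv : univ ∈ C)
    (hgen : mY = MeasurableSpace.generateFrom C) (f : X × Y → ℂ) (hfm : Measurable f)
    (hf : MemLp f 2 (m.prod η)) (ε : ℝ) (hε : 0 < ε) :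
    ∃ f' ∈ Sp X C, ∫⁻ z, ‖f z - f' z‖ₑ ^ 2 ∂(m.prod η) ≤ ENNReal.ofReal ε := by
  have hC : ∀ E ∈ C, MeasurableSet E := by
    intro E hE
    rw [hgen]
    exact MeasurableSpace.measurableSet_generateFrom hE
  have key : ∀ g : X × Y → ℝ, MemLp g 2 (m.prod η) →
      ∃ g' : X × Y → ℝ, (fun z => ((g' z : ℝ) : ℂ)) ∈ Sp X C ∧
        ∫⁻ z, ‖((g z - g' z : ℝ) : ℂ)‖ₑ ^ 2 ∂(m.prod η) ≤ ENNReal.ofReal (ε / 4) := by
    intro g hg
    obtain ⟨n, A, E, c, hA, hE, hlt⟩ := h2 X Y m η C hpi huniv hgen g hg (ε / 4) (by positivity)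
    have hmem : (fun z => ((∑ i, c i * (A i).indicator 1 z.1 * (E i).indicator 1 z.2 : ℝ) : ℂ)) ∈
        Sp X C := by
      have h3 : (fun z : X × Y => ((∑ i, c i * (A i).indicator 1 z.1 *
          (E i).indicator 1 z.2 : ℝ) : ℂ)) =
          ∑ i, (c i : ℂ) • (fun z : X × Y => ((rr (A i) (E i) z : ℝ) : ℂ)) := by
        funext z
        rw [Finset.sum_apply]
        push_cast
        refine Finset.sum_congr rfl fun i _ => ?_
        simp only [Pi.smul_apply, smul_eq_mul, rr]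
        push_cast
        ring
      rw [h3]
      exact Submodule.sum_mem _ fun i _ => Submodule.smul_mem _ _ (sp_rr (hA i) (hE i))
    refine ⟨_, hmem, ?_⟩
    have hL : MemLp (fun z => g z - ∑ i, c i * (A i).indicator 1 z.1 *
        (E i).indicator 1 z.2) 2 (m.prod η) := by
      refine hg.sub ?_
      have := (sp_memLp (m := m) (η := η) hC hmem).re
      simpa using this
    rw [sq_lint _ hL]
    exact ENNReal.ofReal_le_ofReal hlt.le
  obtain ⟨u, hu, hu'⟩ := key (fun z => (f z).re) hf.re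
  obtain ⟨v, hv, hv'⟩ := key (fun z => (f z).im) hf.im
  refine ⟨(fun z => ((u z : ℝ) : ℂ)) + Complex.I • (fun z => ((v z : ℝ) : ℂ)),
    Submodule.add_mem _ hu (Submodule.smul_mem _ _ hv), ?_⟩
  have hum : Measurable fun z => ‖(((f z).re - u z : ℝ) : ℂ)‖ₑ ^ 2 := by
    have h4 : Measurable fun z => (f z).re - u z := by
      refine (Complex.measurable_re.comp hfm).sub ?_
      have := Complex.measurable_re.comp (sp_meas hC hu)
      simpa [Function.comp_def] using this
    exact (Complex.measurable_ofReal.comp h4).enorm.pow_const 2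
  calc ∫⁻ z, ‖f z - ((fun z => ((u z : ℝ) : ℂ)) + Complex.I • (fun z => ((v z : ℝ) : ℂ))) z‖ₑ ^ 2
        ∂(m.prod η)
      ≤ ∫⁻ z, 2 * (‖(((f z).re - u z : ℝ) : ℂ)‖ₑ ^ 2 + ‖(((f z).im - v z : ℝ) : ℂ)‖ₑ ^ 2)
        ∂(m.prod η) := by
        refine lintegral_mono fun z => ?_
        have h3 : f z - ((fun z => ((u z : ℝ) : ℂ)) + Complex.I • (fun z => ((v z : ℝ) : ℂ))) z =
            (((f z).re - u z : ℝ) : ℂ) + Complex.I * (((f z).im - v z : ℝ) : ℂ) := by
          conv_lhs => rw [← Complex.re_add_im (f z)]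
          simp only [Pi.add_apply, Pi.smul_apply, smul_eq_mul]
          push_cast
          ring
        rw [h3]
        refine (add_sq _ _).trans (le_of_eq ?_)
        have hI : ‖Complex.I‖ₑ = 1 := by
          rw [← ofReal_norm, Complex.norm_I]
          simp
        rw [enorm_mul, hI, one_mul]
    _ = 2 * ((∫⁻ z, ‖(((f z).re - u z : ℝ) : ℂ)‖ₑ ^ 2 ∂(m.prod η)) +
          ∫⁻ z, ‖(((f z).im - v z : ℝ) : ℂ)‖ₑ ^ 2 ∂(m.prod η)) := by
        rw [lintegral_const_mul' _ _ (by simp), lintegral_add_left hum]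
    _ ≤ 2 * (ENNReal.ofReal (ε / 4) + ENNReal.ofReal (ε / 4)) := by gcongr
    _ = ENNReal.ofReal ε := by
        rw [← ENNReal.ofReal_add (by positivity) (by positivity)]
        have h3 : (2 : ℝ≥0∞) = ENNReal.ofReal 2 := by simp
        rw [h3, ← ENNReal.ofReal_mul (by norm_num)]
        congr 1
        ring

theorem inL_memLp {X Y : Type} [MeasurableSpace X] [MeasurableSpace Y] {m : Measure X}
    {η : Measure Y} [IsProbabilityMeasure m] [IsProbabilityMeasure η] (f : X × Y → ℂ)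
    (hf : InL m η f) : MemLp f 2 (m.prod η) := by
  obtain ⟨hfm, C, hC⟩ := hf
  refine ⟨hfm.aestronglyMeasurable, ?_⟩
  have h1 : ∫⁻ z, ‖f z‖ₑ ^ 2 ∂(m.prod η) ≤ C := by
    rw [lintegral_prod _ (hfm.enorm.pow_const 2).aemeasurable]
    refine (lintegral_mono_ae hC).trans ?_
    simp
  rw [eLpNorm_lt_top_iff_lintegral_rpow_enorm_lt_top (by norm_num) (by norm_num)]
  have h2 : ∫⁻ z, ‖f z‖ₑ ^ ((2 : ℝ≥0∞).toReal) ∂(m.prod η) = ∫⁻ z, ‖f z‖ₑ ^ 2 ∂(m.prod η) := by
    refine lintegral_congr fun z => ?_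
    rw [ENNReal.toReal_ofNat, ← ENNReal.rpow_natCast]
    norm_num
  rw [h2]
  exact h1.trans_lt ENNReal.coe_lt_top

theorem main (h1 : S_CE) (h2 : S_DENS) : S_EXT := by
  intro X Y _ mY m η _ _ R T hExt C hpi huniv hgen hmix
  have hC : ∀ E ∈ C, MeasurableSet E := by
    intro E hE
    rw [hgen]
    exact MeasurableSpace.measurableSet_generateFrom hE
  refine ⟨hExt, fun f g hf hg => ?_⟩
  have hfL := inL_memLp f hf
  have hgL := inL_memLp g hg
  have hfm := hf.1
  have hgm := hg.1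
  obtain ⟨-, Cg, hCg⟩ := hg
  have hTm : ∀ n, MeasurePreserving T.fwd^[n] (m.prod η) (m.prod η) := fun n => T.mp.iterate n
  have hRm : ∀ n, MeasurePreserving R.fwd^[n] m m := fun n => R.mp.iterate n
  have hev : ∀ ε : ℝ, 0 < ε → ∀ᶠ n in atTop, q m η T.fwd^[n] R.fwd^[n] f g ≤
      ENNReal.ofReal ε := by
    intro ε hε
    obtain ⟨f', hf', hfd⟩ := approx (m := m) (η := η) h2 C hpi huniv hgen f hfm hfL
      (ε / (24 * ((Cg : ℝ) + 1))) (by positivity)
    obtain ⟨B, hB0, hB⟩ := sp_bdd hf'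
    obtain ⟨g', hg', hgd⟩ := approx (m := m) (η := η) h2 C hpi huniv hgen g hgm hgL
      (ε / (48 * (B ^ 2 + 1))) (by positivity)
    have hlim := sp_q h1 R T hExt C hC hmix f' g' hf' hg'
    have hsm := (ENNReal.tendsto_nhds_zero.1 hlim) (ENNReal.ofReal (ε / 12))
      (ENNReal.ofReal_pos.2 (by positivity))
    filter_upwards [hsm] with n hn
    have hf'm := sp_meas hC hf'
    have hg'm := sp_meas hC hg'
    have hf'L : MemLp f' 2 (m.prod η) := sp_memLp hC hf'
    have hg'L : MemLp g' 2 (m.prod η) := sp_memLp hC hg'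
    have e1 : q m η T.fwd^[n] R.fwd^[n] (f - f') g ≤ ENNReal.ofReal (ε / 6) := by
      refine (q_le_left _ _ (hTm n) (hRm n) (f - f') g (hfm.sub hf'm) hgm Cg hCg).trans ?_
      calc 4 * (Cg : ℝ≥0∞) * ∫⁻ z, ‖(f - f') z‖ₑ ^ 2 ∂(m.prod η)
          ≤ 4 * (Cg : ℝ≥0∞) * ENNReal.ofReal (ε / (24 * ((Cg : ℝ) + 1))) := by
            gcongr
            exact hfd
        _ = ENNReal.ofReal (4 * Cg * (ε / (24 * ((Cg : ℝ) + 1)))) := by
            rw [ENNReal.ofReal_mul (by positivity), ENNReal.ofReal_mul (by positivity)]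
            simp
        _ ≤ _ := by
            refine ENNReal.ofReal_le_ofReal ?_
            have h3 : (Cg : ℝ) * (1 / (Cg + 1)) ≤ 1 := by
              rw [mul_one_div, div_le_one (by positivity)]
              linarith
            calc 4 * (Cg : ℝ) * (ε / (24 * ((Cg : ℝ) + 1))) =
                ε / 6 * ((Cg : ℝ) * (1 / (Cg + 1))) := by
                  field_simp
                  ring
              _ ≤ ε / 6 * 1 := by gcongr
              _ = ε / 6 := mul_one _
    have e2 : q m η T.fwd^[n] R.fwd^[n] f' (g - g') ≤ ENNReal.ofReal (ε / 12) := by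
      refine (q_le_right (m := m) (η := η) _ _ (hTm n).measurable f' (g - g') hf'm (hgm.sub hg'm)
        (ENNReal.ofReal (B ^ 2)) ?_).trans ?_
      · intro z
        rw [← ofReal_norm, ← ENNReal.ofReal_pow (norm_nonneg _)]
        exact ENNReal.ofReal_le_ofReal (pow_le_pow_left₀ (norm_nonneg _) (hB z) 2)
      calc 4 * ENNReal.ofReal (B ^ 2) * ∫⁻ z, ‖(g - g') z‖ₑ ^ 2 ∂(m.prod η)
          ≤ 4 * ENNReal.ofReal (B ^ 2) * ENNReal.ofReal (ε / (48 * (B ^ 2 + 1))) := by
            gcongr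
            exact hgd
        _ = ENNReal.ofReal (4 * B ^ 2 * (ε / (48 * (B ^ 2 + 1)))) := by
            rw [ENNReal.ofReal_mul (by positivity), ENNReal.ofReal_mul (by positivity)]
            simp
        _ ≤ _ := by
            refine ENNReal.ofReal_le_ofReal ?_
            have h3 : B ^ 2 * (1 / (B ^ 2 + 1)) ≤ 1 := by
              rw [mul_one_div, div_le_one (by positivity)]
              linarith
            calc 4 * B ^ 2 * (ε / (48 * (B ^ 2 + 1))) =
                ε / 12 * (B ^ 2 * (1 / (B ^ 2 + 1))) := by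
                  field_simp
                  ring
              _ ≤ ε / 12 * 1 := by gcongr
              _ = ε / 12 := mul_one _
    have e3 : q m η T.fwd^[n] R.fwd^[n] f g ≤ 2 * (q m η T.fwd^[n] R.fwd^[n] (f - f') g +
        q m η T.fwd^[n] R.fwd^[n] f' g) := by
      have := q_add_left T.fwd^[n] R.fwd^[n] (hTm n) (hRm n) (f - f') f' g (hfL.sub hf'L) hf'L hgL
        (hfm.sub hf'm) hgm
      rwa [sub_add_cancel] at this
    have e4 : q m η T.fwd^[n] R.fwd^[n] f' g ≤ 2 * (q m η T.fwd^[n] R.fwd^[n] f' (g - g') +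
        q m η T.fwd^[n] R.fwd^[n] f' g') := by
      have := q_add_right T.fwd^[n] R.fwd^[n] (hTm n) (hRm n) f' (g - g') g' hf'L (hgL.sub hg'L)
        hg'L hf'm (hgm.sub hg'm)
      rwa [sub_add_cancel] at this
    calc q m η T.fwd^[n] R.fwd^[n] f g
        ≤ 2 * (ENNReal.ofReal (ε / 6) + 2 * (ENNReal.ofReal (ε / 12) +
            ENNReal.ofReal (ε / 12))) := by
          refine e3.trans ?_
          gcongr
          refine e4.trans ?_
          gcongr
      _ = ENNReal.ofReal ε := by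
          have h3 : (2 : ℝ≥0∞) = ENNReal.ofReal 2 := by simp
          rw [← ENNReal.ofReal_add (by positivity) (by positivity), h3,
            ← ENNReal.ofReal_mul (by norm_num), ← ENNReal.ofReal_add (by positivity) (by positivity),
            ← ENNReal.ofReal_mul (by norm_num)]
          congr 1
          ring
  have hlim : Tendsto (fun n => q m η T.fwd^[n] R.fwd^[n] f g) atTop (𝓝 0) := by
    rw [ENNReal.tendsto_nhds_zero]
    intro ε hε
    by_cases h : ε = ⊤
    · exact Eventually.of_forall fun n => h ▸ le_top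
    · have h3 := hev ε.toReal (ENNReal.toReal_pos hε.ne' h)
      rwa [ENNReal.ofReal_toReal h] at h3
  rw [tendsto_zero_iff_enorm_tendsto_zero]
  refine tendsto_of_tendsto_of_tendsto_of_le_of_le tendsto_const_nhds hlim (fun _ => bot_le) ?_
  intro n
  refine (enorm_integral_le_lintegral_enorm _).trans (le_of_eq ?_)
  unfold q
  refine lintegral_congr fun x => ?_
  rw [enorm_pow]
  congr 1
  rw [enorm_norm]
  rfl

end Pool.Agent.R924.SM.EXT
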