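import Pool.Agent.R924.SM.M3

open MeasureTheory Set Filter Topology

set_option autoImplicit false

namespace Pool.Agent.R924.SM

/-- a countable generating pi-system of `XX` -/
theorem exists_C : ∃ C : Set (Set XX), C.Countable ∧ IsPiSystem C ∧ univ ∈ C ∧
    (inferInstance : MeasurableSpace XX) = MeasurableSpace.generateFrom C := by
  obtain ⟨b, hb, hgen⟩ := MeasurableSpace.CountablyGenerated.isCountablyGenerated (α := XX)
  refine ⟨generatePiSystem (insert univ b), ?_, isPiSystem_generatePiSystem _,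
    subset_generatePiSystem_self _ (mem_insert _ _), ?_⟩
  · have : (generatePiSystem (insert univ b)).Countable := by
      -- finite intersections
      have hc : (insert univ b).Countable := hb.insert _
      have h1 : generatePiSystem (insert univ b) ⊆
          (fun s : Set (Set XX) => ⋂₀ s) '' {s | s.Finite ∧ s ⊆ insert univ b} := by
        intro t ht
        induction ht with
        | @base s hs => exact ⟨{s}, ⟨finite_singleton s, by simpa using hs⟩, by simp⟩
        | @inter s t _ _ _ hs ht =>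
          obtain ⟨s', ⟨hs1, hs2⟩, rfl⟩ := hs
          obtain ⟨t', ⟨ht1, ht2⟩, rfl⟩ := ht
          exact ⟨s' ∪ t', ⟨hs1.union ht1, union_subset hs2 ht2⟩, by simp [sInter_union]⟩
      exact ((countable_setOf_finite_subset hc).image _).mono h1
    exact this
  · rw [generateFrom_generatePiSystem_eq]
    apply le_antisymm
    · have : (inferInstance : MeasurableSpace XX) = MeasurableSpace.generateFrom b := hgen
      rw [this]
      exact MeasurableSpace.generateFrom_mono (subset_insert _ _)
    · refine MeasurableSpace.generateFrom_le ?_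
      rintro t (rfl | ht)
      · exact MeasurableSet.univ
      · have : (inferInstance : MeasurableSpace XX) = MeasurableSpace.generateFrom b := hgen
        rw [this]
        exact MeasurableSpace.measurableSet_generateFrom ht

/-- the product extension -/
noncomputable def prodRR : MPT (mm.prod mm) := BT 0 (fun _ => 0) measurable_const

theorem fin (hM : S_MAIN) (hB : S_BAIRE) (hE : S_EXT) :
    ¬ IsMeagre {T : GR mm RR | StronglyMixing RR T.1} := by
  haveI := hB mm mm RR
  haveI : Nonempty (GR mm RR) := ⟨⟨prodRR, Ext_BT _ _ _⟩⟩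
  obtain ⟨C, hCc, hCp, hCu, hCg⟩ := exists_C
  have hCm : ∀ E ∈ C, MeasurableSet E := by
    intro E hE
    have : MeasurableSet[MeasurableSpace.generateFrom C] E :=
      MeasurableSpace.measurableSet_generateFrom hE
    rw [← hCg] at this
    exact this
  haveI : Countable C := hCc.to_subtype
  let P : (C × C) × ℕ → Set (GR mm RR) := fun q => {T | ∃ N₀ : ℕ, ∀ n ≥ N₀,
    ∫ x, (∫ y, bb q.1.1 (T.1.fwd^[n] (x, y)).2 * bb q.1.2 y ∂mm) ^ 2 ∂mm < 1 / ((q.2 : ℝ) + 1)}
  have hdense : ∀ q, Dense (interior (P q)) := by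
    intro q
    rw [dense_iff_inter_open]
    rintro U hU ⟨T₀, hT₀⟩
    obtain ⟨U', hU', rfl⟩ := isOpen_induced_iff.1 hU
    obtain ⟨T', hT'E, hT'U, V, hV, hVP⟩ := hM T₀.1 T₀.2 U' (hU'.mem_nhds hT₀) (bb q.1.1) (bb q.1.2)
      (measurable_bb (hCm _ q.1.1.2)) (measurable_bb (hCm _ q.1.2.2)) (abs_bb _) (abs_bb _)
      (integral_bb (hCm _ q.1.1.2)) (integral_bb (hCm _ q.1.2.2)) (1 / ((q.2 : ℝ) + 1))
      (by positivity)
    refine ⟨⟨T', hT'E⟩, hT'U, ?_⟩
    rw [mem_interior_iff_mem_nhds]
    have : (Subtype.val : GR mm RR → _) ⁻¹' V ∈ 𝓝 (⟨T', hT'E⟩ : GR mm RR) :=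
      continuous_subtype_val.continuousAt.preimage_mem_nhds hV
    refine mem_of_superset this ?_
    intro T hT
    exact hVP T.1 hT T.2
  have hres : (⋂ q, interior (P q)) ∈ residual (GR mm RR) := by
    rw [countable_iInter_mem]
    exact fun q => residual_of_dense_open isOpen_interior (hdense q)
  have hsub : (⋂ q, interior (P q)) ⊆ {T : GR mm RR | StronglyMixing RR T.1} := by
    intro T hT
    have hT' : ∀ q, T ∈ P q := fun q => interior_subset (mem_iInter.1 hT q)
    refine hE XX XX mm mm RR T.1 T.2 C hCp hCu hCg ?_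
    intro E hEC F hFC
    rw [Metric.tendsto_atTop]
    intro ε hε
    obtain ⟨r, hr⟩ := exists_nat_one_div_lt hε
    obtain ⟨N₀, hN₀⟩ := hT' ((⟨E, hEC⟩, ⟨F, hFC⟩), r)
    refine ⟨N₀, fun n hn => ?_⟩
    have h1 := hN₀ n hn
    simp only at h1
    rw [Real.dist_eq, sub_zero]
    have h2 : 0 ≤ ∫ x, (∫ y, bb E (T.1.fwd^[n] (x, y)).2 * bb F y ∂mm) ^ 2 ∂mm :=
      integral_nonneg fun x => sq_nonneg _
    have h3 : |∫ x, (∫ y, bb E (T.1.fwd^[n] (x, y)).2 * bb F y ∂mm) ^ 2 ∂mm| < ε := by
      rw [abs_of_nonneg h2]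
      exact h1.trans hr
    exact h3
  intro hm
  have h1 : {T : GR mm RR | StronglyMixing RR T.1}ᶜ ∈ residual (GR mm RR) := hm
  have h2 := inter_mem h1 (mem_of_superset hres hsub)
  rw [compl_inter_self] at h2
  have h3 := dense_of_mem_residual h2
  obtain ⟨x, hx⟩ := h3.nonempty
  exact hx

end Pool.Agent.R924.SM
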