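import Pool.Agent.R924.SM.Stm

/-!
GLUE: gluing extensions of the identity over a partition of the base.
-/

open MeasureTheory Set Filter Topology

set_option autoImplicit false

namespace Pool.Agent.R924.SM.GLUE

open Pool.Agent.R924.SM

variable {X Y : Type} [MeasurableSpace X] [MeasurableSpace Y] {m : Measure X} {η : Measure Y}

theorem glue_meas {F : ℕ → X × Y → X × Y} (hF : ∀ t, Measurable (F t)) {τ : X → ℕ}
    (hτ : Measurable τ) : Measurable (fun z : X × Y => F (τ z.1) z) := by
  intro S hS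
  have h : (fun z : X × Y => F (τ z.1) z) ⁻¹' S =
      ⋃ t : ℕ, {z : X × Y | τ z.1 = t} ∩ F t ⁻¹' S := by
    ext z
    simp
  rw [h]
  refine MeasurableSet.iUnion fun t => MeasurableSet.inter ?_ (hF t hS)
  exact (hτ.comp measurable_fst) (measurableSet_singleton t)

theorem glue_mp [SFinite m] [SFinite η] {F : ℕ → X × Y → X × Y}
    (hF : ∀ t, MeasurePreserving (F t) (m.prod η) (m.prod η))
    (hF1 : ∀ t, ∀ᵐ z ∂(m.prod η), (F t z).1 = z.1) {τ : X → ℕ} (hτ : Measurable τ) :
    MeasurePreserving (fun z : X × Y => F (τ z.1) z) (m.prod η) (m.prod η) := by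
  have hm := glue_meas (fun t => (hF t).measurable) hτ
  refine ⟨hm, ?_⟩
  ext S hS
  rw [Measure.map_apply hm hS]
  have hT : ∀ t : ℕ, MeasurableSet {z : X × Y | τ z.1 = t} := fun t =>
    (hτ.comp measurable_fst) (measurableSet_singleton t)
  have h : (fun z : X × Y => F (τ z.1) z) ⁻¹' S =
      ⋃ t : ℕ, {z : X × Y | τ z.1 = t} ∩ F t ⁻¹' S := by
    ext z
    simp
  have h' : S = ⋃ t : ℕ, {z : X × Y | τ z.1 = t} ∩ S := by
    ext z
    simp
  have hdis : Pairwise (Function.onFun Disjoint fun t : ℕ => {z : X × Y | τ z.1 = t}) := by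
    intro s t hst
    refine Set.disjoint_left.mpr fun z hz hz' => hst ?_
    exact hz.symm.trans hz'
  rw [h, measure_iUnion (hdis.mono fun s t hst => hst.mono inter_subset_left inter_subset_left)
    (fun t => (hT t).inter ((hF t).measurable hS))]
  conv_rhs => rw [h', measure_iUnion
    (hdis.mono fun s t hst => hst.mono inter_subset_left inter_subset_left)
    (fun t => (hT t).inter hS)]
  refine tsum_congr fun t => ?_
  rw [← (hF t).measure_preimage ((hT t).inter hS).nullMeasurableSet]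
  refine measure_congr ?_
  filter_upwards [hF1 t] with z hz
  apply propext
  constructor
  · rintro ⟨h1, h2⟩
    refine ⟨?_, h2⟩
    change τ (F t z).1 = t
    rw [hz]; exact h1
  · rintro ⟨h1, h2⟩
    refine ⟨?_, h2⟩
    change τ (F t z).1 = t at h1
    rw [hz] at h1; exact h1

theorem main : S_GLUE := by
  intro X Y _ _ m η _ _ Ψ hΨ τ hτ
  have h1 : ∀ t, ∀ᵐ z ∂(m.prod η), ((Ψ t).fwd z).1 = z.1 := fun t => hΨ t
  have h2 : ∀ t, ∀ᵐ z ∂(m.prod η), ((Ψ t).bwd z).1 = z.1 := by
    intro t
    filter_upwards [(Ψ t).mp'.quasiMeasurePreserving.ae (h1 t), (Ψ t).fb] with z hz hz'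
    rw [hz'] at hz
    exact hz.symm
  let Φ : MPT (m.prod η) :=
    { fwd := fun z => (Ψ (τ z.1)).fwd z
      bwd := fun z => (Ψ (τ z.1)).bwd z
      mp := glue_mp (fun t => (Ψ t).mp) h1 hτ
      mp' := glue_mp (fun t => (Ψ t).mp') h2 hτ
      bf := by
        filter_upwards [ae_all_iff.mpr h1, ae_all_iff.mpr fun t => (Ψ t).bf] with z hz hz'
        rw [hz (τ z.1)]
        exact hz' (τ z.1)
      fb := by
        filter_upwards [ae_all_iff.mpr h2, ae_all_iff.mpr fun t => (Ψ t).fb] with z hz hz'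
        rw [hz (τ z.1)]
        exact hz' (τ z.1) }
  refine ⟨Φ, ?_, Filter.Eventually.of_forall fun z => rfl, Filter.Eventually.of_forall fun z => rfl⟩
  filter_upwards [ae_all_iff.mpr h1] with z hz
  exact hz (τ z.1)

end Pool.Agent.R924.SM.GLUE
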