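import Pool.Agent.R924.SM.Stm

open MeasureTheory Set Filter Topology

set_option autoImplicit false

namespace Pool.Agent.R924.SM

section gen
variable {Z : Type} [MeasurableSpace Z] {μ : Measure Z} [IsProbabilityMeasure μ]

theorem intb {a : Z → ℝ} (ha : Measurable a) {C : ℝ} (hC : ∀ z, |a z| ≤ C) : Integrable a μ :=
  Integrable.of_bound ha.aestronglyMeasurable C (Eventually.of_forall hC)

theorem intb2 {a b : Z → ℝ} (ha : Measurable a) (hb : Measurable b) {C C' : ℝ}
    (hC : ∀ z, |a z| ≤ C) (hC' : ∀ z, |b z| ≤ C') : Integrable (fun z => (a z - b z) ^ 2) μ := by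
  refine intb ((ha.sub hb).pow_const 2) (C := (C + C') ^ 2) fun z => ?_
  have h1 : |a z - b z| ≤ C + C' := (abs_sub _ _).trans (add_le_add (hC z) (hC' z))
  have h2 := pow_le_pow_left₀ (abs_nonneg (a z - b z)) h1 2
  rw [abs_pow]
  exact h2

theorem sq3 {a b c : Z → ℝ} (ha : Measurable a) (hb : Measurable b) (hc : Measurable c)
    {C₁ C₂ C₃ : ℝ} (h1 : ∀ z, |a z| ≤ C₁) (h2 : ∀ z, |b z| ≤ C₂) (h3 : ∀ z, |c z| ≤ C₃) :
    ∫ z, (a z - c z) ^ 2 ∂μ ≤ 2 * (∫ z, (a z - b z) ^ 2 ∂μ) + 2 * ∫ z, (b z - c z) ^ 2 ∂μ := by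
  rw [← integral_const_mul, ← integral_const_mul, ← integral_add]
  · refine integral_mono (intb2 ha hc h1 h3)
      (((intb2 ha hb h1 h2).const_mul 2).add ((intb2 hb hc h2 h3).const_mul 2)) fun z => ?_
    simp only
    nlinarith [sq_nonneg ((a z - b z) - (b z - c z))]
  · exact (intb2 ha hb h1 h2).const_mul 2
  · exact (intb2 hb hc h2 h3).const_mul 2

end gen

section ext
variable {X Y : Type} [MeasurableSpace X] [MeasurableSpace Y] {m : Measure X} {η : Measure Y}
  [IsProbabilityMeasure m] [IsProbabilityMeasure η]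

theorem Ext.comp {R R' : MPT m} {T T' : MPT (m.prod η)} (h : Ext R T) (h' : Ext R' T') :
    Ext (R.comp R') (T.comp T') := by
  filter_upwards [h', T'.mp.quasiMeasurePreserving.ae h] with z h1 h2
  simp only [MPT.comp, Function.comp_apply]
  rw [h2, h1]

theorem Ext.inv {R : MPT m} {T : MPT (m.prod η)} (h : Ext R T) : Ext R.inv T.inv := by
  have hfst : MeasurePreserving (Prod.fst : X × Y → X) (m.prod η) m := measurePreserving_fst
  filter_upwards [T.mp'.quasiMeasurePreserving.ae h, T.fb,
    (hfst.comp T.mp').quasiMeasurePreserving.ae R.bf] with z h1 h2 h3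
  simp only [MPT.inv, Function.comp_apply] at *
  rw [h2] at h1
  rw [h1, h3]

end ext

/-- fibre mean removal is a contraction, `X × Y`. -/
theorem var_le {X Y : Type} [MeasurableSpace X] [MeasurableSpace Y] {m : Measure X}
    {η : Measure Y} [IsProbabilityMeasure m] [IsProbabilityMeasure η] {H : X × Y → ℝ}
    (hH : Measurable H) {C : ℝ} (hC : ∀ z, |H z| ≤ C) :
    ∫ z, (H z - ∫ y, H (z.1, y) ∂η) ^ 2 ∂(m.prod η) ≤ ∫ z, H z ^ 2 ∂(m.prod η) := by
  have hc : Measurable fun x : X => ∫ y, H (x, y) ∂η := by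
    have : StronglyMeasurable fun x : X => ∫ y, H (x, y) ∂η :=
      hH.stronglyMeasurable.integral_prod_right'
    exact this.measurable
  have hcb : ∀ x, |∫ y, H (x, y) ∂η| ≤ C := fun x => by
    have := norm_integral_le_of_norm_le_const (μ := η) (f := fun y => H (x, y)) (C := C)
      (Eventually.of_forall fun y => hC (x, y))
    simpa using this
  have i1 : Integrable (fun z : X × Y => (H z - ∫ y, H (z.1, y) ∂η) ^ 2) (m.prod η) :=
    intb2 hH (hc.comp measurable_fst) hC (fun z => hcb z.1)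
  have i2 : Integrable (fun z : X × Y => H z ^ 2) (m.prod η) := by
    have := intb2 (μ := m.prod η) hH (measurable_const (a := (0 : ℝ))) hC (C' := 0) (by simp)
    simpa using this
  rw [integral_prod _ i1, integral_prod _ i2]
  refine integral_mono i1.integral_prod_left i2.integral_prod_left fun x => ?_
  simp only
  have hx : Measurable fun y => H (x, y) := hH.comp measurable_prodMk_left
  have ix : Integrable (fun y => H (x, y)) η := intb hx (fun y => hC (x, y))
  have ix2 : Integrable (fun y => H (x, y) ^ 2) η := by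
    have := intb2 (μ := η) hx (measurable_const (a := (0 : ℝ))) (fun y => hC (x, y)) (C' := 0)
      (by simp)
    simpa using this
  set c : ℝ := ∫ y, H (x, y) ∂η with hcdef
  have e : ∀ y, (H (x, y) - c) ^ 2 = H (x, y) ^ 2 - 2 * c * H (x, y) + c ^ 2 := fun y => by
    ring
  simp_rw [e]
  have k1 : ∫ y, (H (x, y) ^ 2 - 2 * c * H (x, y) + c ^ 2) ∂η
      = (∫ y, H (x, y) ^ 2 ∂η) - 2 * c * c + c ^ 2 := by
    rw [integral_add (f := fun y => H (x, y) ^ 2 - 2 * c * H (x, y)) (ix2.sub (ix.const_mul _))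
      (integrable_const _), integral_sub ix2 (ix.const_mul _), integral_const_mul, integral_const]
    simp [← hcdef]
  rw [k1]
  nlinarith [sq_nonneg c]

end Pool.Agent.R924.SM
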