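import Pool.Agent.R924.SM.M1

open MeasureTheory Set Filter Topology

set_option autoImplicit false

namespace Pool.Agent.R924.SM

theorem measurable_sh_it (k : ℕ) : Measurable (sh^[k]) := measurable_sh.iterate k
theorem measurable_shi_it (k : ℕ) : Measurable (shi^[k]) := measurable_shi.iterate k

/-- `(k, y) ↦ sh^[k] y` is jointly measurable. -/
theorem measurable_sh_joint {Z : Type} [MeasurableSpace Z] {k : Z → ℕ} {y : Z → XX}
    (hk : Measurable k) (hy : Measurable y) : Measurable fun z => sh^[k z] (y z) := by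
  have h : Measurable fun p : ℕ × XX => sh^[p.1] p.2 :=
    measurable_from_prod_countable_right fun n => measurable_sh_it n
  exact h.comp (hk.prodMk hy)

theorem measurable_shi_joint {Z : Type} [MeasurableSpace Z] {k : Z → ℕ} {y : Z → XX}
    (hk : Measurable k) (hy : Measurable y) : Measurable fun z => shi^[k z] (y z) := by
  have h : Measurable fun p : ℕ × XX => shi^[p.1] p.2 :=
    measurable_from_prod_countable_right fun n => measurable_shi_it n
  exact h.comp (hk.prodMk hy)

theorem sh_shi_it (k : ℕ) (x : XX) : sh^[k] (shi^[k] x) = x :=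
  Function.LeftInverse.iterate (sh_shi) k x
theorem shi_sh_it (k : ℕ) (x : XX) : shi^[k] (sh^[k] x) = x :=
  Function.LeftInverse.iterate (shi_sh) k x

/-- The transformation `(x, y) ↦ (sh x, sh^[k w(x)] y)`. -/
noncomputable def BT (k : ℕ) (w : XX → ℕ) (hw : Measurable w) : MPT (mm.prod mm) where
  fwd := fun z => (sh z.1, sh^[k * w z.1] z.2)
  bwd := fun z => (shi z.1, shi^[k * w (shi z.1)] z.2)
  mp := by
    refine mp_sh.skew_product (g := fun x y => sh^[k * w x] y) ?_ ?_
    · exact measurable_sh_joint ((hw.const_mul k).comp measurable_fst) measurable_snd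
    · exact Eventually.of_forall fun x => (mp_sh.iterate (k * w x)).map_eq
  mp' := by
    refine mp_shi.skew_product (g := fun x y => shi^[k * w (shi x)] y) ?_ ?_
    · exact measurable_shi_joint (((hw.comp measurable_shi).const_mul k).comp measurable_fst)
        measurable_snd
    · exact Eventually.of_forall fun x => (mp_shi.iterate (k * w (shi x))).map_eq
  bf := Eventually.of_forall fun z => by
    simp only [shi_sh, shi_sh_it, Prod.mk.eta]
  fb := Eventually.of_forall fun z => by
    simp only [sh_shi, sh_shi_it, Prod.mk.eta]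

theorem BT_it (k : ℕ) (w : XX → ℕ) (hw : Measurable w) (j : ℕ) (z : XX × XX) :
    (BT k w hw).fwd^[j] z = (sh^[j] z.1, sh^[k * cnt sh w j z.1] z.2) := by
  induction j with
  | zero => simp [cnt]
  | succ j ih =>
    rw [Function.iterate_succ_apply', ih]
    simp only [BT]
    rw [← Function.iterate_succ_apply' sh j, ← Function.iterate_add_apply]
    congr 2
    rw [cnt, cnt, Finset.sum_range_succ]
    ring_nf

theorem Ext_BT (k : ℕ) (w : XX → ℕ) (hw : Measurable w) : Ext RR (BT k w hw) :=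
  Eventually.of_forall fun z => rfl

/-- The perturbed transformation. -/
noncomputable def TP (Φ : MPT (mm.prod mm)) (k : ℕ) (w : XX → ℕ) (hw : Measurable w) :
    MPT (mm.prod mm) := Φ.inv.comp ((BT k w hw).comp Φ)

theorem one_comp_one {X : Type} [MeasurableSpace X] {m : Measure X} (R : MPT m) :
    (MPT.one m).inv.comp (R.comp (MPT.one m)) = R := by
  cases R; rfl

theorem Ext_TP {Φ : MPT (mm.prod mm)} (hΦ : Ext (MPT.one mm) Φ) (k : ℕ) (w : XX → ℕ)
    (hw : Measurable w) : Ext RR (TP Φ k w hw) := by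
  have := Ext.comp (Ext.inv hΦ) (Ext.comp (Ext_BT k w hw) hΦ)
  rw [one_comp_one] at this
  exact this

theorem TP_it (Φ : MPT (mm.prod mm)) (k : ℕ) (w : XX → ℕ) (hw : Measurable w) (j : ℕ) :
    ∀ᵐ z ∂(mm.prod mm), (TP Φ k w hw).fwd^[j] z = Φ.bwd ((BT k w hw).fwd^[j] (Φ.fwd z)) := by
  induction j with
  | zero =>
    filter_upwards [Φ.bf] with z hz
    simp [hz]
  | succ j ih =>
    have h2 : ∀ᵐ z ∂(mm.prod mm), Φ.fwd (Φ.bwd ((BT k w hw).fwd^[j] (Φ.fwd z)))
        = (BT k w hw).fwd^[j] (Φ.fwd z) :=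
      (((BT k w hw).mp.iterate j).comp Φ.mp).quasiMeasurePreserving.ae Φ.fb
    filter_upwards [ih, h2] with z h1 h2
    rw [Function.iterate_succ_apply', h1]
    simp only [TP, MPT.comp, MPT.inv, Function.comp_apply]
    rw [h2, Function.iterate_succ_apply']

theorem Ext_it_one {Φ : MPT (mm.prod mm)} (hΦ : Ext (MPT.one mm) Φ) :
    ∀ᵐ z ∂(mm.prod mm), (Φ.fwd z).1 = z.1 := hΦ

/-- closeness of the perturbed transformation -/
theorem TP_near {T₀ Φ : MPT (mm.prod mm)} (hΦ : Ext (MPT.one mm) Φ) (k : ℕ) (w : XX → ℕ)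
    (hw : Measurable w) :
    (mm.prod mm) {z | (TP Φ k w hw).fwd z ≠ T₀.fwd z} ≤
      (mm.prod mm) {z | T₀.fwd z ≠ Φ.bwd (sh (Φ.fwd z).1, (Φ.fwd z).2)} +
      mm {x | w x ≠ 0} := by
  have h1 : {z | (TP Φ k w hw).fwd z ≠ T₀.fwd z} ⊆
      {z | T₀.fwd z ≠ Φ.bwd (sh (Φ.fwd z).1, (Φ.fwd z).2)} ∪ {z | w (Φ.fwd z).1 ≠ 0} := by
    intro z hz
    by_cases h : w (Φ.fwd z).1 = 0
    · left
      simp only [mem_setOf_eq] at *
      intro h3
      apply hz
      rw [h3]
      simp [TP, MPT.comp, MPT.inv, BT, h]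
    · exact Or.inr h
  refine (measure_mono h1).trans ((measure_union_le _ _).trans (add_le_add le_rfl ?_))
  have h2 : MeasurePreserving (fun z => (Φ.fwd z).1) (mm.prod mm) mm :=
    (measurePreserving_fst (μ := mm) (ν := mm)).comp Φ.mp
  have h3 : MeasurableSet {x : XX | w x ≠ 0} := (hw (measurableSet_singleton 0)).compl
  exact (h2.measure_preimage h3.nullMeasurableSet).le

end Pool.Agent.R924.SM
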