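import Pool.Agent.R924.SM.M2

open MeasureTheory Set Filter Topology

set_option autoImplicit false

namespace Pool.Agent.R924.SM

/-- centred indicator -/
noncomputable def bb (E : Set XX) (y : XX) : ℝ := E.indicator 1 y - mm.real E

theorem measurable_bb {E : Set XX} (hE : MeasurableSet E) : Measurable (bb E) :=
  (measurable_one.indicator hE).sub_const _

theorem abs_bb (E : Set XX) (y : XX) : |bb E y| ≤ 1 := by
  unfold bb
  have h1 : (0 : ℝ) ≤ mm.real E := measureReal_nonneg
  have h2 : mm.real E ≤ 1 := measureReal_le_one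
  by_cases h : y ∈ E
  · rw [indicator_of_mem h, Pi.one_apply, abs_le]; constructor <;> linarith
  · rw [indicator_of_notMem h, abs_le]; constructor <;> linarith

theorem integral_bb {E : Set XX} (hE : MeasurableSet E) : ∫ y, bb E y ∂mm = 0 := by
  unfold bb
  rw [integral_sub (Integrable.indicator (integrable_const 1) hE) (integrable_const _),
    integral_indicator_one hE]
  simp

/-- the structured approximation on `XX × XX` -/
noncomputable def F0 {D : ℕ} (A E : Fin D → Set XX) (c : Fin D → ℝ) (u : XX × XX) : ℝ :=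
  ∑ i, (c i * (A i).indicator 1 u.1) * bb (E i) u.2

theorem measurable_F0 {D : ℕ} {A E : Fin D → Set XX} (c : Fin D → ℝ)
    (hA : ∀ i, MeasurableSet (A i)) (hE : ∀ i, MeasurableSet (E i)) : Measurable (F0 A E c) := by
  unfold F0
  refine Finset.measurable_sum _ fun i _ => ?_
  exact (((measurable_one.indicator (hA i)).const_mul (c i)).comp measurable_fst).mul
    ((measurable_bb (hE i)).comp measurable_snd)

theorem abs_ci {D : ℕ} (A : Fin D → Set XX) (c : Fin D → ℝ) (i : Fin D) (x : XX) :
    |c i * (A i).indicator 1 x| ≤ ∑ j, |c j| := by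
  refine le_trans ?_ (Finset.single_le_sum (f := fun j => |c j|) (fun j _ => abs_nonneg _)
    (Finset.mem_univ i))
  rw [abs_mul]
  by_cases h : x ∈ A i
  · simp [indicator_of_mem h]
  · simp [indicator_of_notMem h]

theorem abs_F0 {D : ℕ} (A E : Fin D → Set XX) (c : Fin D → ℝ) (u : XX × XX) :
    |F0 A E c u| ≤ D * ∑ j, |c j| := by
  unfold F0
  refine (Finset.abs_sum_le_sum_abs _ _).trans ?_
  have : ∀ i ∈ Finset.univ, |(c i * (A i).indicator 1 u.1) * bb (E i) u.2| ≤ ∑ j, |c j| := by
    intro i _
    rw [abs_mul]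
    calc _ ≤ (∑ j, |c j|) * 1 := by
          gcongr
          · exact abs_ci A c i u.1
          · exact abs_bb _ _
      _ = _ := mul_one _
  refine (Finset.sum_le_card_nsmul _ _ _ this).trans ?_
  simp

/-- approximation of `f ∘ snd ∘ Φ⁻¹` by structured functions -/
theorem approx (hCE : S_CE) (hDE : S_DENS) (hCY : S_CYL) {Φ : MPT (mm.prod mm)}
    (hΦ : Ext (MPT.one mm) Φ) {f : XX → ℝ} (hf : Measurable f) (hf1 : ∀ y, |f y| ≤ 1)
    (hf0 : ∫ y, f y ∂mm = 0) {ε : ℝ} (hε : 0 < ε) :
    ∃ (D : ℕ) (A E : Fin D → Set XX) (c : Fin D → ℝ), (∀ i, MeasurableSet (A i)) ∧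
      (∀ i, E i ∈ Cyl) ∧
      ∫ u, (f (Φ.bwd u).2 - F0 A E c u) ^ 2 ∂(mm.prod mm) < ε := by
  have hFm : Measurable fun u : XX × XX => f (Φ.bwd u).2 :=
    hf.comp (measurable_snd.comp Φ.mp'.measurable)
  have hFL : MemLp (fun u : XX × XX => f (Φ.bwd u).2) 2 (mm.prod mm) :=
    MemLp.of_bound hFm.aestronglyMeasurable 1 (Eventually.of_forall fun u => hf1 _)
  obtain ⟨D, A, E, c, hA, hE, hlt⟩ := hDE XX XX mm mm Cyl hCY.1 hCY.2.1 hCY.2.2.1 _ hFL ε hε
  refine ⟨D, A, E, c, hA, hE, lt_of_le_of_lt ?_ hlt⟩
  have hEm : ∀ i, MeasurableSet (E i) := fun i => (hE i).1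
  set G : XX × XX → ℝ := fun z => ∑ i, c i * (A i).indicator 1 z.1 * (E i).indicator 1 z.2
    with hG
  have hGm : Measurable G := by
    refine Finset.measurable_sum _ fun i _ => ?_
    exact (((measurable_one.indicator (hA i)).const_mul (c i)).comp measurable_fst).mul
      ((measurable_one.indicator (hEm i)).comp measurable_snd)
  have hGb : ∀ z, |G z| ≤ D * ∑ j, |c j| := by
    intro z
    refine (Finset.abs_sum_le_sum_abs _ _).trans ?_
    have : ∀ i ∈ Finset.univ, |c i * (A i).indicator 1 z.1 * (E i).indicator 1 z.2|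
        ≤ ∑ j, |c j| := by
      intro i _
      rw [abs_mul]
      calc _ ≤ (∑ j, |c j|) * 1 := by
            gcongr
            · exact abs_ci A c i z.1
            · by_cases h : z.2 ∈ E i
              · simp [indicator_of_mem h]
              · simp [indicator_of_notMem h]
        _ = _ := mul_one _
    refine (Finset.sum_le_card_nsmul _ _ _ this).trans ?_
    simp
  set H : XX × XX → ℝ := fun z => f (Φ.bwd z).2 - G z with hH
  have hHm : Measurable H := hFm.sub hGm
  have hHb : ∀ z, |H z| ≤ 1 + D * ∑ j, |c j| := fun z =>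
    (abs_sub _ _).trans (add_le_add (hf1 _) (hGb z))
  have key := var_le (m := mm) (η := mm) hHm hHb
  refine le_trans (le_of_eq ?_) key
  refine integral_congr_ae ?_
  -- fibre means
  have hce := hCE XX XX mm mm (MPT.one mm).inv Φ.inv (Ext.inv hΦ) (fun z => f z.2)
    (intb (hf.comp measurable_snd) (fun z => hf1 z.2))
  have hce2 : ∀ᵐ z ∂(mm.prod mm), ∫ y, f (Φ.bwd (z.1, y)).2 ∂mm = 0 := by
    have h1 : ∀ᵐ x ∂mm, ∫ y, f (Φ.bwd (x, y)).2 ∂mm = 0 := by
      filter_upwards [hce] with x hx
      simp only [MPT.inv] at hx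
      rw [hx]
      exact hf0
    exact (measurePreserving_fst (μ := mm) (ν := mm)).quasiMeasurePreserving.ae h1
  filter_upwards [hce2] with z hz
  have hGint : ∫ y, G (z.1, y) ∂mm = ∑ i, c i * (A i).indicator 1 z.1 * mm.real (E i) := by
    simp only [hG]
    rw [integral_finsetSum]
    · refine Finset.sum_congr rfl fun i _ => ?_
      rw [integral_const_mul, integral_indicator_one (hEm i)]
    · intro i _
      exact ((integrable_const (1 : ℝ)).indicator (hEm i)).const_mul _
  have hHint : ∫ y, H (z.1, y) ∂mm = - ∑ i, c i * (A i).indicator 1 z.1 * mm.real (E i) := by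
    simp only [hH]
    rw [integral_sub, hz, hGint, zero_sub]
    · exact intb (hFm.comp measurable_prodMk_left) (fun y => hf1 _)
    · exact intb (hGm.comp measurable_prodMk_left) (fun y => hGb _)
  rw [hHint]
  congr 1
  simp only [hH, hG, F0, bb, sub_neg_eq_add]
  have : ∀ i, (c i * (A i).indicator 1 z.1) * ((E i).indicator 1 z.2 - mm.real (E i))
      = c i * (A i).indicator 1 z.1 * (E i).indicator 1 z.2
        - c i * (A i).indicator 1 z.1 * mm.real (E i) := fun i => by ring
  simp_rw [this]
  rw [Finset.sum_sub_distrib]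
  ring

/-- orthogonality of `b ∘ sh^[k c]` for different `c`. -/
theorem orth (hCY : S_CYL) {E : Set XX} (hE : E ∈ Cyl) : ∃ k₀ : ℕ, ∀ k ≥ k₀, ∀ c d : ℕ, c ≠ d →
    ∫ y, bb E (sh^[k * c] y) * bb E (sh^[k * d] y) ∂mm = 0 := by
  obtain ⟨k₀, hk₀⟩ := hCY.2.2.2.1 E hE E hE
  refine ⟨k₀, fun k hk => ?_⟩
  have hEm := hE.1
  have step : ∀ c d : ℕ, c < d → ∫ y, bb E (sh^[k * c] y) * bb E (sh^[k * d] y) ∂mm = 0 := by
    intro c d hcd
    obtain ⟨e, rfl⟩ : ∃ e, d = c + e := ⟨d - c, by omega⟩
    have he : 1 ≤ e := by omega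
    have h1 : ∀ y, bb E (sh^[k * c] y) * bb E (sh^[k * (c + e)] y)
        = (fun u => bb E u * bb E (sh^[k * e] u)) (sh^[k * c] y) := by
      intro y
      simp only
      rw [← Function.iterate_add_apply, mul_add, add_comm (k * c)]
    simp_rw [h1]
    have hm : Measurable fun u => bb E u * bb E (sh^[k * e] u) :=
      (measurable_bb hEm).mul ((measurable_bb hEm).comp (measurable_sh_it _))
    have h2 : ∫ y, (fun u => bb E u * bb E (sh^[k * e] u)) (sh^[k * c] y) ∂mm
        = ∫ u, bb E u * bb E (sh^[k * e] u) ∂mm := by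
      have hmp := mp_sh.iterate (k * c)
      have h3 := integral_map (μ := mm) hmp.measurable.aemeasurable
        (f := fun u => bb E u * bb E (sh^[k * e] u)) hm.aestronglyMeasurable
      rw [hmp.map_eq] at h3
      exact h3.symm
    rw [h2]
    have hke : k * e ≥ k₀ := le_trans hk (Nat.le_mul_of_pos_right k (by omega))
    have hmix := hk₀ (k * e) hke
    have hEm' : MeasurableSet (sh^[k * e] ⁻¹' E) := measurable_sh_it _ hEm
    have hmm' : mm.real (sh^[k * e] ⁻¹' E) = mm.real E :=
      (mp_sh.iterate (k * e)).measureReal_preimage hEm.nullMeasurableSet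
    have e1 : ∀ u, bb E u * bb E (sh^[k * e] u)
        = (E ∩ sh^[k * e] ⁻¹' E).indicator 1 u - mm.real E * E.indicator 1 u
          - mm.real E * (sh^[k * e] ⁻¹' E).indicator 1 u + mm.real E * mm.real E := by
      intro u
      unfold bb
      by_cases ha : u ∈ E <;> by_cases hb : sh^[k * e] u ∈ E
      · have hb' : u ∈ sh^[k * e] ⁻¹' E := hb
        rw [indicator_of_mem ha, indicator_of_mem hb, indicator_of_mem hb',
          indicator_of_mem (mem_inter ha hb')]
        simp only [Pi.one_apply]; ring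
      · have hb' : u ∉ sh^[k * e] ⁻¹' E := hb
        rw [indicator_of_mem ha, indicator_of_notMem hb, indicator_of_notMem hb',
          indicator_of_notMem (fun h => hb' h.2)]
        simp only [Pi.one_apply]; ring
      · have hb' : u ∈ sh^[k * e] ⁻¹' E := hb
        rw [indicator_of_notMem ha, indicator_of_mem hb, indicator_of_mem hb',
          indicator_of_notMem (fun h => ha h.1)]
        simp only [Pi.one_apply]; ring
      · have hb' : u ∉ sh^[k * e] ⁻¹' E := hb
        rw [indicator_of_notMem ha, indicator_of_notMem hb, indicator_of_notMem hb',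
          indicator_of_notMem (fun h => ha h.1)]
        ring
    simp_rw [e1]
    have i1 : Integrable ((E ∩ sh^[k * e] ⁻¹' E).indicator (1 : XX → ℝ)) mm :=
      (integrable_const (1 : ℝ)).indicator (hEm.inter hEm')
    have i2 : Integrable (E.indicator (1 : XX → ℝ)) mm :=
      (integrable_const (1 : ℝ)).indicator hEm
    have i3 : Integrable ((sh^[k * e] ⁻¹' E).indicator (1 : XX → ℝ)) mm :=
      (integrable_const (1 : ℝ)).indicator hEm'
    have s1 : ∫ u, ((E ∩ sh^[k * e] ⁻¹' E).indicator (1 : XX → ℝ) u - mm.real E * E.indicator 1 u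
          - mm.real E * (sh^[k * e] ⁻¹' E).indicator 1 u + mm.real E * mm.real E) ∂mm
        = mm.real (E ∩ sh^[k * e] ⁻¹' E) - mm.real E * mm.real E
          - mm.real E * mm.real (sh^[k * e] ⁻¹' E) + mm.real E * mm.real E := by
      rw [integral_add (f := fun u => (E ∩ sh^[k * e] ⁻¹' E).indicator (1 : XX → ℝ) u
          - mm.real E * E.indicator 1 u - mm.real E * (sh^[k * e] ⁻¹' E).indicator 1 u)
          ((i1.sub (i2.const_mul _)).sub (i3.const_mul _)) (integrable_const _),
        integral_sub (f := fun u => (E ∩ sh^[k * e] ⁻¹' E).indicator (1 : XX → ℝ) u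
          - mm.real E * E.indicator 1 u) (i1.sub (i2.const_mul _)) (i3.const_mul _),
        integral_sub i1 (i2.const_mul _), integral_const_mul, integral_const_mul,
        integral_indicator_one (hEm.inter hEm'), integral_indicator_one hEm,
        integral_indicator_one hEm']
      simp
    rw [s1, hmix, hmm']
    ring
  intro c d hcd
  rcases lt_or_gt_of_ne hcd with h | h
  · exact step c d h
  · have := step d c h
    simp_rw [mul_comm (bb E (sh^[k * c] _))]
    exact this

end Pool.Agent.R924.SM
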