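import Pool.Agent.R924.SM.M3

open MeasureTheory Set Filter Topology

set_option autoImplicit false

namespace Pool.Agent.R924.SM

/-- the structured functions of the perturbed transformation -/
noncomputable def be (Φ : MPT (mm.prod mm)) (k : ℕ) {D : ℕ} (E : Fin D → Set XX) (i : Fin D)
    (c : ℕ) (z : XX × XX) : ℝ := bb (E i) (sh^[k * c] (Φ.fwd z).2)

theorem measurable_be (Φ : MPT (mm.prod mm)) (k : ℕ) {D : ℕ} {E : Fin D → Set XX}
    (hE : ∀ i, MeasurableSet (E i)) (i : Fin D) (c : ℕ) : Measurable (be Φ k E i c) :=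
  (measurable_bb (hE i)).comp ((measurable_sh_it _).comp (measurable_snd.comp Φ.mp.measurable))

theorem abs_be (Φ : MPT (mm.prod mm)) (k : ℕ) {D : ℕ} (E : Fin D → Set XX) (i : Fin D)
    (c : ℕ) (z : XX × XX) : |be Φ k E i c z| ≤ 1 := abs_bb _ _

theorem orth_be (hCE : S_CE) {Φ : MPT (mm.prod mm)} (hΦ : Ext (MPT.one mm) Φ) {k : ℕ} {D : ℕ}
    {E : Fin D → Set XX} (hE : ∀ i, MeasurableSet (E i))
    (ho : ∀ i, ∀ c d : ℕ, c ≠ d → ∫ y, bb (E i) (sh^[k * c] y) * bb (E i) (sh^[k * d] y) ∂mm = 0)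
    (i : Fin D) (c d : ℕ) (hcd : c ≠ d) :
    ∀ᵐ x ∂mm, ∫ y, be Φ k E i c (x, y) * be Φ k E i d (x, y) ∂mm = 0 := by
  have hm : Measurable fun z : XX × XX => bb (E i) (sh^[k * c] z.2) * bb (E i) (sh^[k * d] z.2) :=
    ((measurable_bb (hE i)).comp ((measurable_sh_it _).comp measurable_snd)).mul
      ((measurable_bb (hE i)).comp ((measurable_sh_it _).comp measurable_snd))
  have hb : ∀ z : XX × XX, |bb (E i) (sh^[k * c] z.2) * bb (E i) (sh^[k * d] z.2)| ≤ 1 := by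
    intro z
    rw [abs_mul]
    exact mul_le_one₀ (abs_bb _ _) (abs_nonneg _) (abs_bb _ _)
  have := hCE XX XX mm mm (MPT.one mm) Φ hΦ _ (intb hm hb)
  filter_upwards [this] with x hx
  exact hx.trans (ho i c d hcd)

theorem stf_eq {Φ : MPT (mm.prod mm)} (hΦ : Ext (MPT.one mm) Φ) (k : ℕ) (w : XX → ℕ)
    (hw : Measurable w) {D : ℕ} (A E : Fin D → Set XX) (c : Fin D → ℝ) (j : ℕ) :
    ∀ᵐ z ∂(mm.prod mm), stf RR.fwd w (fun i x => c i * (A i).indicator 1 x) (be Φ k E) j z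
      = F0 A E c ((BT k w hw).fwd^[j] (Φ.fwd z)) := by
  filter_upwards [Ext_it_one hΦ] with z hz
  rw [BT_it, hz]
  rfl

theorem stf_close {Φ : MPT (mm.prod mm)} (hΦ : Ext (MPT.one mm) Φ) (k : ℕ) (w : XX → ℕ)
    (hw : Measurable w) {D : ℕ} {A E : Fin D → Set XX} {c : Fin D → ℝ}
    (hA : ∀ i, MeasurableSet (A i)) (hE : ∀ i, MeasurableSet (E i)) {f : XX → ℝ}
    (hf : Measurable f) (j : ℕ) :
    ∫ z, (f ((TP Φ k w hw).fwd^[j] z).2 -
        stf RR.fwd w (fun i x => c i * (A i).indicator 1 x) (be Φ k E) j z) ^ 2 ∂(mm.prod mm)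
      = ∫ u, (f (Φ.bwd u).2 - F0 A E c u) ^ 2 ∂(mm.prod mm) := by
  have hmp : MeasurePreserving (fun z => (BT k w hw).fwd^[j] (Φ.fwd z)) (mm.prod mm) (mm.prod mm) :=
    ((BT k w hw).mp.iterate j).comp Φ.mp
  have hm : Measurable fun u : XX × XX => (f (Φ.bwd u).2 - F0 A E c u) ^ 2 :=
    ((hf.comp (measurable_snd.comp Φ.mp'.measurable)).sub (measurable_F0 c hA hE)).pow_const 2
  have h3 := integral_map (μ := mm.prod mm) hmp.measurable.aemeasurable
    (f := fun u => (f (Φ.bwd u).2 - F0 A E c u) ^ 2) hm.aestronglyMeasurable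
  rw [hmp.map_eq] at h3
  rw [h3]
  refine integral_congr_ae ?_
  filter_upwards [TP_it Φ k w hw j, stf_eq hΦ k w hw A E c j] with z h1 h2
  rw [h1, h2]

theorem measurable_cnt {w : XX → ℕ} (hw : Measurable w) (j : ℕ) : Measurable (cnt sh w j) := by
  unfold cnt
  exact Finset.measurable_sum _ fun i _ => hw.comp (measurable_sh_it i)

theorem measurable_stf {w : XX → ℕ} (hw : Measurable w) {D : ℕ} {p : Fin D → XX → ℝ}
    (hp : ∀ i, Measurable (p i)) {β : Fin D → ℕ → XX × XX → ℝ} (hβ : ∀ i c, Measurable (β i c))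
    (j : ℕ) : Measurable (stf RR.fwd w p β j) := by
  unfold stf
  refine Finset.measurable_sum _ fun i _ => ?_
  refine Measurable.mul ((hp i).comp ((measurable_sh_it j).comp measurable_fst)) ?_
  have h : Measurable fun q : ℕ × (XX × XX) => β i q.1 q.2 :=
    measurable_from_prod_countable_right fun n => hβ i n
  exact h.comp (((measurable_cnt hw j).comp measurable_fst).prodMk measurable_id)

theorem abs_stf {w : XX → ℕ} {D : ℕ} {p : Fin D → XX → ℝ} {B : ℝ} (hB : 0 ≤ B)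
    (hp : ∀ i x, |p i x| ≤ B) {β : Fin D → ℕ → XX × XX → ℝ} (hβ : ∀ i c z, |β i c z| ≤ 1)
    (j : ℕ) (z : XX × XX) : |stf RR.fwd w p β j z| ≤ D * B := by
  unfold stf
  refine (Finset.abs_sum_le_sum_abs _ _).trans ?_
  have : ∀ i ∈ Finset.univ, |p i (RR.fwd^[j] z.1) * β i (cnt RR.fwd w j z.1) z| ≤ B := by
    intro i _
    rw [abs_mul]
    calc _ ≤ B * 1 := by
          gcongr
          · exact hp i _
          · exact hβ i _ z
      _ = _ := mul_one _
  refine (Finset.sum_le_card_nsmul _ _ _ this).trans ?_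
  simp

end Pool.Agent.R924.SM
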