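import Pool.Agent.R924.SM.M4

open MeasureTheory Set Filter Topology

set_option autoImplicit false

namespace Pool.Agent.R924.SM

theorem main (hCE : S_CE) (hCO : S_CONT) (hNE : S_NEAR) (hDE : S_DENS) (hCY : S_CYL)
    (hMA : S_MARK) (hCB : S_COB) (hQQ : S_QQ) (hDC : S_DEC) : S_MAIN := by
  intro T₀ hT₀ U hU f g hf hg hf1 hg1 hf0 hg0 ε hε
  obtain ⟨δ₀, hδ₀, hnear⟩ := hNE _ _ T₀ U hU
  obtain ⟨r, hr0, hrδ⟩ := ENNReal.lt_iff_exists_nnreal_btwn.1 hδ₀
  have hr : (0 : ℝ) < r := by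
    have : (0 : NNReal) < r := by exact_mod_cast hr0
    exact_mod_cast this
  obtain ⟨Φ, hΦ, hcb⟩ := hCB XX mm T₀ hT₀ (r / 2) (by positivity)
  -- approximation of f
  obtain ⟨D, A, E, c, hA, hE, hap⟩ := approx hCE hDE hCY hΦ hf hf1 hf0
    (ε := ε / 48) (by positivity)
  set B : ℝ := ∑ j, |c j| with hB
  have hB0 : 0 ≤ B := Finset.sum_nonneg fun j _ => abs_nonneg _
  set BF : ℝ := D * B with hBF
  have hBF0 : 0 ≤ BF := by positivity
  obtain ⟨D', A', E', c', hA', hE', hap'⟩ := approx hCE hDE hCY hΦ hg hg1 hg0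
    (ε := ε / (48 * (1 + BF ^ 2))) (by positivity)
  set B' : ℝ := ∑ j, |c' j| with hB'
  have hB'0 : 0 ≤ B' := Finset.sum_nonneg fun j _ => abs_nonneg _
  set Λ : ℝ := (D * B * (D' * B')) ^ 2 with hΛ
  have hΛ0 : 0 ≤ Λ := sq_nonneg _
  have hEm : ∀ i, MeasurableSet (E i) := fun i => (hE i).1
  have hEm' : ∀ i, MeasurableSet (E' i) := fun i => (hE' i).1
  -- parameters
  obtain ⟨K, hK⟩ := exists_nat_ge (24 * Λ / ε + 1)
  obtain ⟨L, hL⟩ := exists_nat_ge (48 * Λ / ε + 8 / r + 1)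
  have hK1 : (1 : ℝ) ≤ K := by
    have : 0 ≤ 24 * Λ / ε := by positivity
    linarith
  have hL1 : (1 : ℝ) ≤ L := by
    have : 0 ≤ 48 * Λ / ε := by positivity
    have : 0 ≤ 8 / (r : ℝ) := by positivity
    linarith
  have hK1' : 1 ≤ K := by exact_mod_cast hK1
  have hL1' : 1 ≤ L := by exact_mod_cast hL1
  set δ : ℝ := min (r / 8) (ε / (72 * (1 + Λ))) with hδdef
  have hδ : 0 < δ := lt_min (by positivity) (by positivity)
  have hδ1 : δ ≤ r / 8 := min_le_left _ _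
  have hδ2 : δ ≤ ε / (72 * (1 + Λ)) := min_le_right _ _
  obtain ⟨w, κ, S, hw, hκ, hS, hw1, hκK, hSc, hwin, hwsm, N₀, hN₀⟩ := hMA K L δ hK1' hL1' hδ
  choose kE hkE using fun i => orth hCY (hE i)
  choose kE' hkE' using fun i => orth hCY (hE' i)
  set k : ℕ := ∑ i, kE i + ∑ i, kE' i with hk
  have hok : ∀ i, ∀ c d : ℕ, c ≠ d →
      ∫ y, bb (E i) (sh^[k * c] y) * bb (E i) (sh^[k * d] y) ∂mm = 0 := fun i =>
    hkE i k (le_trans (Finset.single_le_sum (f := kE) (fun _ _ => Nat.zero_le _)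
      (Finset.mem_univ i)) (Nat.le_add_right _ _))
  have hok' : ∀ i, ∀ c d : ℕ, c ≠ d →
      ∫ y, bb (E' i) (sh^[k * c] y) * bb (E' i) (sh^[k * d] y) ∂mm = 0 := fun i =>
    hkE' i k (le_trans (Finset.single_le_sum (f := kE') (fun _ _ => Nat.zero_le _)
      (Finset.mem_univ i)) (Nat.le_add_left _ _))
  have hT'E := Ext_TP hΦ k w hw
  -- closeness
  have hT'U : TP Φ k w hw ∈ U := by
    refine hnear _ (lt_of_le_of_lt (TP_near (T₀ := T₀) hΦ k w hw) ?_)
    have h1 : mm {x | w x ≠ 0} ≤ ENNReal.ofReal (r / 2) := by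
      rw [← ofReal_measureReal (measure_ne_top _ _)]
      refine ENNReal.ofReal_le_ofReal (hwsm.trans ?_)
      have h2 : 2 / (L : ℝ) ≤ r / 4 := by
        rw [div_le_div_iff₀ (by positivity) (by positivity)]
        have h3 : 8 / (r : ℝ) ≤ L := by
          have : 0 ≤ 48 * Λ / ε := by positivity
          linarith
        rw [div_le_iff₀ hr] at h3
        linarith
      linarith
    have h2 : ENNReal.ofReal ((r : ℝ) / 2) + ENNReal.ofReal ((r : ℝ) / 2) = r := by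
      rw [← ENNReal.ofReal_add (by positivity) (by positivity), add_halves, ENNReal.ofReal_coe_nnreal]
    calc _ < ENNReal.ofReal ((r : ℝ) / 2) + ENNReal.ofReal ((r : ℝ) / 2) := by
          exact ENNReal.add_lt_add_of_lt_of_le (ne_top_of_le_ne_top ENNReal.ofReal_ne_top h1) hcb h1
      _ = r := h2
      _ ≤ δ₀ := hrδ.le
  set N : ℕ := L ^ (K + 1) with hN
  have hNpos : 0 < N := Nat.pow_pos (by omega)
  have hNR : (0 : ℝ) < N := by exact_mod_cast hNpos
  set p : Fin D → XX → ℝ := fun i x => c i * (A i).indicator 1 x with hp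
  set p' : Fin D' → XX → ℝ := fun i x => c' i * (A' i).indicator 1 x with hp'
  have hpm : ∀ i, Measurable (p i) := fun i => (measurable_one.indicator (hA i)).const_mul (c i)
  have hpm' : ∀ i, Measurable (p' i) := fun i => (measurable_one.indicator (hA' i)).const_mul (c' i)
  have hpb : ∀ i x, |p i x| ≤ B := fun i x => abs_ci A c i x
  have hpb' : ∀ i x, |p' i x| ≤ B' := fun i x => abs_ci A' c' i x
  set F : ℕ → XX × XX → ℝ := fun j => stf RR.fwd w p (be Φ k E) j with hF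
  set G : ℕ → XX × XX → ℝ := fun j => stf RR.fwd w p' (be Φ k E') j with hG
  have hFm : ∀ j, Measurable (F j) := fun j => measurable_stf hw hpm (measurable_be Φ k hEm) j
  have hGm : ∀ j, Measurable (G j) := fun j => measurable_stf hw hpm' (measurable_be Φ k hEm') j
  have hFb : ∀ j z, |F j z| ≤ BF := fun j z => abs_stf hB0 hpb (abs_be Φ k E) j z
  have hGb : ∀ j z, |G j z| ≤ D' * B' := fun j z => abs_stf hB'0 hpb' (abs_be Φ k E') j z
  have hFc : ∀ j, ∫ z, (f ((TP Φ k w hw).fwd^[j] z).2 - F j z) ^ 2 ∂(mm.prod mm) < ε / 48 := by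
    intro j
    have := stf_close hΦ k w hw (c := c) hA hEm hf j
    rw [← this] at hap
    exact hap
  have hGc : ∀ j, ∫ z, (g ((TP Φ k w hw).fwd^[j] z).2 - G j z) ^ 2 ∂(mm.prod mm)
      < ε / (48 * (1 + BF ^ 2)) := by
    intro j
    have := stf_close hΦ k w hw (c := c') hA' hEm' hg j
    rw [← this] at hap'
    exact hap'
  set ε₃ : ℝ := ε / (96 * (1 + BF ^ 2)) with hε₃
  have hε₃0 : 0 < ε₃ := by positivity
  refine ⟨TP Φ k w hw, hT'E, hT'U,
    (⋂ j ∈ Finset.range N, {T : MPT (mm.prod mm) |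
      ∫ z, ((fun z => f z.2) (T.fwd^[j] z) - (fun z => f z.2) ((TP Φ k w hw).fwd^[j] z)) ^ 2
        ∂(mm.prod mm) < ε₃}) ∩
    (⋂ j ∈ Finset.range N, {T : MPT (mm.prod mm) |
      ∫ z, ((fun z => g z.2) (T.fwd^[j] z) - (fun z => g z.2) ((TP Φ k w hw).fwd^[j] z)) ^ 2
        ∂(mm.prod mm) < ε₃}), ?_, ?_⟩
  · refine inter_mem ((biInter_finset_mem _).2 fun j _ => ?_)
      ((biInter_finset_mem _).2 fun j _ => ?_)
    · exact (hCO _ _ (TP Φ k w hw) (fun z => f z.2) (hf.comp measurable_snd)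
        (MemLp.of_bound (hf.comp measurable_snd).aestronglyMeasurable 1
          (Eventually.of_forall fun u => hf1 _)) j ε₃ hε₃0).1
    · exact (hCO _ _ (TP Φ k w hw) (fun z => g z.2) (hg.comp measurable_snd)
        (MemLp.of_bound (hg.comp measurable_snd).aestronglyMeasurable 1
          (Eventually.of_forall fun u => hg1 _)) j ε₃ hε₃0).1
  · rintro T ⟨hTf, hTg⟩ hTE
    simp only [mem_iInter, Finset.mem_range, mem_setOf_eq] at hTf hTg
    refine ⟨N₀, fun n hn => ?_⟩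
    have hdec := hDC XX XX mm mm RR T hTE f g hf hg hf1 hg1 N F G BF hNpos hBF0 hFm hGm hFb
      ⟨_, hGb⟩ n
    have hqq := hQQ XX XX mm mm RR T hTE K L w κ S hL1' hw hκ hS hκK hwin D D' p p'
      (be Φ k E) (be Φ k E') B B' hB0 hB'0 hpm hpm' (measurable_be Φ k hEm)
      (measurable_be Φ k hEm') hpb hpb' (abs_be Φ k E) (abs_be Φ k E')
      (orth_be hCE hΦ hEm hok) (orth_be hCE hΦ hEm' hok') n
    have hTm : ∀ j, Measurable fun z : XX × XX => f (T.fwd^[j] z).2 := fun j =>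
      hf.comp (measurable_snd.comp (T.mp.measurable.iterate j))
    have hTPm : ∀ j, Measurable fun z : XX × XX => f ((TP Φ k w hw).fwd^[j] z).2 := fun j =>
      hf.comp (measurable_snd.comp ((TP Φ k w hw).mp.measurable.iterate j))
    have hTm' : ∀ j, Measurable fun z : XX × XX => g (T.fwd^[j] z).2 := fun j =>
      hg.comp (measurable_snd.comp (T.mp.measurable.iterate j))
    have hTPm' : ∀ j, Measurable fun z : XX × XX => g ((TP Φ k w hw).fwd^[j] z).2 := fun j =>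
      hg.comp (measurable_snd.comp ((TP Φ k w hw).mp.measurable.iterate j))
    have hP : ∀ j ∈ Finset.range N,
        ∫ z, (f (T.fwd^[j] z).2 - F j z) ^ 2 ∂(mm.prod mm) ≤ 2 * ε₃ + 2 * (ε / 48) := by
      intro j hj
      refine (sq3 (hTm j) (hTPm j) (hFm j) (fun z => hf1 _) (fun z => hf1 _) (hFb j)).trans ?_
      have h1 := hTf j (Finset.mem_range.1 hj)
      have h2 := hFc j
      linarith
    have hP' : ∀ j ∈ Finset.range N,
        ∫ z, (g (T.fwd^[j] z).2 - G j z) ^ 2 ∂(mm.prod mm)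
          ≤ 2 * ε₃ + 2 * (ε / (48 * (1 + BF ^ 2))) := by
      intro j hj
      refine (sq3 (hTm' j) (hTPm' j) (hGm j) (fun z => hg1 _) (fun z => hg1 _) (hGb j)).trans ?_
      have h1 := hTg j (Finset.mem_range.1 hj)
      have h2 := hGc j
      linarith
    set I : ℝ := ∫ x, (∫ y, f (T.fwd^[n] (x, y)).2 * g y ∂mm) ^ 2 ∂mm with hI
    have hsum : ∑ j ∈ Finset.range N,
        ((∫ x, (∫ y, F j (T.fwd^[n] (x, y)) * G j (x, y) ∂mm) ^ 2 ∂mm) +
          (∫ z, (f (T.fwd^[j] z).2 - F j z) ^ 2 ∂(mm.prod mm)) +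
          BF ^ 2 * ∫ z, (g (T.fwd^[j] z).2 - G j z) ^ 2 ∂(mm.prod mm))
        ≤ N * (Λ * (2 / L + 2 * δ + (1 / K + δ))) +
          N * (2 * ε₃ + 2 * (ε / 48)) +
          N * (BF ^ 2 * (2 * ε₃ + 2 * (ε / (48 * (1 + BF ^ 2))))) := by
      rw [Finset.sum_add_distrib, Finset.sum_add_distrib]
      refine add_le_add (add_le_add ?_ ?_) ?_
      · refine hqq.trans ?_
        have h1 : ((L : ℝ) ^ (K + 1)) = N := by rw [hN]; push_cast; rfl
        rw [h1, mul_assoc]
        refine mul_le_mul_of_nonneg_left (mul_le_mul_of_nonneg_left ?_ hΛ0) hNR.le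
        have h2 := hN₀ n hn
        have h3 : mm.real {x | κ x = κ (RR.fwd^[n] x)} ≤ 1 / K + δ := h2
        linarith
      · refine (Finset.sum_le_card_nsmul _ _ _ hP).trans ?_
        rw [Finset.card_range, nsmul_eq_mul]
      · refine (Finset.sum_le_card_nsmul _ _ (BF ^ 2 * (2 * ε₃ + 2 * (ε / (48 * (1 + BF ^ 2)))))
          fun j hj => mul_le_mul_of_nonneg_left (hP' j hj) (sq_nonneg _)).trans ?_
        rw [Finset.card_range, nsmul_eq_mul]
    have hfin : (N : ℝ) * I ≤ N * (3 * (Λ * (2 / L + 2 * δ + (1 / K + δ)) +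
        (2 * ε₃ + 2 * (ε / 48)) + BF ^ 2 * (2 * ε₃ + 2 * (ε / (48 * (1 + BF ^ 2)))))) := by
      refine hdec.trans ((mul_le_mul_of_nonneg_left hsum (by norm_num)).trans (le_of_eq ?_))
      ring
    have hI2 := le_of_mul_le_mul_left hfin hNR
    -- numerical estimates
    have n1 : Λ * (2 / L) ≤ ε / 24 := by
      have h3 : 48 * Λ / ε ≤ L := by
        have : 0 ≤ 8 / (r : ℝ) := by positivity
        linarith
      rw [div_le_iff₀ hε] at h3
      rw [mul_div_assoc', div_le_div_iff₀ (by positivity) (by norm_num)]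
      linarith
    have n2 : Λ * (1 / K) ≤ ε / 24 := by
      have h3 : 24 * Λ / ε ≤ K := by linarith
      rw [div_le_iff₀ hε] at h3
      rw [mul_div_assoc', div_le_div_iff₀ (by positivity) (by norm_num)]
      linarith
    have n3 : Λ * δ ≤ ε / 72 := by
      have h4 : Λ * δ ≤ Λ * (ε / (72 * (1 + Λ))) := mul_le_mul_of_nonneg_left hδ2 hΛ0
      refine h4.trans ?_
      rw [mul_div_assoc', div_le_div_iff₀ (by positivity) (by norm_num)]
      nlinarith
    have n4 : (1 + BF ^ 2) * ε₃ = ε / 96 := by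
      rw [hε₃]; field_simp
    have n5 : BF ^ 2 * (ε / (48 * (1 + BF ^ 2))) ≤ ε / 48 := by
      rw [mul_div_assoc', div_le_div_iff₀ (by positivity) (by norm_num)]
      nlinarith [sq_nonneg BF]
    have e1 : Λ * (2 / L + 2 * δ + (1 / K + δ)) = Λ * (2 / L) + 3 * (Λ * δ) + Λ * (1 / K) := by
      ring
    have e2 : (2 * ε₃ + 2 * (ε / 48)) + BF ^ 2 * (2 * ε₃ + 2 * (ε / (48 * (1 + BF ^ 2))))
        = 2 * ((1 + BF ^ 2) * ε₃) + ε / 24 + 2 * (BF ^ 2 * (ε / (48 * (1 + BF ^ 2)))) := by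
      ring
    rw [n4] at e2
    calc I ≤ _ := hI2
      _ = 3 * (Λ * (2 / L + 2 * δ + (1 / K + δ)) + ((2 * ε₃ + 2 * (ε / 48)) +
          BF ^ 2 * (2 * ε₃ + 2 * (ε / (48 * (1 + BF ^ 2)))))) := by ring
      _ = 3 * (Λ * (2 / L) + 3 * (Λ * δ) + Λ * (1 / K) +
          (2 * (ε / 96) + ε / 24 + 2 * (BF ^ 2 * (ε / (48 * (1 + BF ^ 2)))))) := by
            rw [e1, e2]
      _ < ε := by linarith

end Pool.Agent.R924.SM
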