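import Mathlib
import Pool.Agent.R924.SM.Stm

/-!
Piece MARK for MP_2967d5_an: block structure with a random scale in a Bernoulli shift.
-/

open MeasureTheory Set Filter Topology ProbabilityTheory

set_option autoImplicit false

namespace Pool.Agent.R924.SM.MARK

open Classical in
/-- the time since the last marker -/
noncomputable def tau (q : unitInterval) (H : ℕ) (x : XX) : ℕ :=
  Nat.find (⟨H + 1, Or.inr (Nat.lt_succ_self H)⟩ : ∃ t : ℕ, x (-(t : ℤ)) < q ∨ H < t)

theorem tau_eq_iff (q : unitInterval) (H : ℕ) (x : XX) (t : ℕ) :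
    tau q H x = t ↔ (x (-(t : ℤ)) < q ∨ H < t) ∧ ∀ s < t, ¬ (x (-(s : ℤ)) < q ∨ H < s) := by
  unfold tau
  exact Nat.find_eq_iff _

theorem tau_spec (q : unitInterval) (H : ℕ) (x : XX) :
    (x (-(tau q H x : ℤ)) < q ∨ H < tau q H x) ∧
      ∀ s < tau q H x, ¬ (x (-(s : ℤ)) < q ∨ H < s) := (tau_eq_iff q H x _).1 rfl

theorem tau_le (q : unitInterval) (H : ℕ) (x : XX) (t : ℕ) (h : x (-(t : ℤ)) < q) :
    tau q H x ≤ t := by
  by_contra h2
  exact (tau_spec q H x).2 t (not_le.1 h2) (Or.inl h)

theorem meas_tau (q : unitInterval) (H : ℕ) : Measurable (tau q H) := by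
  classical
  unfold tau
  refine measurable_find _ fun k => ?_
  exact (measurableSet_lt (measurable_pi_apply _) measurable_const).union (MeasurableSet.const _)

/-- the label -/
noncomputable def lab (q : unitInterval) (K : ℕ) (u : unitInterval) : ℕ :=
  min (K - 1) ⌊(K : ℝ) * u / q⌋₊

theorem meas_lab (q : unitInterval) (K : ℕ) : Measurable (lab q K) := by
  unfold lab
  refine measurable_const.min ?_
  exact Nat.measurable_floor.comp ((measurable_const.mul measurable_subtype_coe).div_const _)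

open Classical in
/-- the scale -/
noncomputable def kap (q : unitInterval) (K H : ℕ) (x : XX) : ℕ :=
  ∑ t ∈ Finset.range (H + 1), if tau q H x = t then lab q K (x (-(t : ℤ))) else 0

theorem meas_kap (q : unitInterval) (K H : ℕ) : Measurable (kap q K H) := by
  classical
  unfold kap
  refine Finset.measurable_sum _ fun t _ => ?_
  refine Measurable.ite ?_ ((meas_lab q K).comp (measurable_pi_apply _)) measurable_const
  exact (meas_tau q H) (measurableSet_singleton t)

theorem kap_eq (q : unitInterval) (K H : ℕ) (x : XX) (h : tau q H x ≤ H) :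
    kap q K H x = lab q K (x (-(tau q H x : ℤ))) := by
  classical
  unfold kap
  rw [Finset.sum_ite_eq, if_pos (Finset.mem_range.2 (by omega))]

theorem kap_eq_zero (q : unitInterval) (K H : ℕ) (x : XX) (h : H < tau q H x) :
    kap q K H x = 0 := by
  classical
  unfold kap
  rw [Finset.sum_ite_eq, if_neg]
  rw [Finset.mem_range]
  omega

theorem kap_lt (q : unitInterval) (K H : ℕ) (hK : 1 ≤ K) (x : XX) : kap q K H x < K := by
  rcases Nat.lt_or_ge H (tau q H x) with h | h
  · rw [kap_eq_zero q K H x h]; omega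
  · rw [kap_eq q K H x h]
    unfold lab
    have := min_le_left (K - 1) ⌊(K : ℝ) * (x (-(tau q H x : ℤ))) / q⌋₊
    omega

open Classical in
/-- the modification times -/
noncomputable def ww (q : unitInterval) (K L H : ℕ) (x : XX) : ℕ :=
  if tau q H x ≤ H ∧ L ^ (kap q K H x + 1) ∣ tau q H x + 1 then 1 else 0

theorem meas_ww (q : unitInterval) (K L H : ℕ) : Measurable (ww q K L H) := by
  classical
  have : ww q K L H = (fun p : ℕ × ℕ => if p.1 ≤ H ∧ L ^ (p.2 + 1) ∣ p.1 + 1 then 1 else 0) ∘
      (fun x => (tau q H x, kap q K H x)) := by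
    funext x
    simp only [ww, Function.comp]
  rw [this]
  exact (measurable_of_countable _).comp ((meas_tau q H).prodMk (meas_kap q K H))

theorem sh_it (i : ℕ) (x : XX) (j : ℤ) : (sh^[i] x) j = x (j + i) := by
  induction i generalizing j with
  | zero => simp
  | succ i ih =>
    rw [Function.iterate_succ_apply']
    change (sh^[i] x) (j + 1) = _
    rw [ih]
    push_cast
    congr 1
    ring

theorem tau_shift (q : unitInterval) (H : ℕ) (x : XX) (i : ℕ)
    (hno : ∀ s : ℕ, 1 ≤ s → s ≤ i → ¬ x (s : ℤ) < q) (hH : tau q H x + i ≤ H) :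
    tau q H (sh^[i] x) = tau q H x + i := by
  obtain ⟨h1, h2⟩ := tau_spec q H x
  rw [tau_eq_iff]
  constructor
  · left
    rw [sh_it]
    rcases h1 with h1 | h1
    · have e : -((tau q H x + i : ℕ) : ℤ) + i = -(tau q H x : ℤ) := by push_cast; ring
      rw [e]; exact h1
    · omega
  · intro s hs
    rw [sh_it]
    rintro (h3 | h3)
    · rcases Nat.lt_or_ge s i with h4 | h4
      · have e : -(s : ℤ) + i = ((i - s : ℕ) : ℤ) := by omega
        rw [e] at h3
        exact hno (i - s) (by omega) (by omega) h3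
      · have e : -(s : ℤ) + i = -((s - i : ℕ) : ℤ) := by omega
        rw [e] at h3
        exact h2 (s - i) (by omega) (Or.inl h3)
    · omega

theorem kap_shift (q : unitInterval) (K H : ℕ) (x : XX) (i : ℕ)
    (hno : ∀ s : ℕ, 1 ≤ s → s ≤ i → ¬ x (s : ℤ) < q) (hH : tau q H x + i ≤ H) :
    kap q K H (sh^[i] x) = kap q K H x := by
  have h := tau_shift q H x i hno hH
  rw [kap_eq _ _ _ _ (by rw [h]; exact hH), kap_eq _ _ _ _ (by omega), h, sh_it]
  congr 2
  push_cast
  ring

theorem sum_ww (q : unitInterval) (K L H N : ℕ) (x : XX)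
    (hno : ∀ s : ℕ, 1 ≤ s → s ≤ N → ¬ x (s : ℤ) < q) (hH : tau q H x + N ≤ H) :
    ∀ j ≤ N, ∑ i ∈ Finset.range j, ww q K L H (sh^[i] x) =
      (tau q H x + j) / L ^ (kap q K H x + 1) - tau q H x / L ^ (kap q K H x + 1) := by
  classical
  intro j
  induction j with
  | zero => intro _; simp
  | succ j ih =>
    intro hj
    rw [Finset.sum_range_succ, ih (by omega)]
    have hno' : ∀ s : ℕ, 1 ≤ s → s ≤ j → ¬ x (s : ℤ) < q := fun s h1 h2 => hno s h1 (by omega)
    have e : ww q K L H (sh^[j] x) =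
        if L ^ (kap q K H x + 1) ∣ tau q H x + j + 1 then 1 else 0 := by
      unfold ww
      rw [tau_shift q H x j hno' (by omega), kap_shift q K H x j hno' (by omega)]
      simp only [show tau q H x + j ≤ H by omega, true_and]
    rw [e, ← add_assoc, Nat.succ_div]
    have h3 : tau q H x / L ^ (kap q K H x + 1) ≤ (tau q H x + j) / L ^ (kap q K H x + 1) :=
      Nat.div_le_div_right (by omega)
    omega

/-- the good set -/
def EE (q : unitInterval) (H N : ℕ) : Set XX :=
  {x | (∀ s : ℕ, 1 ≤ s → s ≤ N → ¬ x (s : ℤ) < q) ∧ tau q H x + N ≤ H}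

theorem meas_EE (q : unitInterval) (H N : ℕ) : MeasurableSet (EE q H N) := by
  have e : EE q H N = (⋂ (s : ℕ), ⋂ (_ : 1 ≤ s), ⋂ (_ : s ≤ N), {x : XX | x (s : ℤ) < q}ᶜ) ∩
      {x | tau q H x + N ≤ H} := by
    ext x
    simp only [EE, mem_inter_iff, mem_iInter, mem_setOf_eq, mem_compl_iff]
  rw [e]
  refine (MeasurableSet.iInter fun s => MeasurableSet.iInter fun _ => MeasurableSet.iInter fun _ =>
    (measurableSet_lt (measurable_pi_apply _) measurable_const).compl).inter ?_
  exact measurableSet_le ((meas_tau q H).add_const _) measurable_const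

theorem mm_eval (i : ℤ) (S : Set unitInterval) (hS : MeasurableSet S) :
    mm {x | x i ∈ S} = volume S := by
  have h := measurePreserving_eval_infinitePi (fun _ : ℤ => (volume : Measure unitInterval)) i
  exact h.measure_preimage hS.nullMeasurableSet

theorem mm_block (n : ℕ) (S : ℕ → Set unitInterval) (hS : ∀ t, MeasurableSet (S t)) :
    mm {x | ∀ t < n, x (-(t : ℤ)) ∈ S t} = ∏ t ∈ Finset.range n, volume (S t) := by
  classical
  have hinj : Function.Injective (fun t : ℕ => -(t : ℤ)) := by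
    intro a b h
    simpa using h
  have e : {x : XX | ∀ t < n, x (-(t : ℤ)) ∈ S t} =
      Set.pi ((Finset.range n).map ⟨fun t : ℕ => -(t : ℤ), hinj⟩ : Finset ℤ)
        (fun i : ℤ => S (-i).toNat) := by
    ext x
    simp only [mem_setOf_eq, Set.mem_pi, Finset.mem_coe, Finset.mem_map, Finset.mem_range,
      Function.Embedding.coeFn_mk]
    constructor
    · rintro h _ ⟨t, ht, rfl⟩
      simpa using h t ht
    · intro h t ht
      simpa using h (-(t : ℤ)) ⟨t, ht, rfl⟩
  rw [e]
  unfold mm
  rw [Measure.infinitePi_pi (μ := fun _ : ℤ => (volume : Measure unitInterval))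
    (fun i _ => hS _), Finset.prod_map]
  apply Finset.prod_congr rfl
  intro t _
  simp


theorem vol_Iio (q : unitInterval) : volume (Iio q) = ENNReal.ofReal q := unitInterval.volume_Iio q

theorem vol_Ici (q : unitInterval) : volume (Ici q) = ENNReal.ofReal (1 - q) :=
  unitInterval.volume_Ici q

/-- no marker during `n` steps in the past -/
theorem mm_none (q : unitInterval) (n : ℕ) :
    mm.real {x | ∀ t < n, x (-(t : ℤ)) ∈ Ici q} = (1 - (q : ℝ)) ^ n := by
  have hq : 0 ≤ 1 - (q : ℝ) := by have := q.2.2; linarith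
  rw [measureReal_def, mm_block n (fun _ => Ici q) (fun _ => measurableSet_Ici)]
  rw [Finset.prod_const, Finset.card_range, vol_Ici, ← ENNReal.ofReal_pow hq,
    ENNReal.toReal_ofReal (by positivity)]

/-- the set of the numbers with label `i` -/
def Ci (q : unitInterval) (K i : ℕ) : Set unitInterval := {u | u < q ∧ lab q K u = i}

theorem meas_Ci (q : unitInterval) (K i : ℕ) : MeasurableSet (Ci q K i) :=
  (measurableSet_lt measurable_id measurable_const).inter ((meas_lab q K) (measurableSet_singleton i))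

theorem vol_Ci (q : unitInterval) (hq : 0 < (q : ℝ)) (K i : ℕ) (hi : i < K) :
    volume (Ci q K i) ≤ ENNReal.ofReal (q / K) := by
  have hK : (0 : ℝ) < K := by exact_mod_cast (by omega : 0 < K)
  have hq1 : (q : ℝ) ≤ 1 := q.2.2
  have hi1 : ((i : ℝ) + 1) ≤ K := by exact_mod_cast hi
  have ha : (q : ℝ) * i / K ∈ unitInterval := by
    constructor
    · positivity
    · rw [div_le_one hK]
      have : (q : ℝ) * i ≤ 1 * i := mul_le_mul_of_nonneg_right hq1 (Nat.cast_nonneg _)
      linarith
  have hb : (q : ℝ) * (i + 1) / K ∈ unitInterval := by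
    constructor
    · positivity
    · rw [div_le_one hK]
      have : (q : ℝ) * (i + 1) ≤ 1 * (i + 1) := mul_le_mul_of_nonneg_right hq1 (by positivity)
      linarith
  have hsub : Ci q K i ⊆ Ico (⟨_, ha⟩ : unitInterval) ⟨_, hb⟩ := by
    rintro u ⟨hu, hl⟩
    have hu' : (u : ℝ) < q := hu
    have h0 : 0 ≤ (K : ℝ) * u / q := by
      have := u.2.1
      positivity
    have h1 : (K : ℝ) * u / q < K := by
      rw [div_lt_iff₀ hq]
      exact mul_lt_mul_of_pos_left hu' hK
    have h2 : ⌊(K : ℝ) * u / q⌋₊ < K := by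
      rw [Nat.floor_lt h0]; exact h1
    have h3 : ⌊(K : ℝ) * u / q⌋₊ = i := by
      unfold lab at hl
      omega
    rw [Nat.floor_eq_iff h0] at h3
    constructor
    · change (q : ℝ) * i / K ≤ u
      rw [div_le_iff₀ hK]
      have := h3.1
      rw [le_div_iff₀ hq] at this
      linarith
    · change (u : ℝ) < (q : ℝ) * (i + 1) / K
      rw [lt_div_iff₀ hK]
      have := h3.2
      rw [div_lt_iff₀ hq] at this
      linarith
  refine (measure_mono hsub).trans ?_
  rw [unitInterval.volume_Ico]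
  apply ENNReal.ofReal_le_ofReal
  apply le_of_eq
  change (q : ℝ) * (i + 1) / K - (q : ℝ) * i / K = q / K
  ring

theorem mm_kap_le (q : unitInterval) (hq : 0 < (q : ℝ)) (K H i : ℕ) (hi : i < K) :
    mm.real {x | kap q K H x = i} ≤ 1 / K + (1 - (q : ℝ)) ^ (H + 1) := by
  have hK : (0 : ℝ) < K := by exact_mod_cast (by omega : 0 < K)
  have hq1 : 0 ≤ 1 - (q : ℝ) := by have := q.2.2; linarith
  have hsub : {x | kap q K H x = i} ⊆
      (⋃ t ∈ Finset.range (H + 1), {x : XX | ∀ s < t + 1,
        x (-(s : ℤ)) ∈ (if s = t then Ci q K i else Ici q : Set unitInterval)}) ∪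
      {x | ∀ t < H + 1, x (-(t : ℤ)) ∈ Ici q} := by
    intro x hx
    obtain ⟨h1, h2⟩ := tau_spec q H x
    rcases Nat.lt_or_ge H (tau q H x) with h | h
    · right
      intro t ht
      by_contra h3
      exact h2 t (by omega) (Or.inl (not_le.1 h3))
    · left
      rw [mem_iUnion₂]
      refine ⟨tau q H x, Finset.mem_range.2 (by omega), ?_⟩
      intro s hs
      by_cases hst : s = tau q H x
      · subst hst
        rw [if_pos rfl]
        refine ⟨h1.resolve_right (by omega), ?_⟩
        rw [← kap_eq q K H x h]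
        exact hx
      · rw [if_neg hst]
        by_contra h3
        exact h2 s (by omega) (Or.inl (not_le.1 h3))
  refine (measureReal_mono hsub (measure_ne_top _ _)).trans ((measureReal_union_le _ _).trans ?_)
  rw [mm_none]
  refine add_le_add ((measureReal_biUnion_finset_le _ _).trans ?_) le_rfl
  have hA : ∀ t ∈ Finset.range (H + 1), mm.real {x : XX | ∀ s < t + 1,
      x (-(s : ℤ)) ∈ (if s = t then Ci q K i else Ici q : Set unitInterval)} ≤
      (1 - (q : ℝ)) ^ t * (q / K) := by
    intro t _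
    rw [measureReal_def, mm_block (t + 1) (fun s => if s = t then Ci q K i else Ici q)
      (fun s => by
        split_ifs
        · exact meas_Ci q K i
        · exact measurableSet_Ici)]
    rw [Finset.prod_range_succ, if_pos rfl]
    have e : ∏ s ∈ Finset.range t, volume (if s = t then Ci q K i else Ici q) =
        ENNReal.ofReal ((1 - (q : ℝ)) ^ t) := by
      rw [Finset.prod_congr rfl (g := fun _ => ENNReal.ofReal (1 - (q : ℝ)))]
      · rw [Finset.prod_const, Finset.card_range, ← ENNReal.ofReal_pow hq1]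
      · intro s hs
        rw [if_neg (by have := Finset.mem_range.1 hs; omega), vol_Ici]
    rw [e, ENNReal.toReal_mul, ENNReal.toReal_ofReal (by positivity)]
    refine mul_le_mul_of_nonneg_left ?_ (by positivity)
    exact ENNReal.toReal_le_of_le_ofReal (by positivity) (vol_Ci q hq K i hi)
  refine (Finset.sum_le_sum hA).trans ?_
  rw [← Finset.sum_mul]
  have hgeom := geom_sum_mul_neg (1 - (q : ℝ)) (H + 1)
  have h3 : (∑ t ∈ Finset.range (H + 1), (1 - (q : ℝ)) ^ t) * q ≤ 1 := by
    have h4 : 1 - (1 - (q : ℝ)) = q := by ring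
    rw [h4] at hgeom
    rw [hgeom]
    have : 0 ≤ (1 - (q : ℝ)) ^ (H + 1) := by positivity
    linarith
  rw [← mul_div_assoc]
  exact div_le_div_of_nonneg_right h3 hK.le

theorem mm_EEc (q : unitInterval) (H N : ℕ) (hNH : N ≤ H) :
    mm.real (EE q H N)ᶜ ≤ N * q + (1 - (q : ℝ)) ^ (H - N) := by
  have hq1 : 0 ≤ 1 - (q : ℝ) := by have := q.2.2; linarith
  have hsub : (EE q H N)ᶜ ⊆ (⋃ s ∈ Finset.Icc 1 N, {x : XX | x (s : ℤ) ∈ Iio q}) ∪
      {x | ∀ t < H - N, x (-(t : ℤ)) ∈ Ici q} := by
    intro x hx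
    by_cases h : ∀ s : ℕ, 1 ≤ s → s ≤ N → ¬ x (s : ℤ) < q
    · right
      intro t ht
      by_contra h3
      apply hx
      refine ⟨h, ?_⟩
      have := tau_le q H x t (not_le.1 h3)
      omega
    · left
      push Not at h
      obtain ⟨s, h1, h2, h3⟩ := h
      rw [mem_iUnion₂]
      exact ⟨s, Finset.mem_Icc.2 ⟨h1, h2⟩, h3⟩
  refine (measureReal_mono hsub (measure_ne_top _ _)).trans ((measureReal_union_le _ _).trans ?_)
  rw [mm_none]
  refine add_le_add ((measureReal_biUnion_finset_le _ _).trans ?_) le_rfl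
  have hA : ∀ s ∈ Finset.Icc 1 N, mm.real {x : XX | x ((s : ℕ) : ℤ) ∈ Iio q} ≤ (q : ℝ) := by
    intro s _
    rw [measureReal_def, mm_eval _ _ measurableSet_Iio, vol_Iio, ENNReal.toReal_ofReal q.2.1]
  refine (Finset.sum_le_sum hA).trans ?_
  rw [Finset.sum_const, Nat.card_Icc, nsmul_eq_mul]
  simp

/-- dependence on finitely many coordinates -/
theorem kap_congr (q : unitInterval) (K H : ℕ) (x y : XX)
    (h : ∀ t ≤ H, x (-(t : ℤ)) = y (-(t : ℤ))) : kap q K H x = kap q K H y := by
  have ht : tau q H y = tau q H x := by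
    rw [tau_eq_iff]
    obtain ⟨h1, h2⟩ := tau_spec q H x
    constructor
    · rcases Nat.lt_or_ge H (tau q H x) with h3 | h3
      · exact Or.inr h3
      · rw [← h _ h3]; exact h1
    · intro s hs
      rintro (h4 | h4)
      · rcases Nat.lt_or_ge H s with h5 | h5
        · exact h2 s hs (Or.inr h5)
        · rw [← h s h5] at h4
          exact h2 s hs (Or.inl h4)
      · exact h2 s hs (Or.inr h4)
  rcases Nat.lt_or_ge H (tau q H x) with h3 | h3
  · rw [kap_eq_zero _ _ _ _ h3, kap_eq_zero _ _ _ _ (by rw [ht]; exact h3)]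
  · rw [kap_eq _ _ _ _ h3, kap_eq _ _ _ _ (by rw [ht]; exact h3), ht, h _ h3]

/-- extension of a partial configuration by `0` -/
noncomputable def extd (S : Finset ℤ) (y : (i : S) → unitInterval) : XX :=
  fun i => if h : i ∈ S then y ⟨i, h⟩ else 0

theorem meas_extd (S : Finset ℤ) : Measurable (extd S) := by
  refine measurable_pi_lambda _ fun i => ?_
  unfold extd
  by_cases h : i ∈ S
  · simp only [h, dif_pos]
    exact measurable_pi_apply _
  · simp only [h, dif_neg, not_false_eq_true]
    exact measurable_const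

theorem indep (q : unitInterval) (K H n : ℕ) (hn : H < n) :
    IndepFun (kap q K H) (fun x => kap q K H (sh^[n] x)) mm := by
  classical
  have h0 : iIndepFun (fun (i : ℤ) (ω : XX) => ω i) mm := by
    unfold mm
    exact iIndepFun_infinitePi (X := fun _ x => x) (fun _ => measurable_id)
  have hdisj : Disjoint (Finset.Icc (-(H : ℤ)) 0) (Finset.Icc ((n : ℤ) - H) n) := by
    rw [Finset.disjoint_left]
    intro a ha hb
    rw [Finset.mem_Icc] at ha hb
    omega
  have h1 := h0.indepFun_finset _ _ hdisj (fun i => measurable_pi_apply i)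
  have h2 := h1.comp (φ := fun y => kap q K H (extd _ y))
    (ψ := fun y => kap q K H (sh^[n] (extd _ y)))
    ((meas_kap q K H).comp (meas_extd _))
    ((meas_kap q K H).comp ((measurable_sh.iterate n).comp (meas_extd _)))
  have e1 : (kap q K H) = (fun y => kap q K H (extd (Finset.Icc (-(H : ℤ)) 0) y)) ∘
      (fun a (i : (Finset.Icc (-(H : ℤ)) 0 : Finset ℤ)) => a (i : ℤ)) := by
    funext x
    simp only [Function.comp]
    apply kap_congr
    intro t ht
    unfold extd
    rw [dif_pos]
    rw [Finset.mem_Icc]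
    omega
  have e2 : (fun x => kap q K H (sh^[n] x)) =
      (fun y => kap q K H (sh^[n] (extd (Finset.Icc ((n : ℤ) - H) n) y))) ∘
      (fun a (i : (Finset.Icc ((n : ℤ) - H) n : Finset ℤ)) => a (i : ℤ)) := by
    funext x
    simp only [Function.comp]
    apply kap_congr
    intro t ht
    rw [sh_it, sh_it]
    unfold extd
    rw [dif_pos]
    rw [Finset.mem_Icc]
    omega
  rw [← e1, ← e2] at h2
  exact h2

theorem mm_same (q : unitInterval) (hq : 0 < (q : ℝ)) (K H n : ℕ) (hK : 1 ≤ K) (hn : H < n) :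
    mm.real {x | kap q K H x = kap q K H (sh^[n] x)} ≤ 1 / K + (1 - (q : ℝ)) ^ (H + 1) := by
  have hsub : {x | kap q K H x = kap q K H (sh^[n] x)} ⊆
      ⋃ i ∈ Finset.range K, (kap q K H ⁻¹' {i}) ∩ ((fun x => kap q K H (sh^[n] x)) ⁻¹' {i}) := by
    intro x hx
    rw [mem_iUnion₂]
    exact ⟨kap q K H x, Finset.mem_range.2 (kap_lt q K H hK x), rfl, hx.symm⟩
  refine (measureReal_mono hsub (measure_ne_top _ _)).trans ((measureReal_biUnion_finset_le _ _).trans ?_)
  have hmp : ∀ i, mm.real ((fun x => kap q K H (sh^[n] x)) ⁻¹' {i}) = mm.real (kap q K H ⁻¹' {i}) := by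
    intro i
    have := (mp_sh.iterate n).measure_preimage
      ((meas_kap q K H) (measurableSet_singleton i)).nullMeasurableSet
    rw [measureReal_def, measureReal_def, ← this]
    rfl
  have hterm : ∀ i ∈ Finset.range K, mm.real ((kap q K H ⁻¹' {i}) ∩
      ((fun x => kap q K H (sh^[n] x)) ⁻¹' {i})) ≤
      mm.real (kap q K H ⁻¹' {i}) * (1 / K + (1 - (q : ℝ)) ^ (H + 1)) := by
    intro i hi
    have h1 := (indep q K H n hn).measure_inter_preimage_eq_mul {i} {i}
      (measurableSet_singleton i) (measurableSet_singleton i)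
    rw [measureReal_def, h1, ENNReal.toReal_mul]
    refine mul_le_mul_of_nonneg_left ?_ ENNReal.toReal_nonneg
    have h2 := hmp i
    rw [measureReal_def] at h2
    rw [h2]
    exact mm_kap_le q hq K H i (Finset.mem_range.1 hi)
  refine (Finset.sum_le_sum hterm).trans ?_
  rw [← Finset.sum_mul, sum_measureReal_preimage_singleton _
    (fun y _ => (meas_kap q K H) (measurableSet_singleton y))]
  have h5 : mm.real (kap q K H ⁻¹' ↑(Finset.range K)) ≤ 1 := measureReal_le_one
  have hq1 : 0 ≤ 1 - (q : ℝ) := by have := q.2.2; linarith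
  have h6 : 0 ≤ 1 / (K : ℝ) + (1 - (q : ℝ)) ^ (H + 1) := by positivity
  calc _ ≤ 1 * (1 / (K : ℝ) + (1 - (q : ℝ)) ^ (H + 1)) := mul_le_mul_of_nonneg_right h5 h6
    _ = _ := one_mul _


theorem div_bound (a N l : ℕ) (hl : 0 < l) : (a + N) / l - a / l ≤ N / l + 1 := by
  have h1 : (a + N) / l < a / l + N / l + 2 := by
    rw [Nat.div_lt_iff_lt_mul hl]
    have h2 := Nat.div_add_mod a l
    have h3 := Nat.div_add_mod N l
    have h4 := Nat.mod_lt a hl
    have h5 := Nat.mod_lt N hl
    have h6 : (a / l + N / l + 2) * l = l * (a / l) + l * (N / l) + l + l := by ring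
    omega
  generalize (a + N) / l = A at h1 ⊢
  generalize a / l = B at h1 ⊢
  generalize N / l = C at h1 ⊢
  omega

theorem mm_ww (q : unitInterval) (K L H : ℕ) (hK : 1 ≤ K) (hL : 1 ≤ L) :
    mm.real {x | ww q K L H x ≠ 0} ≤ 2 / L + mm.real (EE q H (L ^ (K + 1)))ᶜ := by
  classical
  obtain ⟨N, hN⟩ : ∃ N : ℕ, N = L ^ (K + 1) := ⟨_, rfl⟩
  rw [← hN]
  have hLp : (0 : ℝ) < L := by exact_mod_cast hL
  have hLN : L ≤ N := by rw [hN]; exact Nat.le_self_pow (by omega) L
  have hNp : (0 : ℝ) < N := by exact_mod_cast (by omega : 0 < N)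
  have hw1 : ∀ x, ww q K L H x ≤ 1 := by
    intro x; unfold ww; split_ifs <;> omega
  -- integral of w
  have hint : ∀ i : ℕ, ∫ x, (ww q K L H (sh^[i] x) : ℝ) ∂mm = mm.real {x | ww q K L H x ≠ 0} := by
    intro i
    have h1 : ∫ x, (ww q K L H (sh^[i] x) : ℝ) ∂mm = ∫ x, (ww q K L H x : ℝ) ∂mm := by
      have hmp := mp_sh.iterate i
      have h2 := integral_map (μ := mm) (φ := sh^[i]) hmp.measurable.aemeasurable
        (f := fun x => (ww q K L H x : ℝ))
        ((measurable_from_top.comp (meas_ww q K L H)).aestronglyMeasurable)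
      rw [hmp.map_eq] at h2
      exact h2.symm
    rw [h1]
    have h3 : (fun x => (ww q K L H x : ℝ)) = ({x | ww q K L H x ≠ 0}).indicator 1 := by
      funext x
      by_cases h : ww q K L H x = 0
      · rw [indicator_of_notMem (by simpa using h), h, Nat.cast_zero]
      · rw [indicator_of_mem (by simpa using h)]
        have : ww q K L H x = 1 := by have := hw1 x; omega
        rw [this]; simp
    rw [h3, integral_indicator_one]
    exact (meas_ww q K L H) (measurableSet_singleton 0).compl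
  have hintg : ∀ i : ℕ, Integrable (fun x => (ww q K L H (sh^[i] x) : ℝ)) mm := by
    intro i
    refine Integrable.of_bound ((measurable_from_top.comp ((meas_ww q K L H).comp
      (measurable_sh.iterate i))).aestronglyMeasurable) 1 (Eventually.of_forall fun x => ?_)
    rw [Real.norm_of_nonneg (Nat.cast_nonneg _)]
    exact_mod_cast hw1 _
  have hbound : ∀ x, ∑ i ∈ Finset.range N, (ww q K L H (sh^[i] x) : ℝ) ≤
      (N : ℝ) / L + 1 + N * (EE q H N)ᶜ.indicator 1 x := by
    intro x
    by_cases hx : x ∈ EE q H N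
    · rw [indicator_of_notMem (by simpa using hx), mul_zero, add_zero]
      have h4 := sum_ww q K L H N x hx.1 hx.2 N le_rfl
      have hl : 0 < L ^ (kap q K H x + 1) := by positivity
      have h5 := div_bound (tau q H x) N _ hl
      have h6 : N / L ^ (kap q K H x + 1) ≤ N / L :=
        Nat.div_le_div_left (Nat.le_self_pow (by omega) L) (by omega)
      have h7 : ∑ i ∈ Finset.range N, ww q K L H (sh^[i] x) ≤ N / L + 1 := by
        rw [h4]; omega
      have h8 : ((N / L : ℕ) : ℝ) ≤ (N : ℝ) / L := Nat.cast_div_le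
      have h9 : (((∑ i ∈ Finset.range N, ww q K L H (sh^[i] x) : ℕ)) : ℝ) ≤ ((N / L + 1 : ℕ) : ℝ) := by
        exact_mod_cast h7
      push_cast at h9
      linarith
    · rw [indicator_of_mem (by simpa using hx)]
      have h4 : ∑ i ∈ Finset.range N, (ww q K L H (sh^[i] x) : ℝ) ≤ ∑ _i ∈ Finset.range N, (1 : ℝ) :=
        Finset.sum_le_sum fun i _ => by exact_mod_cast hw1 _
      rw [Finset.sum_const, Finset.card_range, nsmul_eq_mul, mul_one] at h4
      have h5 : 0 ≤ (N : ℝ) / L := by positivity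
      simp only [Pi.one_apply, mul_one]
      linarith
  have hind : Integrable ((EE q H N)ᶜ.indicator (1 : XX → ℝ)) mm :=
    (integrable_const (1 : ℝ)).indicator (meas_EE q H N).compl
  have hI : ∫ x, ∑ i ∈ Finset.range N, (ww q K L H (sh^[i] x) : ℝ) ∂mm ≤
      ∫ x, ((N : ℝ) / L + 1 + N * (EE q H N)ᶜ.indicator 1 x) ∂mm :=
    integral_mono (integrable_finset_sum _ fun i _ => hintg i)
      ((integrable_const _).add (hind.const_mul _)) hbound
  rw [integral_finset_sum _ fun i _ => hintg i, integral_add (integrable_const _)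
    (hind.const_mul _), integral_const_mul, integral_indicator_one (meas_EE q H N).compl,
    integral_const, Finset.sum_congr rfl fun i _ => hint i, Finset.sum_const,
    Finset.card_range, nsmul_eq_mul] at hI
  simp only [probReal_univ, one_smul] at hI
  have h10 : (1 : ℝ) / N ≤ 1 / L :=
    one_div_le_one_div_of_le hLp (by exact_mod_cast hLN)
  have h11 : mm.real {x | ww q K L H x ≠ 0} ≤ ((N : ℝ) / L + 1 + N * mm.real (EE q H N)ᶜ) / N := by
    rw [le_div_iff₀ hNp]
    linarith
  refine h11.trans ?_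
  have h12 : ((N : ℝ) / L + 1 + N * mm.real (EE q H N)ᶜ) / N =
      1 / L + 1 / N + mm.real (EE q H N)ᶜ := by
    field_simp
  rw [h12]
  have h13 : (2 : ℝ) / L = 1 / L + 1 / L := by ring
  rw [h13]
  linarith

theorem main : S_MARK := by
  intro K L δ hK hL hδ
  obtain ⟨N, hN⟩ : ∃ N : ℕ, N = L ^ (K + 1) := ⟨_, rfl⟩
  have hNp : (0 : ℝ) < N := by
    have : 0 < N := by rw [hN]; positivity
    exact_mod_cast this
  have hq0 : 0 < min (1 / 2 : ℝ) (δ / (2 * N)) := lt_min (by norm_num) (by positivity)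
  have hq1 : min (1 / 2 : ℝ) (δ / (2 * N)) ≤ 1 := (min_le_left _ _).trans (by norm_num)
  obtain ⟨q, hq⟩ : ∃ q : unitInterval, (q : ℝ) = min (1 / 2 : ℝ) (δ / (2 * N)) :=
    ⟨⟨_, hq0.le, hq1⟩, rfl⟩
  have hqp : 0 < (q : ℝ) := by rw [hq]; exact hq0
  have hqh : (q : ℝ) ≤ 1 / 2 := by rw [hq]; exact min_le_left _ _
  have hqN : N * (q : ℝ) ≤ δ / 2 := by
    have : (q : ℝ) ≤ δ / (2 * N) := by rw [hq]; exact min_le_right _ _
    calc N * (q : ℝ) ≤ N * (δ / (2 * N)) := mul_le_mul_of_nonneg_left this hNp.le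
      _ = δ / 2 := by field_simp
  obtain ⟨M, hM⟩ := exists_pow_lt_of_lt_one (half_pos hδ) (by linarith : 1 - (q : ℝ) < 1)
  have h1q : 0 ≤ 1 - (q : ℝ) := by linarith
  have h1q1 : 1 - (q : ℝ) ≤ 1 := by linarith
  have hE : mm.real (EE q (N + M) N)ᶜ ≤ δ := by
    refine (mm_EEc q (N + M) N (by omega)).trans ?_
    rw [Nat.add_sub_cancel_left]
    linarith
  have hH : (1 - (q : ℝ)) ^ (N + M + 1) ≤ δ := by
    have : (1 - (q : ℝ)) ^ (N + M + 1) ≤ (1 - (q : ℝ)) ^ M :=
      pow_le_pow_of_le_one h1q h1q1 (by omega)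
    linarith
  refine ⟨ww q K L (N + M), kap q K (N + M), EE q (N + M) N, meas_ww _ _ _ _, meas_kap _ _ _,
    meas_EE _ _ _, ?_, kap_lt q K (N + M) hK, hE, ?_, ?_, N + M + 1, ?_⟩
  · intro x
    unfold ww
    split_ifs <;> omega
  · intro x hx
    refine ⟨tau q (N + M) x, ?_⟩
    rw [← hN]
    exact sum_ww q K L (N + M) N x hx.1 hx.2
  · refine (mm_ww q K L (N + M) hK hL).trans ?_
    rw [← hN]
    linarith
  · intro n hn
    refine (mm_same q hqp K (N + M) n hK (by omega)).trans ?_
    linarith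

end Pool.Agent.R924.SM.MARK
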