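import Pool.Agent.R924.SM.Stm

open MeasureTheory Set Filter Topology

set_option autoImplicit false

namespace Pool.Agent.R924.SM.NEAR

theorem key {Z : Type} [MeasurableSpace Z] {μ : Measure Z} (T₀ T : MPT μ) {E : Set Z}
    (hE : MeasurableSet E) :
    μ (symmDiff (T₀.bwd ⁻¹' E) (T.bwd ⁻¹' E)) ≤ μ {z | T.fwd z ≠ T₀.fwd z} := by
  have hS : MeasurableSet (symmDiff (T₀.bwd ⁻¹' E) (T.bwd ⁻¹' E)) :=
    (T₀.mp'.measurable hE).symmDiff (T.mp'.measurable hE)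
  rw [← T.mp.measure_preimage hS.nullMeasurableSet]
  apply measure_mono_ae
  filter_upwards [T.bf, T₀.bf] with z h1 h2
  intro hz
  have hz' : T.fwd z ∈ symmDiff (T₀.bwd ⁻¹' E) (T.bwd ⁻¹' E) := hz
  show T.fwd z ≠ T₀.fwd z
  intro heq
  rw [mem_symmDiff] at hz'
  simp only [mem_preimage] at hz'
  rw [h1] at hz'
  rw [heq, h2] at hz'
  tauto

theorem main : S_NEAR := by
  intro Z _ μ _ T₀ U hU
  have ht : Tendsto (id : MPT μ → MPT μ)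
      (comap (fun T : MPT μ => μ {z | T.fwd z ≠ T₀.fwd z}) (𝓝 0)) (𝓝 T₀) := by
    rw [TopologicalSpace.tendsto_nhds_generateFrom_iff]
    rintro s ⟨T₁, E, ε, hE, hε, rfl⟩ hT₀
    have hT₀' : μ (symmDiff (T₁.bwd ⁻¹' E) (T₀.bwd ⁻¹' E)) < ε := hT₀
    rw [mem_comap]
    refine ⟨Iio (ε - μ (symmDiff (T₁.bwd ⁻¹' E) (T₀.bwd ⁻¹' E))), ?_, ?_⟩
    · exact Iio_mem_nhds (tsub_pos_of_lt hT₀')
    · intro T hT
      have hT' : μ {z | T.fwd z ≠ T₀.fwd z} < ε - μ (symmDiff (T₁.bwd ⁻¹' E) (T₀.bwd ⁻¹' E)) := hT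
      rw [lt_tsub_iff_left] at hT'
      show μ (symmDiff (T₁.bwd ⁻¹' E) (T.bwd ⁻¹' E)) < ε
      calc μ (symmDiff (T₁.bwd ⁻¹' E) (T.bwd ⁻¹' E))
          ≤ μ (symmDiff (T₁.bwd ⁻¹' E) (T₀.bwd ⁻¹' E)) + μ (symmDiff (T₀.bwd ⁻¹' E) (T.bwd ⁻¹' E)) :=
            measure_symmDiff_le _ _ _
        _ ≤ μ (symmDiff (T₁.bwd ⁻¹' E) (T₀.bwd ⁻¹' E)) + μ {z | T.fwd z ≠ T₀.fwd z} := by
            refine add_le_add le_rfl ?_
            exact key T₀ T hE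
        _ < ε := hT'
  have h1 := ht hU
  rw [mem_map, preimage_id, mem_comap] at h1
  obtain ⟨t, ht0, htU⟩ := h1
  obtain ⟨δ, hδ, hδt⟩ := (ENNReal.nhds_zero_basis.mem_iff).1 ht0
  exact ⟨δ, hδ, fun T hT => htU (hδt hT)⟩

end Pool.Agent.R924.SM.NEAR
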