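import Pool.Agent.R924.SM.Stm

/-! QQ: the main estimate for the structured functions (helper888). -/

open MeasureTheory Set Filter Topology

set_option autoImplicit false

namespace Pool.Agent.R924.SM.QQ

section alg

lemma alg (hW : S_WIN) {H : Type} [NormedAddCommGroup H] [InnerProductSpace ℝ H]
    (K L s s' a a' D D' : ℕ) (α : Fin D → ℕ → H) (β : Fin D' → ℕ → H)
    (P : ℕ → Fin D → ℝ) (P' : ℕ → Fin D' → ℝ) (B B' : ℝ) (hB : 0 ≤ B)
    (hP : ∀ j i, |P j i| ≤ B) (hP' : ∀ j i, |P' j i| ≤ B') (hL : 1 ≤ L) (hs : s < K) (hs' : s' < K)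
    (hss : s ≠ s') (hα : ∀ i c, ‖α i c‖ ≤ 1) (hβ : ∀ i c, ‖β i c‖ ≤ 1)
    (oα : ∀ i c d, c ≠ d → inner ℝ (α i c) (α i d) = 0)
    (oβ : ∀ i c d, c ≠ d → inner ℝ (β i c) (β i d) = 0) (c c' : ℕ → ℕ)
    (hc : ∀ j ≤ L ^ (K + 1), c j = (a + j) / L ^ (s + 1) - a / L ^ (s + 1))
    (hc' : ∀ j ≤ L ^ (K + 1), c' j = (a' + j) / L ^ (s' + 1) - a' / L ^ (s' + 1)) :
    ∑ j ∈ Finset.range (L ^ (K + 1)),
      (∑ i, ∑ i', P j i * P' j i' * inner ℝ (α i (c j)) (β i' (c' j))) ^ 2
      ≤ 2 * (L : ℝ) ^ K * (D * B * (D' * B')) ^ 2 := by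
  have h1 : ∀ j ∈ Finset.range (L ^ (K + 1)),
      (∑ i, ∑ i', P j i * P' j i' * inner ℝ (α i (c j)) (β i' (c' j))) ^ 2
      ≤ (D * D' : ℝ) * (B * B') ^ 2 * ∑ i, ∑ i', (inner ℝ (α i (c j)) (β i' (c' j)) : ℝ) ^ 2 := by
    intro j _
    have e1 : ∑ i, ∑ i', P j i * P' j i' * inner ℝ (α i (c j)) (β i' (c' j))
        = ∑ x : Fin D × Fin D', P j x.1 * P' j x.2 * inner ℝ (α x.1 (c j)) (β x.2 (c' j)) :=
      (Fintype.sum_prod_type' _).symm
    have e2 : ∑ i, ∑ i', (inner ℝ (α i (c j)) (β i' (c' j)) : ℝ) ^ 2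
        = ∑ x : Fin D × Fin D', (inner ℝ (α x.1 (c j)) (β x.2 (c' j)) : ℝ) ^ 2 :=
      (Fintype.sum_prod_type' _).symm
    rw [e1, e2]
    have h2 := sq_sum_le_card_mul_sum_sq (s := (Finset.univ : Finset (Fin D × Fin D')))
      (f := fun x => P j x.1 * P' j x.2 * inner ℝ (α x.1 (c j)) (β x.2 (c' j)))
    refine h2.trans ?_
    rw [Finset.card_univ, Fintype.card_prod, Fintype.card_fin, Fintype.card_fin, mul_assoc]
    push_cast
    apply mul_le_mul_of_nonneg_left _ (by positivity)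
    rw [Finset.mul_sum]
    apply Finset.sum_le_sum
    intro x _
    rw [mul_pow]
    apply mul_le_mul_of_nonneg_right _ (sq_nonneg _)
    rw [← sq_abs, abs_mul]
    apply pow_le_pow_left₀ (by positivity)
    exact mul_le_mul (hP _ _) (hP' _ _) (abs_nonneg _) hB
  refine (Finset.sum_le_sum h1).trans ?_
  rw [← Finset.mul_sum]
  have h3 : ∑ j ∈ Finset.range (L ^ (K + 1)),
      ∑ i, ∑ i', (inner ℝ (α i (c j)) (β i' (c' j)) : ℝ) ^ 2 ≤ D * D' * (2 * (L : ℝ) ^ K) := by
    rw [Finset.sum_comm]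
    have h4 : ∀ i ∈ (Finset.univ : Finset (Fin D)), ∑ j ∈ Finset.range (L ^ (K + 1)),
        ∑ i', (inner ℝ (α i (c j)) (β i' (c' j)) : ℝ) ^ 2 ≤ D' * (2 * (L : ℝ) ^ K) := by
      intro i _
      rw [Finset.sum_comm]
      have h5 : ∀ i' ∈ (Finset.univ : Finset (Fin D')), ∑ j ∈ Finset.range (L ^ (K + 1)),
          (inner ℝ (α i (c j)) (β i' (c' j)) : ℝ) ^ 2 ≤ 2 * (L : ℝ) ^ K := by
        intro i' _
        have h6 := hW H K L s s' a a' (α i) (β i') hL hs hs' hss (hα i) (hβ i') (oα i) (oβ i')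
        refine le_trans (le_of_eq ?_) h6
        apply Finset.sum_congr rfl
        intro j hj
        rw [Finset.mem_range] at hj
        rw [hc j hj.le, hc' j hj.le]
      refine (Finset.sum_le_sum h5).trans ?_
      simp
    refine (Finset.sum_le_sum h4).trans ?_
    simp
    linarith
  calc (D * D' : ℝ) * (B * B') ^ 2 * ∑ j ∈ Finset.range (L ^ (K + 1)),
      ∑ i, ∑ i', (inner ℝ (α i (c j)) (β i' (c' j)) : ℝ) ^ 2
      ≤ (D * D' : ℝ) * (B * B') ^ 2 * (D * D' * (2 * (L : ℝ) ^ K)) :=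
        mul_le_mul_of_nonneg_left h3 (by positivity)
    _ = 2 * (L : ℝ) ^ K * (D * B * (D' * B')) ^ 2 := by ring

end alg

section
variable {X Y : Type} [MeasurableSpace X] [MeasurableSpace Y] {m : Measure X} {η : Measure Y}

lemma ext_it {R : MPT m} {T : MPT (m.prod η)} (h : Ext R T) (n : ℕ) :
    Ext (R.it n) (T.it n) := by
  induction n with
  | zero => exact Eventually.of_forall (fun z => rfl)
  | succ n ih =>
    have h1 := T.mp.quasiMeasurePreserving.ae ih
    filter_upwards [h, h1] with z h2 h3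
    show (T.fwd^[n+1] z).1 = R.fwd^[n+1] z.1
    rw [Function.iterate_succ_apply, Function.iterate_succ_apply]
    have : (T.fwd^[n] (T.fwd z)).1 = R.fwd^[n] (T.fwd z).1 := h3
    rw [this, h2]

lemma measurable_cnt {R : X → X} (hR : Measurable R) {w : X → ℕ} (hw : Measurable w) (j : ℕ) :
    Measurable (cnt R w j) := by
  unfold cnt
  apply Finset.measurable_fun_sum
  intro i _
  exact hw.comp (hR.iterate i)

lemma measurable_stf {R : X → X} (hR : Measurable R) {w : X → ℕ} (hw : Measurable w) {D : ℕ}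
    {p : Fin D → X → ℝ} (hp : ∀ i, Measurable (p i)) {β : Fin D → ℕ → X × Y → ℝ}
    (hβ : ∀ i c, Measurable (β i c)) (j : ℕ) : Measurable (stf R w p β j) := by
  unfold stf
  apply Finset.measurable_fun_sum
  intro i _
  apply Measurable.mul
  · exact (hp i).comp ((hR.iterate j).comp measurable_fst)
  · have h1 : Measurable (fun q : ℕ × (X × Y) => β i q.1 q.2) :=
      measurable_from_prod_countable_right (fun c => hβ i c)
    exact h1.comp (((measurable_cnt hR hw j).comp measurable_fst).prodMk measurable_id)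

lemma abs_stf_le {R : X → X} {w : X → ℕ} {D : ℕ} {p : Fin D → X → ℝ}
    {β : Fin D → ℕ → X × Y → ℝ} {B : ℝ} (hp : ∀ i x, |p i x| ≤ B)
    (hβ : ∀ i c z, |β i c z| ≤ 1) (hB : 0 ≤ B) (j : ℕ) (z : X × Y) :
    |stf R w p β j z| ≤ D * B := by
  unfold stf
  refine (Finset.abs_sum_le_sum_abs _ _).trans ?_
  have : ∀ i ∈ (Finset.univ : Finset (Fin D)), |p i (R^[j] z.1) * β i (cnt R w j z.1) z| ≤ B := by
    intro i _
    rw [abs_mul]
    calc |p i (R^[j] z.1)| * |β i (cnt R w j z.1) z| ≤ B * 1 :=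
          mul_le_mul (hp _ _) (hβ _ _ _) (abs_nonneg _) hB
      _ = B := mul_one B
  refine (Finset.sum_le_sum this).trans ?_
  simp

lemma inner_toLp {f g : Y → ℝ} (hf : MemLp f 2 η) (hg : MemLp g 2 η) :
    inner ℝ (hf.toLp f) (hg.toLp g) = ∫ y, f y * g y ∂η := by
  rw [L2.inner_def]
  apply integral_congr_ae
  filter_upwards [hf.coeFn_toLp, hg.coeFn_toLp] with y h1 h2
  rw [h1, h2]
  simp [mul_comm]

lemma memLp_of_bdd [IsProbabilityMeasure η] {f : Y → ℝ} (hf : Measurable f) (h : ∀ y, |f y| ≤ 1) :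
    MemLp f 2 η :=
  MemLp.of_bound hf.aestronglyMeasurable 1 (Eventually.of_forall (by simpa using h))

lemma norm_toLp_le [IsProbabilityMeasure η] {f : Y → ℝ} (hf : Measurable f)
    (h : ∀ y, |f y| ≤ 1) : ‖(memLp_of_bdd (η := η) hf h).toLp f‖ ≤ 1 := by
  have h1 : ‖(memLp_of_bdd (η := η) hf h).toLp f‖ ^ 2 ≤ 1 := by
    rw [← real_inner_self_eq_norm_sq, inner_toLp]
    have h2 : ∫ y, f y * f y ∂η ≤ ∫ _, (1:ℝ) ∂η := by
      apply integral_mono_of_nonneg
      · exact Eventually.of_forall (fun y => mul_self_nonneg _)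
      · exact integrable_const _
      · refine Eventually.of_forall (fun y => ?_)
        have h3 := h y
        show f y * f y ≤ 1
        rw [← sq, ← sq_abs]
        exact pow_le_one₀ (abs_nonneg _) h3
    simpa using h2
  nlinarith [norm_nonneg ((memLp_of_bdd (η := η) hf h).toLp f)]

end

theorem main (h1 : S_CE) (h2 : S_WIN) : S_QQ := by
  intro X Y _ _ m η _ _ R T hE K L w κ E hL hw hκ hEm hκK hblock D D' p p' β β' B B' hB hB' hp hp'
    hβ hβ' bp bp' bβ bβ' oβ oβ' n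
  have hRm : Measurable R.fwd := R.mp.measurable
  have hTm : Measurable T.fwd := T.mp.measurable
  set A : ℝ := D * B * (D' * B') with hA
  have hA0 : 0 ≤ A := by positivity
  set q : ℕ → X → ℝ := fun j x =>
    ∫ y, stf R.fwd w p β j (T.fwd^[n] (x, y)) * stf R.fwd w p' β' j (x, y) ∂η with hq
  have hqm : ∀ j, StronglyMeasurable (q j) := by
    intro j
    have h3 : Measurable (fun z : X × Y => stf R.fwd w p β j (T.fwd^[n] z)
        * stf R.fwd w p' β' j z) :=
      ((measurable_stf hRm hw hp hβ j).comp (hTm.iterate n)).mul (measurable_stf hRm hw hp' hβ' j)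
    exact h3.stronglyMeasurable.integral_prod_right'
  have hqA : ∀ j x, |q j x| ≤ A := by
    intro j x
    have h3 := norm_integral_le_of_norm_le_const (μ := η)
      (f := fun y => stf R.fwd w p β j (T.fwd^[n] (x, y)) * stf R.fwd w p' β' j (x, y)) (C := A)
      (Eventually.of_forall (fun y => by
        rw [Real.norm_eq_abs, abs_mul]
        exact mul_le_mul (abs_stf_le bp bβ hB j _) (abs_stf_le bp' bβ' hB' j _) (abs_nonneg _)
          (by positivity)))
    simpa using h3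
  have hq2 : ∀ j x, (q j x) ^ 2 ≤ A ^ 2 := by
    intro j x
    rw [← sq_abs]
    exact pow_le_pow_left₀ (abs_nonneg _) (hqA j x) 2
  set G : Set X := {x | x ∈ E ∧ R.fwd^[n] x ∈ E ∧ κ x ≠ κ (R.fwd^[n] x)} with hG
  have hGm : MeasurableSet G := by
    apply MeasurableSet.inter hEm
    apply MeasurableSet.inter ((hRm.iterate n) hEm)
    exact (measurableSet_eq_fun hκ (hκ.comp (hRm.iterate n))).compl
  -- the good points
  have key : ∀ᵐ x ∂m, x ∈ G → ∑ j ∈ Finset.range (L ^ (K + 1)), (q j x) ^ 2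
      ≤ 2 * (L : ℝ) ^ K * A ^ 2 := by
    have hTn : ∀ᵐ x ∂m, ∀ᵐ y ∂η, (T.fwd^[n] (x, y)).1 = R.fwd^[n] x :=
      Measure.ae_ae_of_ae_prod (ext_it hE n)
    have orth1 : ∀ᵐ x ∂m, ∀ i c d, c ≠ d →
        ∫ y, β i c (T.fwd^[n] (x, y)) * β i d (T.fwd^[n] (x, y)) ∂η = 0 := by
      rw [ae_all_iff]; intro i
      rw [ae_all_iff]; intro c
      rw [ae_all_iff]; intro d
      rw [Filter.eventually_imp_distrib_left]
      intro hcd
      have hint : Integrable (fun z => β i c z * β i d z) (m.prod η) := by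
        apply Integrable.of_bound ((hβ i c).mul (hβ i d)).aestronglyMeasurable 1
        refine Eventually.of_forall (fun z => ?_)
        show ‖β i c z * β i d z‖ ≤ 1
        rw [Real.norm_eq_abs, abs_mul]
        exact mul_le_one₀ (bβ _ _ _) (abs_nonneg _) (bβ _ _ _)
      have hce := h1 X Y m η (R.it n) (T.it n) (ext_it hE n) (fun z => β i c z * β i d z) hint
      have h3 := (R.mp.iterate n).quasiMeasurePreserving.ae (oβ i c d hcd)
      filter_upwards [hce, h3] with x a b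
      exact a.trans b
    have orth2 : ∀ᵐ x ∂m, ∀ i c d, c ≠ d →
        ∫ y, β' i c (x, y) * β' i d (x, y) ∂η = 0 := by
      rw [ae_all_iff]; intro i
      rw [ae_all_iff]; intro c
      rw [ae_all_iff]; intro d
      rw [Filter.eventually_imp_distrib_left]
      exact fun hcd => oβ' i c d hcd
    filter_upwards [hTn, orth1, orth2] with x hTx ho1 ho2 hxG
    obtain ⟨a', ha'⟩ := hblock x hxG.1
    obtain ⟨a, ha⟩ := hblock _ hxG.2.1
    have hu : ∀ i c, Measurable (fun y => β i c (T.fwd^[n] (x, y))) := fun i c =>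
      (hβ i c).comp ((hTm.iterate n).comp measurable_prodMk_left)
    have hv : ∀ i c, Measurable (fun y => β' i c (x, y)) := fun i c =>
      (hβ' i c).comp measurable_prodMk_left
    have hub : ∀ i c y, |β i c (T.fwd^[n] (x, y))| ≤ 1 := fun i c y => bβ _ _ _
    have hvb : ∀ i c y, |β' i c (x, y)| ≤ 1 := fun i c y => bβ' _ _ _
    have hal := alg h2 (H := Lp ℝ 2 η) K L (κ (R.fwd^[n] x)) (κ x) a a' D D'
      (fun i c => (memLp_of_bdd (η := η) (hu i c) (hub i c)).toLp _)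
      (fun i c => (memLp_of_bdd (η := η) (hv i c) (hvb i c)).toLp _)
      (fun j i => p i (R.fwd^[j] (R.fwd^[n] x))) (fun j i => p' i (R.fwd^[j] x)) B B' hB
      (fun j i => bp _ _) (fun j i => bp' _ _) hL (hκK _) (hκK _) (Ne.symm hxG.2.2)
      (fun i c => norm_toLp_le (hu i c) (hub i c)) (fun i c => norm_toLp_le (hv i c) (hvb i c))
      (fun i c d hcd => by rw [inner_toLp]; exact ho1 i c d hcd)
      (fun i c d hcd => by rw [inner_toLp]; exact ho2 i c d hcd)
      (fun j => cnt R.fwd w j (R.fwd^[n] x)) (fun j => cnt R.fwd w j x) ha ha'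
    refine le_trans (le_of_eq ?_) hal
    apply Finset.sum_congr rfl
    intro j _
    congr 1
    have e1 : q j x = ∫ y, ∑ i, ∑ i', p i (R.fwd^[j] (R.fwd^[n] x)) * p' i' (R.fwd^[j] x)
        * (β i (cnt R.fwd w j (R.fwd^[n] x)) (T.fwd^[n] (x, y))
          * β' i' (cnt R.fwd w j x) (x, y)) ∂η := by
      apply integral_congr_ae
      filter_upwards [hTx] with y hy
      unfold stf
      rw [hy, Finset.sum_mul_sum]
      apply Finset.sum_congr rfl
      intro i _
      apply Finset.sum_congr rfl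
      intro i' _
      ring
    have hint : ∀ i i', Integrable (fun y => p i (R.fwd^[j] (R.fwd^[n] x)) * p' i' (R.fwd^[j] x)
        * (β i (cnt R.fwd w j (R.fwd^[n] x)) (T.fwd^[n] (x, y))
          * β' i' (cnt R.fwd w j x) (x, y))) η := by
      intro i i'
      apply Integrable.const_mul
      apply Integrable.of_bound ((hu _ _).mul (hv _ _)).aestronglyMeasurable 1
      refine Eventually.of_forall (fun y => ?_)
      show ‖β i (cnt R.fwd w j (R.fwd^[n] x)) (T.fwd^[n] (x, y))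
          * β' i' (cnt R.fwd w j x) (x, y)‖ ≤ 1
      rw [Real.norm_eq_abs, abs_mul]
      exact mul_le_one₀ (hub _ _ _) (abs_nonneg _) (hvb _ _ _)
    rw [e1, integral_finsetSum _ (fun i _ => integrable_finsetSum _ (fun i' _ => hint i i'))]
    apply Finset.sum_congr rfl
    intro i _
    rw [integral_finsetSum _ (fun i' _ => hint i i')]
    apply Finset.sum_congr rfl
    intro i' _
    rw [integral_const_mul, inner_toLp]
  -- the integral
  have hqi : ∀ j, Integrable (fun x => (q j x) ^ 2) m := by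
    intro j
    apply Integrable.of_bound ((hqm j).measurable.pow_const 2).aestronglyMeasurable (A ^ 2)
    refine Eventually.of_forall (fun x => ?_)
    rw [Real.norm_eq_abs, abs_of_nonneg (sq_nonneg _)]
    exact hq2 j x
  have hNL : (2 : ℝ) * (L : ℝ) ^ K = (L : ℝ) ^ (K + 1) * (2 / L) := by
    have : (L : ℝ) ≠ 0 := by
      have : 0 < L := hL
      positivity
    field_simp
    ring
  have hsum : ∑ j ∈ Finset.range (L ^ (K + 1)), ∫ x, (q j x) ^ 2 ∂m
      ≤ 2 * (L : ℝ) ^ K * A ^ 2 + (L : ℝ) ^ (K + 1) * A ^ 2 * m.real Gᶜ := by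
    rw [← integral_finsetSum _ (fun j _ => hqi j)]
    have hind : Integrable (Gᶜ.indicator (1 : X → ℝ)) m :=
      (integrable_const (1:ℝ)).indicator hGm.compl
    have h3 : ∫ x, ∑ j ∈ Finset.range (L ^ (K + 1)), (q j x) ^ 2 ∂m
        ≤ ∫ x, (2 * (L : ℝ) ^ K * A ^ 2 + (L : ℝ) ^ (K + 1) * A ^ 2 * Gᶜ.indicator 1 x) ∂m := by
      apply integral_mono_ae
      · exact integrable_finsetSum _ (fun j _ => hqi j)
      · apply Integrable.add (integrable_const _)
        exact hind.const_mul _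
      · filter_upwards [key] with x hx
        by_cases hxG : x ∈ G
        · have e : Gᶜ.indicator (1 : X → ℝ) x = 0 := indicator_of_notMem (by simpa using hxG) _
          rw [e]
          simpa using hx hxG
        · have e : Gᶜ.indicator (1 : X → ℝ) x = 1 := by
            rw [indicator_of_mem (by simpa using hxG)]; rfl
          rw [e]
          have h4 : ∑ j ∈ Finset.range (L ^ (K + 1)), (q j x) ^ 2
              ≤ (L : ℝ) ^ (K + 1) * A ^ 2 := by
            refine (Finset.sum_le_sum (fun j _ => hq2 j x)).trans ?_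
            simp
          have h5 : 0 ≤ 2 * (L : ℝ) ^ K * A ^ 2 := by positivity
          linarith
    refine h3.trans (le_of_eq ?_)
    have e5 : ∫ x, (L : ℝ) ^ (K + 1) * A ^ 2 * Gᶜ.indicator (1 : X → ℝ) x ∂m
        = (L : ℝ) ^ (K + 1) * A ^ 2 * m.real Gᶜ := by
      rw [integral_const_mul, integral_indicator_one hGm.compl]
    have e6 : ∫ _, (2 * (L : ℝ) ^ K * A ^ 2) ∂m = 2 * (L : ℝ) ^ K * A ^ 2 := by simp
    rw [integral_add (integrable_const _) (hind.const_mul _), e5, e6]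
  have hGc : m.real Gᶜ ≤ 2 * m.real Eᶜ + m.real {x | κ x = κ (R.fwd^[n] x)} := by
    have h3 : Gᶜ ⊆ (Eᶜ ∪ (R.fwd^[n]) ⁻¹' Eᶜ) ∪ {x | κ x = κ (R.fwd^[n] x)} := by
      intro x hx
      by_contra hcon
      simp only [mem_union, mem_compl_iff, mem_preimage, mem_ofPred_eq, not_or, not_not] at hcon
      exact hx ⟨hcon.1.1, hcon.1.2, hcon.2⟩
    have h4 : m.real ((R.fwd^[n]) ⁻¹' Eᶜ) = m.real Eᶜ := by
      unfold Measure.real
      rw [(R.mp.iterate n).measure_preimage hEm.compl.nullMeasurableSet]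
    calc m.real Gᶜ ≤ m.real ((Eᶜ ∪ (R.fwd^[n]) ⁻¹' Eᶜ) ∪ {x | κ x = κ (R.fwd^[n] x)}) :=
          measureReal_mono h3
      _ ≤ m.real (Eᶜ ∪ (R.fwd^[n]) ⁻¹' Eᶜ) + m.real {x | κ x = κ (R.fwd^[n] x)} :=
          measureReal_union_le _ _
      _ ≤ (m.real Eᶜ + m.real ((R.fwd^[n]) ⁻¹' Eᶜ)) + m.real {x | κ x = κ (R.fwd^[n] x)} := by
          gcongr
          exact measureReal_union_le _ _
      _ = 2 * m.real Eᶜ + m.real {x | κ x = κ (R.fwd^[n] x)} := by rw [h4]; ring
  refine hsum.trans ?_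
  rw [hNL]
  have h6 : (L : ℝ) ^ (K + 1) * A ^ 2 * m.real Gᶜ ≤ (L : ℝ) ^ (K + 1) * A ^ 2 *
      (2 * m.real Eᶜ + m.real {x | κ x = κ (R.fwd^[n] x)}) :=
    mul_le_mul_of_nonneg_left hGc (by positivity)
  calc (L : ℝ) ^ (K + 1) * (2 / L) * A ^ 2 + (L : ℝ) ^ (K + 1) * A ^ 2 * m.real Gᶜ
      ≤ (L : ℝ) ^ (K + 1) * (2 / L) * A ^ 2 + (L : ℝ) ^ (K + 1) * A ^ 2 *
      (2 * m.real Eᶜ + m.real {x | κ x = κ (R.fwd^[n] x)}) := by linarith
    _ = (L : ℝ) ^ (K + 1) * A ^ 2 *
        (2 / L + 2 * m.real Eᶜ + m.real {x | κ x = κ (R.fwd^[n] x)}) := by ring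

end Pool.Agent.R924.SM.QQ
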