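import Pool.Agent.R924.SM.Stm

/-!
Passing to classes of transformations modulo null sets.
-/

open MeasureTheory Set Filter Topology

set_option autoImplicit false

namespace Pool.Agent.R924.SM

section
variable {Z : Type} [MeasurableSpace Z]

/-- Two transformations are identified when they agree off a null set. -/
instance aeS (μ : Measure Z) : Setoid (MPT μ) where
  r S T := S.fwd =ᵐ[μ] T.fwd
  iseqv := ⟨fun _ => Filter.EventuallyEq.rfl, fun h => h.symm, fun h1 h2 => h1.trans h2⟩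

/-- The space `G(Z)` of invertible measure preserving transformations, identified when they agree
off a null set. -/
def GG (μ : Measure Z) : Type := Quotient (aeS μ)

/-- The sets `N_ε(T; E) = {S : μ (T E ∆ S E) < ε}` in `G(Z)`. The image `T E` is the preimage of
`E` under the inverse of `T`; `T.out` is a representative of `T`. -/
def nbq {μ : Measure Z} (T : GG μ) (E : Set Z) (ε : ENNReal) : Set (GG μ) :=
  {S | μ (symmDiff (T.out.bwd ⁻¹' E) (S.out.bwd ⁻¹' E)) < ε}

/-- The weak topology of `G(Z)`. -/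
instance weakQ (μ : Measure Z) : TopologicalSpace (GG μ) :=
  TopologicalSpace.generateFrom
    {N | ∃ (T : GG μ) (E : Set Z) (ε : ENNReal), MeasurableSet E ∧ 0 < ε ∧ N = nbq T E ε}

/-- the class of a transformation -/
def cl {μ : Measure Z} (T : MPT μ) : GG μ := Quotient.mk (aeS μ) T

theorem cl_out {μ : Measure Z} (T : MPT μ) : (cl T).out.fwd =ᵐ[μ] T.fwd :=
  Quotient.exact (s := aeS μ) (Quotient.out_eq (s := aeS μ) (cl T))

theorem out_cl {μ : Measure Z} (q : GG μ) : cl q.out = q := Quotient.out_eq (s := aeS μ) q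

theorem bwd_ae {μ : Measure Z} {S T : MPT μ} (h : S.fwd =ᵐ[μ] T.fwd) : S.bwd =ᵐ[μ] T.bwd := by
  filter_upwards [T.fb, T.mp'.quasiMeasurePreserving.ae h, T.mp'.quasiMeasurePreserving.ae S.bf]
    with z h1 h2 h3
  rw [h2, h1] at h3
  exact h3

theorem meas_congr {μ : Measure Z} {S S' T T' : MPT μ} (h : S.fwd =ᵐ[μ] S'.fwd)
    (h' : T.fwd =ᵐ[μ] T'.fwd) (E : Set Z) :
    μ (symmDiff (S.bwd ⁻¹' E) (T.bwd ⁻¹' E)) = μ (symmDiff (S'.bwd ⁻¹' E) (T'.bwd ⁻¹' E)) := by
  refine measure_congr ?_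
  filter_upwards [bwd_ae h, bwd_ae h'] with z h1 h2
  have e : (z ∈ symmDiff (S.bwd ⁻¹' E) (T.bwd ⁻¹' E)) ↔
      (z ∈ symmDiff (S'.bwd ⁻¹' E) (T'.bwd ⁻¹' E)) := by
    simp only [mem_symmDiff, mem_preimage, h1, h2]
  exact propext e

theorem inducing_cl (μ : Measure Z) : IsInducing (cl : MPT μ → GG μ) := by
  refine ⟨?_⟩
  have h1 : (weakQ μ).induced cl = TopologicalSpace.generateFrom (preimage cl ''
    {N | ∃ (T : GG μ) (E : Set Z) (ε : ENNReal), MeasurableSet E ∧ 0 < ε ∧ N = nbq T E ε}) :=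
    induced_generateFrom_eq
  rw [h1]
  change TopologicalSpace.generateFrom _ = _
  congr 1
  ext N
  constructor
  · rintro ⟨T, E, ε, hE, hε, rfl⟩
    refine ⟨nbq (cl T) E ε, ⟨cl T, E, ε, hE, hε, rfl⟩, ?_⟩
    ext S
    simp only [mem_preimage, nbq, nbd, mem_setOf_eq]
    rw [meas_congr (cl_out T) (cl_out S)]
  · rintro ⟨_, ⟨T, E, ε, hE, hε, rfl⟩, rfl⟩
    refine ⟨T.out, E, ε, hE, hε, ?_⟩
    ext S
    simp only [mem_preimage, nbq, nbd, mem_setOf_eq]
    rw [meas_congr (S := T.out) (S' := T.out) EventuallyEq.rfl (cl_out S)]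

end

section
variable {X Y : Type} [MeasurableSpace X] [MeasurableSpace Y] {m : Measure X} {η : Measure Y}
  [SFinite m] [SFinite η]

theorem Ext_congr {R R' : MPT m} {T T' : MPT (m.prod η)} (hR : R.fwd =ᵐ[m] R'.fwd)
    (hT : T.fwd =ᵐ[m.prod η] T'.fwd) (h : Ext R T) : Ext R' T' := by
  have h1 : ∀ᵐ z ∂(m.prod η), R.fwd z.1 = R'.fwd z.1 :=
    Measure.quasiMeasurePreserving_fst.ae hR
  filter_upwards [h, h1, hT] with z h2 h3 h4
  rw [← h4, h2, h3]

theorem it_congr {Z : Type} [MeasurableSpace Z] {μ : Measure Z} {T T' : MPT μ}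
    (hT : T.fwd =ᵐ[μ] T'.fwd) (n : ℕ) : T.fwd^[n] =ᵐ[μ] T'.fwd^[n] := by
  induction n with
  | zero => exact EventuallyEq.rfl
  | succ n ih =>
    filter_upwards [ih, (T.mp.iterate n).quasiMeasurePreserving.ae hT] with z h1 h2
    rw [Function.iterate_succ_apply', Function.iterate_succ_apply', h2, h1]

theorem SM_congr {R R' : MPT m} {T T' : MPT (m.prod η)} (hR : R.fwd =ᵐ[m] R'.fwd)
    (hT : T.fwd =ᵐ[m.prod η] T'.fwd) (h : StronglyMixing R T) : StronglyMixing R' T' := by
  refine ⟨Ext_congr hR hT h.1, fun f g hf hg => ?_⟩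
  refine (h.2 f g hf hg).congr fun n => ?_
  refine integral_congr_ae ?_
  have h1 := it_congr hR n
  have h2 := Measure.ae_ae_of_ae_prod (it_congr hT n)
  filter_upwards [h1, h2] with x hx hy
  rw [hx]
  have e : ∫ y, f (T.fwd^[n] (x, y)) * (starRingEnd ℂ) (g (x, y)) ∂η
      = ∫ y, f (T'.fwd^[n] (x, y)) * (starRingEnd ℂ) (g (x, y)) ∂η := by
    refine integral_congr_ae ?_
    filter_upwards [hy] with y hy
    rw [hy]
  rw [e]

/-- Transfer of non-meagreness to classes. -/
theorem transfer {R : MPT m}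
    (h : ¬ IsMeagre {T : GR η R | StronglyMixing R T.1}) :
    ¬ IsMeagre {T : {T : GG (m.prod η) // Ext (cl R).out T.out} |
      StronglyMixing (cl R).out T.1.out} := by
  intro hm
  apply h
  let π : GR η R → {T : GG (m.prod η) // Ext (cl R).out T.out} := fun T =>
    ⟨cl T.1, Ext_congr (cl_out R).symm (cl_out T.1).symm T.2⟩
  have hind : IsInducing π := by
    have h1 : IsInducing (fun T : GR η R => cl T.1) :=
      (inducing_cl (m.prod η)).comp IsInducing.subtypeVal
    exact IsInducing.of_comp_iff IsInducing.subtypeVal |>.1 h1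
  have hsur : Function.Surjective π := by
    rintro ⟨q, hq⟩
    refine ⟨⟨q.out, Ext_congr (cl_out R) EventuallyEq.rfl hq⟩, ?_⟩
    apply Subtype.ext
    exact out_cl q
  have hopen : IsOpenMap π := by
    intro U hU
    obtain ⟨V, hV, rfl⟩ := hind.isOpen_iff.1 hU
    rw [image_preimage_eq V hsur]
    exact hV
  refine (hm.preimage_of_isOpenMap hind.continuous hopen).mono ?_
  intro T hT
  exact SM_congr (cl_out R).symm (cl_out T.1).symm hT

end

end Pool.Agent.R924.SM
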