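import Pool.Agent.R924.SM.Stm

/-!
SM-WIN (MP_2967d5_an): two orthogonal families read at two different scales.
-/

set_option autoImplicit false

namespace Pool.Agent.R924.SM.WIN

open Finset

theorem bessel {H : Type} [NormedAddCommGroup H] [InnerProductSpace ℝ H] (β : ℕ → H)
    (hβ1 : ∀ c, ‖β c‖ ≤ 1) (hβ : ∀ c d, c ≠ d → inner ℝ (β c) (β d) = 0) (x : H) (W : Finset ℕ) :
    ∑ w ∈ W, (inner ℝ x (β w)) ^ 2 ≤ ‖x‖ ^ 2 := by
  set q : ℝ := ∑ w ∈ W, (inner ℝ x (β w)) ^ 2 with hq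
  set S : H := ∑ w ∈ W, (inner ℝ x (β w)) • β w with hS
  have h1 : inner ℝ x S = q := by
    rw [hS, inner_sum, hq]
    refine sum_congr rfl fun w _ => ?_
    rw [inner_smul_right]
    ring
  have h2 : inner ℝ S S ≤ q := by
    have e : inner ℝ S S = ∑ w ∈ W, (inner ℝ x (β w)) * inner ℝ S (β w) := by
      conv_lhs => rw [hS, inner_sum]
      rw [← hS]
      refine sum_congr rfl fun w _ => ?_
      rw [inner_smul_right]
    rw [e, hq]
    refine sum_le_sum fun w hw => ?_
    have e2 : inner ℝ S (β w) = (inner ℝ x (β w)) * ‖β w‖ ^ 2 := by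
      rw [hS, sum_inner, sum_eq_single_of_mem w hw]
      · rw [real_inner_smul_left, real_inner_self_eq_norm_sq]
      · intro v _ hv
        rw [real_inner_smul_left, hβ v w hv, mul_zero]
    rw [e2]
    have h3 : ‖β w‖ ^ 2 ≤ 1 := pow_le_one₀ (norm_nonneg _) (hβ1 w)
    nlinarith [sq_nonneg (inner ℝ x (β w))]
  have h3 : 0 ≤ ‖x - S‖ ^ 2 := sq_nonneg _
  rw [norm_sub_sq_real, h1, ← real_inner_self_eq_norm_sq S] at h3
  linarith

theorem fib (l a N w : ℕ) (hl : 1 ≤ l) :
    ((range N).filter (fun j => (a + j) / l - a / l = w)).card ≤ l := by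
  have h1 : ((range N).filter (fun j => (a + j) / l - a / l = w)).card ≤
      (Ico (l * (w + a / l)) (l * (w + a / l) + l)).card := by
    refine card_le_card_of_injOn (fun j => a + j) ?_ ?_
    · intro j hj
      simp only [coe_filter, mem_range, Set.mem_ofPred_eq] at hj
      obtain ⟨-, hj⟩ := hj
      have h2 : a / l ≤ (a + j) / l := Nat.div_le_div_right (Nat.le_add_right _ _)
      have h3 : (a + j) / l = w + a / l := by omega
      rw [mem_coe, mem_Ico]
      have h4 := Nat.div_add_mod (a + j) l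
      have h5 := Nat.mod_lt (a + j) hl
      rw [h3] at h4
      show l * (w + a / l) ≤ a + j ∧ a + j < l * (w + a / l) + l
      constructor <;> omega
    · intro j _ j' _ h
      have : a + j = a + j' := h
      omega
  rw [Nat.card_Ico] at h1
  omega

theorem core {H : Type} [NormedAddCommGroup H] [InnerProductSpace ℝ H] (l l' N a a' : ℕ)
    (α β : ℕ → H) (hl : 1 ≤ l) (hl' : 1 ≤ l') (hN : l ∣ N) (hα : ∀ c, ‖α c‖ ≤ 1)
    (hβ1 : ∀ c, ‖β c‖ ≤ 1) (hβ : ∀ c d, c ≠ d → inner ℝ (β c) (β d) = 0) :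
    ∑ j ∈ range N, (inner ℝ (α ((a + j) / l - a / l)) (β ((a' + j) / l' - a' / l'))) ^ 2 ≤
      ((N / l + 1 : ℕ) : ℝ) * l' := by
  classical
  obtain ⟨t, rfl⟩ := hN
  have hdiv : l * t / l = t := Nat.mul_div_cancel_left t hl
  rw [hdiv]
  have hmaps : ∀ j ∈ range (l * t), (a + j) / l - a / l ∈ range (t + 1) := by
    intro j hj
    rw [mem_range] at hj ⊢
    have h1 : (a + j) / l ≤ (a + l * t) / l := Nat.div_le_div_right (by omega)
    rw [Nat.add_mul_div_left _ _ hl] at h1
    omega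
  rw [← sum_fiberwise_of_maps_to hmaps]
  have hv : ∀ v ∈ range (t + 1), ∑ j ∈ (range (l * t)).filter (fun j => (a + j) / l - a / l = v),
      (inner ℝ (α ((a + j) / l - a / l)) (β ((a' + j) / l' - a' / l'))) ^ 2 ≤ (l' : ℝ) := by
    intro v _
    have e1 : ∑ j ∈ (range (l * t)).filter (fun j => (a + j) / l - a / l = v),
        (inner ℝ (α ((a + j) / l - a / l)) (β ((a' + j) / l' - a' / l'))) ^ 2 ≤
        ∑ j ∈ range (l * t), (inner ℝ (α v) (β ((a' + j) / l' - a' / l'))) ^ 2 := by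
      have e2 : ∑ j ∈ (range (l * t)).filter (fun j => (a + j) / l - a / l = v),
        (inner ℝ (α ((a + j) / l - a / l)) (β ((a' + j) / l' - a' / l'))) ^ 2 =
        ∑ j ∈ (range (l * t)).filter (fun j => (a + j) / l - a / l = v),
        (inner ℝ (α v) (β ((a' + j) / l' - a' / l'))) ^ 2 := by
        refine sum_congr rfl fun j hj => ?_
        rw [(mem_filter.1 hj).2]
      rw [e2]
      exact sum_le_sum_of_subset_of_nonneg (filter_subset _ _) fun _ _ _ => sq_nonneg _
    refine e1.trans ?_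
    have e3 := sum_comp (s := range (l * t)) (fun w => (inner ℝ (α v) (β w)) ^ 2)
      (fun j => (a' + j) / l' - a' / l')
    rw [e3]
    have e4 : ∑ w ∈ (range (l * t)).image (fun j => (a' + j) / l' - a' / l'),
        ((range (l * t)).filter (fun j => (a' + j) / l' - a' / l' = w)).card •
          (inner ℝ (α v) (β w)) ^ 2 ≤
        ∑ w ∈ (range (l * t)).image (fun j => (a' + j) / l' - a' / l'),
          (l' : ℝ) * (inner ℝ (α v) (β w)) ^ 2 := by
      refine sum_le_sum fun w _ => ?_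
      rw [nsmul_eq_mul]
      refine mul_le_mul_of_nonneg_right ?_ (sq_nonneg _)
      exact_mod_cast fib l' a' (l * t) w hl'
    refine e4.trans ?_
    rw [← mul_sum]
    have h5 := bessel β hβ1 hβ (α v)
      ((range (l * t)).image (fun j => (a' + j) / l' - a' / l'))
    have h6 : ‖α v‖ ^ 2 ≤ 1 := pow_le_one₀ (norm_nonneg _) (hα v)
    calc (l' : ℝ) * _ ≤ (l' : ℝ) * 1 := mul_le_mul_of_nonneg_left (h5.trans h6) (Nat.cast_nonneg _)
      _ = l' := mul_one _
  refine (sum_le_card_nsmul _ _ _ hv).trans (le_of_eq ?_)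
  rw [card_range, nsmul_eq_mul]

theorem count (K L s s' : ℕ) (hL : 1 ≤ L) (hs : s < K) (hss : s' < s) :
    (((L ^ (K + 1)) / L ^ (s + 1) + 1 : ℕ) : ℝ) * ((L ^ (s' + 1) : ℕ) : ℝ) ≤ 2 * (L : ℝ) ^ K := by
  have h1 : L ^ (K + 1) / L ^ (s + 1) = L ^ (K - s) := by
    rw [Nat.pow_div (by omega) hL]
    congr 1
    omega
  rw [h1]
  have h2 : (L ^ (K - s) + 1) * L ^ (s' + 1) ≤ 2 * L ^ K := by
    rw [add_mul, ← pow_add, one_mul, two_mul]
    exact Nat.add_le_add (Nat.pow_le_pow_right hL (by omega)) (Nat.pow_le_pow_right hL (by omega))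
  exact_mod_cast h2

theorem main : S_WIN := by
  intro H _ _ K L s s' a a' α β hL hs hs' hss hα hβ hαo hβo
  rcases lt_or_gt_of_ne hss with h | h
  · have h1 := core (L ^ (s' + 1)) (L ^ (s + 1)) (L ^ (K + 1)) a' a β α
      (Nat.pow_pos hL) (Nat.pow_pos hL) (pow_dvd_pow _ (by omega)) hβ hα hαo
    have h2 := count K L s' s hL hs' h
    refine le_trans (le_of_eq ?_) (h1.trans h2)
    refine sum_congr rfl fun j _ => ?_
    rw [real_inner_comm]
  · have h1 := core (L ^ (s + 1)) (L ^ (s' + 1)) (L ^ (K + 1)) a a' α β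
      (Nat.pow_pos hL) (Nat.pow_pos hL) (pow_dvd_pow _ (by omega)) hα hβ hβo
    exact h1.trans (count K L s s' hL hs h)

end Pool.Agent.R924.SM.WIN
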